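import Pool.Agent.Helper85.NS.Col
import Pool.Agent.Helper95.SH.HeadT
import Pool.Agent.Helper31.NS.KcF

/-!
# Project RC, SHARP, cell engine: the rows of the shift form in the edge frame

`gA`, `gB` (helper95) through the exact kernel `kk` (helper31), with the phases on the side of the columns.
-/

open MeasureTheory Set Filter Topology

set_option autoImplicit false

namespace Helper85.NS

open Helper49.LT hiding sg
open Helper49.RC (om)
open Helper95.RC
open Helper95.SH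
open Helper49.Sharp (Par)
open Pool.Agent.Helper31.KcF (kk)
open Pool.Agent.Helper99.RC (ps CS Kc_anti Kc_off)

/-- the kernel `kk` and `Kc` -/
theorem kk_Kc (d k ph : ℝ) (m n : ℤ) : kk d k ph m n = 2 * Complex.I * Kc (ps d k ph) m n +
    (if m = n then 2 / (m : ℂ) else 0) := by
  unfold kk
  by_cases h : m + n = 0
  · rw [if_pos h, Kc_anti d k ph h]
    by_cases h0 : m = 0
    · rw [if_pos h0, if_pos h0, if_pos (by omega), h0]
      simp
      ring
    · rw [if_neg h0, if_neg h0, if_neg (by omega)]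
      ring
  · rw [if_neg h, Kc_off d k ph h]
    have h1 : ((m + n : ℤ) : ℂ) ≠ 0 := by exact_mod_cast h
    have hI := Complex.I_ne_zero
    by_cases h0 : m = n
    · subst h0
      rw [if_pos rfl, if_pos rfl]
      have h2 : (m : ℂ) ≠ 0 := by
        intro h3
        apply h1
        push_cast
        rw [h3]; ring
      push_cast at h1 ⊢
      field_simp
      ring
    · rw [if_neg h0, if_neg h0]
      push_cast at h1 ⊢
      field_simp
      ring

theorem kk_zero (d k ph : ℝ) {m n : ℤ} (h : ¬ (3 : ℤ) ∣ n - m) : kk d k ph m n = 0 := by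
  unfold kk
  by_cases h1 : m + n = 0
  · rw [if_pos h1, if_neg (by intro h2; apply h; omega)]
  · rw [if_neg h1]
    unfold CS
    rw [if_neg h, mul_zero]

/-- the row of the second family -/
theorem gNB_kk (d k ph : ℝ) (M : ℕ) (a b : ℤ → ℂ) (ha : ∀ m, m ∉ Finset.Icc (-(M : ℤ)) M → a m = 0) (n : ℤ) :
    gNB (ps d k ph) M a b n = b n / (n : ℂ) + ∑ m ∈ Finset.Icc (-(M : ℤ)) M, 1 / 2 * kk d k ph m n * a m := by
  have h1 : ∑ m ∈ Finset.Icc (-(M : ℤ)) M, 1 / 2 * kk d k ph m n * a m =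
      a n / (n : ℂ) + Complex.I * ∑ m ∈ Finset.Icc (-(M : ℤ)) M, a m * Kc (ps d k ph) m n := by
    have h2 : ∀ m, 1 / 2 * kk d k ph m n * a m = (if m = n then a n / (n : ℂ) else 0)
        + Complex.I * (a m * Kc (ps d k ph) m n) := by
      intro m
      rw [kk_Kc]
      by_cases h : m = n
      · subst h
        rw [if_pos rfl, if_pos rfl]
        ring
      · rw [if_neg h, if_neg h]
        ring
    rw [Finset.sum_congr rfl fun m _ => h2 m, Finset.sum_add_distrib, ← Finset.mul_sum, Finset.sum_ite_eq' _ n]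
    congr 1
    by_cases h : n ∈ Finset.Icc (-(M : ℤ)) M
    · rw [if_pos h]
    · rw [if_neg h, ha n h]
      ring
  rw [h1]
  unfold gNB
  ring

/-- the row of the first family -/
theorem gNA_kk (d k ph : ℝ) (M : ℕ) (a b : ℤ → ℂ) (hb : ∀ m, m ∉ Finset.Icc (-(M : ℤ)) M → b m = 0) (m : ℤ) :
    gNA (ps d k ph) M a b m = a m / (m : ℂ) +
      ∑ n ∈ Finset.Icc (-(M : ℤ)) M, 1 / 2 * (starRingEnd ℂ) (kk d k ph m n) * b n := by
  have h1 : ∑ n ∈ Finset.Icc (-(M : ℤ)) M, 1 / 2 * (starRingEnd ℂ) (kk d k ph m n) * b n =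
      b m / (m : ℂ) - Complex.I * ∑ n ∈ Finset.Icc (-(M : ℤ)) M, b n * (starRingEnd ℂ) (Kc (ps d k ph) m n) := by
    have h2 : ∀ n, 1 / 2 * (starRingEnd ℂ) (kk d k ph m n) * b n = (if n = m then b m / (m : ℂ) else 0)
        + -Complex.I * (b n * (starRingEnd ℂ) (Kc (ps d k ph) m n)) := by
      intro n
      rw [kk_Kc]
      by_cases h : n = m
      · subst h
        rw [if_pos rfl, if_pos rfl, map_add, map_mul, map_mul, Complex.conj_I, map_div₀, Complex.conj_ofNat, map_intCast]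
        ring
      · rw [if_neg (Ne.symm h), if_neg h, map_add, map_mul, map_mul, Complex.conj_I, Complex.conj_ofNat, map_zero]
        ring
    rw [Finset.sum_congr rfl fun n _ => h2 n, Finset.sum_add_distrib, ← Finset.mul_sum, Finset.sum_ite_eq' _ m]
    by_cases h : m ∈ Finset.Icc (-(M : ℤ)) M
    · rw [if_pos h]
      ring
    · rw [if_neg h, hb m h]
      ring
  rw [h1]
  unfold gNA
  ring

/-- a shift of the window -/
theorem sum_up {M M' : ℕ} (f : ℤ → ℂ) (h : ∀ m, m ∉ Finset.Icc (-(M' : ℤ)) M' → f m = 0) (hM : M' + 1 ≤ M) :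
    ∑ m ∈ Finset.Icc (-(M : ℤ)) M, f m = ∑ m ∈ Finset.Icc (-((M' + 1 : ℕ) : ℤ)) ((M' + 1 : ℕ) : ℤ), f m := by
  refine win_eq hM fun n hn => h n ?_
  rw [Finset.mem_Icc] at hn ⊢
  push_cast at hn
  omega

theorem C1_G1A (P : Par) (p r s : ℤ → ℂ) (m : ℤ) :
    C1 P p r s m = ee (-(m : ℝ) * (Real.pi / 3)) * G1A P p r s (m - 1) := by
  unfold C1 c1 G1A
  ring

theorem C2_G2A (P : Par) (p r s : ℤ → ℂ) (m : ℤ) :
    C2 P p r s m = ee (-(m : ℝ) * (2 * Real.pi / 3)) * G2A P p r s (m - 1) := by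
  unfold C2 c2 G2A
  ring

theorem ee_per (j : ℤ) : ee ((j : ℝ) * (2 * Real.pi)) = 1 := by
  rw [ee_int_mul, ee_two_pi, one_zpow]

theorem ee_pi_int (j : ℤ) : ee ((j : ℝ) * Real.pi) = (-1) ^ j := by
  rw [ee_int_mul, ee_pi]

section

variable {c : CD} {N K' : ℕ} {p r s : ℤ → ℂ} {d k ph : ℝ}

/-- **`gB` in the edge frame** (`m = m' + 1`) -/
theorem gB_edge (hps : c.P.ps = ps d k ph) (hN : K' ≤ N) (h1 : Sup (K' + 2) (G1A c.P p r s)) (n : ℤ) :
    gB c N p r s n = G2A c.P p r s n / ((n + 1 : ℤ) : ℂ) +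
      ∑ m ∈ Finset.Icc (-((K' + 3 : ℕ) : ℤ)) ((K' + 3 : ℕ) : ℤ),
        1 / 2 * kk d k ph m (n + 1) * (ee ((m : ℝ) * (Real.pi / 3)) * G1A c.P p r s (m - 1)) := by
  have ha : ∀ m, m ∉ Finset.Icc (-((K' + 3 : ℕ) : ℤ)) ((K' + 3 : ℕ) : ℤ) → C1 c.P p r s m = 0 := by
    intro m hm
    rw [C1_G1A, h1 (m - 1) (by rw [Finset.mem_Icc] at hm ⊢; push_cast at hm ⊢; omega), mul_zero]
  have ha' : ∀ m, m ∉ Finset.Icc (-((N + 3 : ℕ) : ℤ)) ((N + 3 : ℕ) : ℤ) → C1 c.P p r s m = 0 := fun m hm => ha m (by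
    rw [Finset.mem_Icc] at hm ⊢; push_cast at hm ⊢; omega)
  unfold gB
  rw [hps, gNB_kk d k ph (N + 3) _ _ ha' (n + 1), mul_add]
  congr 1
  · rw [C2_G2A, add_sub_cancel_right]
    have : ee (((n + 1 : ℤ) : ℝ) * (2 * Real.pi / 3)) * ee (-((n + 1 : ℤ) : ℝ) * (2 * Real.pi / 3)) = 1 := by
      rw [← ee_add, ← ee_zero]
      congr 1
      ring
    linear_combination (G2A c.P p r s n / ((n + 1 : ℤ) : ℂ)) * this
  · rw [win_eq (show K' + 3 ≤ N + 3 by omega) (fun m hm => by rw [ha m hm, mul_zero]), Finset.mul_sum]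
    refine Finset.sum_congr rfl fun m _ => ?_
    by_cases h3 : (3 : ℤ) ∣ (n + 1) - m
    · obtain ⟨j, hj⟩ := h3
      rw [C1_G1A]
      have : ee (((n + 1 : ℤ) : ℝ) * (2 * Real.pi / 3)) * ee (-(m : ℝ) * (Real.pi / 3)) = ee ((m : ℝ) * (Real.pi / 3)) := by
        have e1 : ((n + 1 : ℤ) : ℝ) = 3 * (j : ℝ) + m := by
          have : (n + 1 : ℤ) = 3 * j + m := by omega
          rw [this]; push_cast; ring
        have e2 : ((n + 1 : ℤ) : ℝ) * (2 * Real.pi / 3) + -(m : ℝ) * (Real.pi / 3) =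
            (m : ℝ) * (Real.pi / 3) + (j : ℝ) * (2 * Real.pi) := by rw [e1]; ring
        rw [← ee_add, e2, ee_add, ee_per, mul_one]
      linear_combination (1 / 2 * kk d k ph m (n + 1) * G1A c.P p r s (m - 1)) * this
    · rw [kk_zero d k ph h3]
      ring

/-- **`gA` in the edge frame** -/
theorem gA_edge (hps : c.P.ps = ps d k ph) (hN : K' ≤ N) (h2 : Sup (K' + 2) (G2A c.P p r s)) (n : ℤ) :
    gA c N p r s n = G1A c.P p r s n / ((n + 1 : ℤ) : ℂ) +
      ∑ m ∈ Finset.Icc (-((K' + 3 : ℕ) : ℤ)) ((K' + 3 : ℕ) : ℤ),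
        1 / 2 * ((-1) ^ (m - (n + 1)).natAbs * (starRingEnd ℂ) (kk d k ph (n + 1) m)) *
          (ee (-((m : ℝ) * (Real.pi / 3))) * G2A c.P p r s (m - 1)) := by
  have hb : ∀ m, m ∉ Finset.Icc (-((K' + 3 : ℕ) : ℤ)) ((K' + 3 : ℕ) : ℤ) → C2 c.P p r s m = 0 := by
    intro m hm
    rw [C2_G2A, h2 (m - 1) (by rw [Finset.mem_Icc] at hm ⊢; push_cast at hm ⊢; omega), mul_zero]
  have hb' : ∀ m, m ∉ Finset.Icc (-((N + 3 : ℕ) : ℤ)) ((N + 3 : ℕ) : ℤ) → C2 c.P p r s m = 0 := fun m hm => hb m (by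
    rw [Finset.mem_Icc] at hm ⊢; push_cast at hm ⊢; omega)
  unfold gA
  rw [hps, gNA_kk d k ph (N + 3) _ _ hb' (n + 1), mul_add]
  congr 1
  · rw [C1_G1A, add_sub_cancel_right]
    have : ee (((n + 1 : ℤ) : ℝ) * (Real.pi / 3)) * ee (-((n + 1 : ℤ) : ℝ) * (Real.pi / 3)) = 1 := by
      rw [← ee_add, ← ee_zero]
      congr 1
      ring
    linear_combination (G1A c.P p r s n / ((n + 1 : ℤ) : ℂ)) * this
  · rw [win_eq (show K' + 3 ≤ N + 3 by omega) (fun m hm => by rw [hb m hm, mul_zero]), Finset.mul_sum]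
    refine Finset.sum_congr rfl fun m _ => ?_
    by_cases h3 : (3 : ℤ) ∣ m - (n + 1)
    · obtain ⟨j, hj⟩ := h3
      rw [C2_G2A]
      have hs : ((-1 : ℂ)) ^ (m - (n + 1)).natAbs = ee (-((j : ℝ) * Real.pi)) := by
        have e0 : ee (-((j : ℝ) * Real.pi)) = (-1 : ℂ) ^ j := by
          have : -((j : ℝ) * Real.pi) = ((-j : ℤ) : ℝ) * Real.pi := by push_cast; ring
          rw [this, ee_pi_int, zpow_neg, ← inv_zpow]
          norm_num
        rw [e0, hj]
        rcases Int.even_or_odd j with he | ho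
        · have h4 : Even ((3 * j).natAbs) := by
            rw [Int.natAbs_even]; exact he.mul_left 3
          rw [h4.neg_one_pow, he.neg_one_zpow]
        · have h4 : Odd ((3 * j).natAbs) := by
            rw [Int.natAbs_odd]; exact Odd.mul (by decide) ho
          rw [h4.neg_one_pow, ho.neg_one_zpow]
      rw [hs]
      have : ee (((n + 1 : ℤ) : ℝ) * (Real.pi / 3)) * ee (-(m : ℝ) * (2 * Real.pi / 3)) =
          ee (-((j : ℝ) * Real.pi)) * ee (-((m : ℝ) * (Real.pi / 3))) := by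
        have e1 : ((n + 1 : ℤ) : ℝ) = (m : ℝ) - 3 * (j : ℝ) := by
          have : (n + 1 : ℤ) = m - 3 * j := by omega
          rw [this]; push_cast; ring
        rw [← ee_add, ← ee_add]
        congr 1
        rw [e1]
        ring
      linear_combination (1 / 2 * (starRingEnd ℂ) (kk d k ph (n + 1) m) * G2A c.P p r s (m - 1)) * this
    · rw [kk_zero d k ph h3]
      simp

end

end Helper85.NS
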