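import Pool.Agent.Helper85.NS.Hm
import Pool.Agent.Helper85.NS.Edge

/-!
# Project RC, SHARP, cell engine: the packed rows of `G1A`, `G2A`, `gA`, `gB`

One packed polynomial per real coordinate: `rowG true`, `rowG false`, `rowN false TA`, `rowN true TB`. `TB`, `TA` are the tables of
the kernel of the shift form. No checks besides `okR3 s R` and `|e1| + |e2| ≤ D`.
-/

set_option autoImplicit false

namespace Helper85.NS

open Helper49.LT hiding sg
open Helper54.RC.Fast hiding ps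
open Helper96.SH Helper95.SH Helper95.RC
open Pool.Agent.Helper40.NR (Z4 ev4)
open Pool.Agent.Helper31.KcF (kk)
open Pool.Agent.Helper99.RC (ps)

/-! ### The exact values -/

/-- the kernels of `gB` and `gA` -/
noncomputable def kaB (d k ph : ℝ) (m n : ℤ) : ℂ := 1 / 2 * kk d k ph m (n + 1)
noncomputable def kaA (d k ph : ℝ) (m n : ℤ) : ℂ :=
  1 / 2 * ((-1) ^ (m - (n + 1)).natAbs * (starRingEnd ℂ) (kk d k ph (n + 1) m))

theorem exS_evL {S : ℕ} {r : ℤ → ℝ} (l : List (ℤ × Z4)) (hl : ∀ x ∈ l, 0 ≤ x.1 + S) (j : ℕ) :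
    exS S r l j = ((r ((j : ℤ) - S) : ℝ) : ℂ) * evL l ((j : ℤ) - S) := by
  induction l with
  | nil => simp [exS]
  | cons x l ih =>
    have ih' := ih fun y hy => hl y (by simp [hy])
    have h0 := hl x (by simp)
    have e1 : exS S r (x :: l) j = (if ix S x.1 = j then ((r x.1 : ℝ) : ℂ) * ev4 x.2 else 0) + exS S r l j := by
      unfold exS
      rw [List.map_cons, List.sum_cons]
    rw [e1, ih', evL_cons, mul_add]
    congr 1
    have hix : ix S x.1 = j ↔ x.1 = (j : ℤ) - S := by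
      show (x.1 + (S : ℤ)).toNat = j ↔ _
      omega
    by_cases h : x.1 = (j : ℤ) - S
    · rw [if_pos (hix.2 h), if_pos h, h]
    · rw [if_neg (fun h' => h (hix.1 h')), if_neg h, mul_zero]

theorem exC_evL {κ : ℤ → ℤ → ℂ} {r : ℝ} {W : ℕ} (l : List (ℤ × Z4))
    (hl : ∀ x ∈ l, x.1 ∈ Finset.Icc (-(W : ℤ)) W) (n : ℤ) :
    ∑ m ∈ Finset.Icc (-(W : ℤ)) W, κ m n * ((r : ℂ) * evL l m) = exC κ (fun _ => r) l n := by
  induction l with
  | nil => simp [exC]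
  | cons x l ih =>
    have ih' := ih fun y hy => hl y (by simp [hy])
    have e1 : exC κ (fun _ => r) (x :: l) n = κ x.1 n * ((r : ℂ) * ev4 x.2) + exC κ (fun _ => r) l n := by
      unfold exC
      rw [List.map_cons, List.sum_cons]
    rw [e1, ← ih']
    have h2 : ∀ m ∈ Finset.Icc (-(W : ℤ)) W, κ m n * ((r : ℂ) * evL (x :: l) m) =
        (if x.1 = m then κ x.1 n * ((r : ℂ) * ev4 x.2) else 0) + κ m n * ((r : ℂ) * evL l m) := by
      intro m _
      rw [evL_cons]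
      by_cases h : x.1 = m
      · rw [if_pos h, if_pos h, h]; ring
      · rw [if_neg h, if_neg h]; ring
    rw [Finset.sum_congr rfl h2, Finset.sum_add_distrib, Finset.sum_ite_eq, if_pos (hl x (by simp))]

/-! ### The computable rows -/

/-- the exact column of `G1A` (`true`), `G2A` (`false`), times `4 D` -/
def lG (f : Bool) (K L D : ℕ) (e1 e2 : ℤ) (i : ℕ) : List (ℤ × Z4) :=
  colK (fun τ _ => kG f τ) K L (Int.ofNat D) e1 e2 i
/-- the exact column with phases, times `8 D` -/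
def lH (f : Bool) (K L D : ℕ) (e1 e2 : ℤ) (i : ℕ) : List (ℤ × Z4) :=
  colK (kH f) K L (Int.ofNat D) e1 e2 i

/-- packed coordinate `i` of `G1A`, `G2A`, window `N` -/
def rowG (f : Bool) (b s R N K L D : ℕ) (e1 e2 : ℤ) (i : ℕ) : FP := rowJ b N N K L (hSpa f b s R N D e1 e2) i

/-- packed coordinate `i` of `gB` (`f = true`, table `TB`), `gA` (`f = false`, table `TA`), window `N` -/
def rowN (f : Bool) (b s R N W K L D : ℕ) (e1 e2 : ℤ) (T : ℕ → FP) (i : ℕ) : FP :=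
  rowJ b N W K L (hRow f b s R N W D e1 e2 T) i

/-! ### Rounded harmonics -/

section

variable {s R D : ℕ} {e1 e2 : ℤ}

theorem wH_cl (hR : okR3 s R = true) (hD : 0 < D) (he : e1.natAbs + e2.natAbs ≤ D) (f : Bool) (τ : Ty) (l : ℤ) :
    List.Forall₂ (Cl s fun _ => 1 / (8 * D)) (tL (WH0 f s R τ) (WH1 f s R D e1 e2 τ) (WH1 f s R D e1 (Int.neg e2) τ) l)
      (termsK (kH f) (Int.ofNat D) e1 e2 τ l (1, 0, 0, 0)) := by
  have hR' := okR3_sound hR
  have hD' : (D : ℂ) ≠ 0 := by exact_mod_cast hD.ne'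
  refine tL_cl (W0 := WH0 f s R) (W1 := WH1 f s R D e1 e2) (W2 := WH1 f s R D e1 (Int.neg e2)) (fun τ m => ?_) (fun τ m => ?_)
    (fun τ m => ?_) τ l
  · have h := WH0_ap hR' f τ m
    convert h using 1
    show (((1 / (8 * D) : ℝ)) : ℂ) * ((D : ℂ) * ev4 (kH f τ m)) = _
    push_cast
    field_simp
  · have h := WH1_ap hR' f hD he τ m
    convert h using 1
    push_cast
    rfl
  · have h := WH1_ap (e1 := e1) (e2 := -e2) hR' f hD (by rw [Int.natAbs_neg]; exact he) τ m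
    show Ap s (WH1 f s R D e1 (-e2) τ m) _
    convert h using 1
    push_cast
    ring

theorem wG_cl (hR : okR3 s R = true) (hD : 0 < D) (he : e1.natAbs + e2.natAbs ≤ D) (f : Bool) (τ : Ty) (l : ℤ) :
    List.Forall₂ (Cl s fun _ => 1 / (4 * D)) (tL (WG0 f s R τ) (WG1 f s R D e1 e2 τ) (WG1 f s R D e1 (Int.neg e2) τ) l)
      (termsK (fun τ _ => kG f τ) (Int.ofNat D) e1 e2 τ l (1, 0, 0, 0)) := by
  have hR' := okR3_sound hR
  have hD' : (D : ℂ) ≠ 0 := by exact_mod_cast hD.ne'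
  refine tL_cl (W0 := WG0 f s R) (W1 := WG1 f s R D e1 e2) (W2 := WG1 f s R D e1 (Int.neg e2)) (fun τ m => ?_) (fun τ m => ?_)
    (fun τ m => ?_) τ l
  · have h := WG0_ap hR' f τ m
    convert h using 1
    show (((1 / (4 * D) : ℝ)) : ℂ) * ((D : ℂ) * ev4 (kG f τ)) = _
    push_cast
    field_simp
  · have h := WG1_ap hR' f hD he τ m
    convert h using 1
    push_cast
    rfl
  · have h := WG1_ap (e1 := e1) (e2 := -e2) hR' f hD (by rw [Int.natAbs_neg]; exact he) τ m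
    show Ap s (WG1 f s R D e1 (-e2) τ m) _
    convert h using 1
    push_cast
    ring

theorem wD_cl (hR : okR3 s R = true) (hD : 0 < D) (he : e1.natAbs + e2.natAbs ≤ D) (f : Bool) (τ : Ty) (l : ℤ) :
    List.Forall₂ (Cl s fun m => 1 / (4 * D) / (m : ℝ))
      (tL (WD0 f s R τ) (WD1 f s R D e1 e2 τ) (WD1 f s R D e1 (Int.neg e2) τ) l)
      (termsK (fun τ _ => kG f τ) (Int.ofNat D) e1 e2 τ l (1, 0, 0, 0)) := by
  have hR' := okR3_sound hR
  have hD' : (D : ℂ) ≠ 0 := by exact_mod_cast hD.ne'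
  refine tL_cl (W0 := WD0 f s R) (W1 := WD1 f s R D e1 e2) (W2 := WD1 f s R D e1 (Int.neg e2)) (fun τ m => ?_) (fun τ m => ?_)
    (fun τ m => ?_) τ l
  · have h := WD0_ap hR' f τ m
    convert h using 1
    show (((1 / (4 * D) / (m : ℝ) : ℝ)) : ℂ) * ((D : ℂ) * ev4 (kG f τ)) = _
    push_cast
    rw [show (1 / (4 * (D : ℂ)) / (m : ℂ)) * ((D : ℂ) * ev4 (kG f τ)) = (1 / (4 * (D : ℂ)) * D) / (m : ℂ) * ev4 (kG f τ) from by ring]
    congr 2
    field_simp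
  · have h := WD1_ap hR' f hD he τ m
    convert h using 1
    push_cast
    rfl
  · have h := WD1_ap (e1 := e1) (e2 := -e2) hR' f hD (by rw [Int.natAbs_neg]; exact he) τ m
    show Ap s (WD1 f s R D e1 (-e2) τ m) _
    convert h using 1
    push_cast
    ring

/-- the three frequencies of a harmonic -/
theorem terms_mem {κ : Ty → ℤ → Z4} {D' : ℤ} {τ : Ty} {l a c : ℤ} {g : Z4} (h1 : a + 1 ≤ l) (h2 : l + 3 ≤ c) :
    ∀ x ∈ termsK κ D' e1 e2 τ l g, a ≤ x.1 ∧ x.1 ≤ c := by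
  intro x hx
  unfold termsK at hx
  simp only [List.mem_cons, List.not_mem_nil, or_false] at hx
  rcases hx with h | h | h <;> rw [h] <;> constructor <;> show _ ≤ _ <;> omega

theorem tL_mem {A0 A1 A2 : ℤ → ℤ × ℤ} {l a c : ℤ} (h1 : a + 1 ≤ l) (h2 : l + 3 ≤ c) :
    ∀ x ∈ tL A0 A1 A2 l, a ≤ x.1 ∧ x.1 ≤ c := by
  intro x hx
  unfold tL at hx
  simp only [List.mem_cons, List.not_mem_nil, or_false] at hx
  rcases hx with h | h | h <;> rw [h] <;> constructor <;> show _ ≤ _ <;> omega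

end

/-! ### The theorems -/

section

variable {c : CD} {b s R N W K L D e M K' : ℕ} {e1 e2 : ℤ} {d k ph : ℝ} {T : ℕ → FP}

/-- one harmonic of `G1A`, `G2A` -/
noncomputable def eG (f : Bool) (D : ℕ) (e1 e2 : ℤ) (τ : Ty) (l n : ℤ) : ℂ :=
  1 / (4 * D : ℂ) * evL (termsK (fun τ _ => kG f τ) (Int.ofNat D) e1 e2 τ l (1, 0, 0, 0)) (n + 1)
/-- one harmonic of `gB`, `gA` -/
noncomputable def eN (f : Bool) (κ : ℤ → ℤ → ℂ) (D : ℕ) (e1 e2 : ℤ) (τ : Ty) (l n : ℤ) : ℂ :=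
  exC κ (fun _ => 1 / (8 * D)) (termsK (kH f) (Int.ofNat D) e1 e2 τ l (1, 0, 0, 0)) n +
    1 / (4 * D : ℂ) / ((n + 1 : ℤ) : ℂ) * evL (termsK (fun τ _ => kG (not f) τ) (Int.ofNat D) e1 e2 τ l (1, 0, 0, 0)) (n + 1)

theorem fv_eG (f : Bool) (K L D : ℕ) (e1 e2 : ℤ) (i : ℕ) (n : ℤ) :
    fv (eG f D e1 e2) (fld K L i) n = 1 / (4 * D : ℂ) * evL (lG f K L D e1 e2 i) (n + 1) := by
  unfold lG colK fv eG
  rw [evL_fields]
  induction fld K L i with
  | nil => simp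
  | cons x l ih =>
    rw [List.map_cons, List.map_cons, List.sum_cons, List.sum_cons, ih]
    ring

theorem fv_eN (f : Bool) (κ : ℤ → ℤ → ℂ) (K L D : ℕ) (e1 e2 : ℤ) (i : ℕ) (n : ℤ) :
    fv (eN f κ D e1 e2) (fld K L i) n = exC κ (fun _ => 1 / (8 * D)) (lH f K L D e1 e2 i) n +
      1 / (4 * D : ℂ) / ((n + 1 : ℤ) : ℂ) * evL (lG (not f) K L D e1 e2 i) (n + 1) := by
  unfold lH lG colK fv eN
  rw [evL_fields, exC_fields]
  induction fld K L i with
  | nil => simp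
  | cons x l ih =>
    rw [List.map_cons, List.map_cons, List.map_cons, List.sum_cons, List.sum_cons, List.sum_cons, ih]
    ring

theorem hSpa_HC {f : Bool} (hN : K' + 2 ≤ N) (hD : 0 < D) (he : e1.natAbs + e2.natAbs ≤ D) (hb : 2 * s + 7 ≤ b)
    (hs : 2 ≤ s) (hR : okR3 s R = true) (τ : Ty) (p : ℕ) (h1 : -(K' : ℤ) ≤ (p : ℤ) - N) (h2 : (p : ℤ) - N ≤ K') :
    HC b s N (hSpa f b s R N D e1 e2 τ p) (eG f D e1 e2 τ ((p : ℤ) - N)) 9 (2 ^ (s + 6)) := by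
  have hR' := okR3_sound hR
  set l : ℤ := (p : ℤ) - N with hl
  have hS : ((Nat.sub N 1 : ℕ) : ℤ) = (N : ℤ) - 1 := by
    show ((N - 1 : ℕ) : ℤ) = _
    omega
  have hpos : l - 1 + ((Nat.sub N 1 : ℕ) : ℤ) = ((Nat.sub p 2 : ℕ) : ℤ) := by
    rw [hS]
    show _ = ((p - 2 : ℕ) : ℤ)
    omega
  obtain ⟨w, er⟩ := sp_err (b := b) (s := s) (N := N) (S := Nat.sub N 1) hb hs (wG_cl hR hD he f τ l)
    (by simp [tL]) fun x hx => by
      have h3 := tL_mem (a := -(N : ℤ) + 1) (c := N + 1) (by omega) (by omega) x hx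
      rw [hS]
      omega
  have nU : (Nat.pow 2 (Nat.add s 3)) = 2 ^ (s + 3) := rfl
  have b0 := (WG0_ap (s := s) hR' f τ (l + 1)).bd
  have b1 := (WG1_ap (s := s) (e1 := e1) (e2 := e2) hR' f hD he τ (l + 3)).bd
  have b2 : Bd (2 ^ (s + 3)) (WG1 f s R D e1 (Int.neg e2) τ (l - 1)) :=
    (WG1_ap (s := s) (e1 := e1) (e2 := -e2) hR' f hD (by rw [Int.natAbs_neg]; exact he) τ (l - 1)).bd
  obtain ⟨l1, l2⟩ := spX_tL (b := b) hpos (WG0 f s R τ) (WG1 f s R D e1 e2 τ) (WG1 f s R D e1 (Int.neg e2) τ) rfl rfl rfl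
  have ex : hSpa f b s R N D e1 e2 τ p = ⟨N, unS b N (spX b (Nat.sub N 1) (tL (WG0 f s R τ) (WG1 f s R D e1 e2 τ)
      (WG1 f s R D e1 (Int.neg e2) τ) l)), unS b N (spY b (Nat.sub N 1) (tL (WG0 f s R τ) (WG1 f s R D e1 e2 τ)
      (WG1 f s R D e1 (Int.neg e2) τ) l))⟩ := by
    rw [l1, l2]
    unfold hSpa
    rw [CG0_eq f s R _ τ (l + 1), CG1_eq f s R D e1 e2 _ τ (l + 3), CG1_eq f s R D e1 (Int.neg e2) _ τ (l - 1), nU]
    congr 1
    · rw [asp_eq _ _ (cd3_1 b2) (cd3_1 b0) (cd3_1 b1)]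
      show _ = Int.toNat (_ + ((of b (len N) : ℕ) : ℤ))
      rw [add_comm]
    · rw [asp_eq _ _ (cd3_2 b2) (cd3_2 b0) (cd3_2 b1)]
      show _ = Int.toNat (_ + ((of b (len N) : ℕ) : ℤ))
      rw [add_comm]
  rw [ex]
  refine ⟨rfl, w, fun j hj => ?_, fun j hj => (er j hj).2⟩
  have h3 := (er j hj).1
  rw [exS_evL _ (fun x hx => by
    have h4 := terms_mem (a := -(N : ℤ) + 1) (c := N + 1) (by omega) (by omega) x hx
    rw [hS]
    omega) j] at h3
  have e1' : ((j : ℤ) - (Nat.sub N 1 : ℕ)) = (j : ℤ) - N + 1 := by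
    rw [hS]; ring
  rw [e1'] at h3
  unfold eG
  push_cast at h3 ⊢
  exact h3

theorem hRow_HC {f : Bool} {κ : ℤ → ℤ → ℂ} (hW : K' + 3 ≤ W) (hN : K' + 2 ≤ N) (hD : 0 < D)
    (he : e1.natAbs + e2.natAbs ≤ D) (hT : TabH b s N W e T κ) (hR : okR3 s R = true) (τ : Ty) (p : ℕ)
    (h1 : -(K' : ℤ) ≤ (p : ℤ) - W) (h2 : (p : ℤ) - W ≤ K') :
    HC b s N (hRow f b s R N W D e1 e2 T τ p) (eN f κ D e1 e2 τ ((p : ℤ) - W)) (12 * e + 31) (2 ^ (s + 6)) := by
  have hR' := okR3_sound hR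
  have hS : ((Nat.sub N 1 : ℕ) : ℤ) = (N : ℤ) - 1 := by
    show ((N - 1 : ℕ) : ℤ) = _
    omega
  obtain ⟨w, er⟩ := row_err (S := Nat.sub N 1) hT (wH_cl hR hD he f τ ((p : ℤ) - W)) (wD_cl hR hD he (not f) τ ((p : ℤ) - W))
    (by simp [tL]) (by simp [tL]) (fun x hx => by
      have h3 := tL_mem (a := -(W : ℤ)) (c := W) (by omega) (by omega) x hx
      omega) fun x hx => by
      have h3 := tL_mem (a := -(N : ℤ) + 1) (c := N + 1) (by omega) (by omega) x hx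
      rw [hS]
      omega
  have a0 := (WH0_ap (s := s) hR' f τ ((p : ℤ) - W + 1)).bd
  have a1 := (WH1_ap (s := s) (e1 := e1) (e2 := e2) hR' f hD he τ ((p : ℤ) - W + 3)).bd
  have a2 : Bd (2 ^ (s + 3)) (WH1 f s R D e1 (Int.neg e2) τ ((p : ℤ) - W - 1)) :=
    (WH1_ap (s := s) (e1 := e1) (e2 := -e2) hR' f hD (by rw [Int.natAbs_neg]; exact he) τ ((p : ℤ) - W - 1)).bd
  have b0 := (WD0_ap (s := s) hR' (not f) τ ((p : ℤ) - W + 1)).bd
  have b1 := (WD1_ap (s := s) (e1 := e1) (e2 := e2) hR' (not f) hD he τ ((p : ℤ) - W + 3)).bd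
  have b2 : Bd (2 ^ (s + 3)) (WD1 (not f) s R D e1 (Int.neg e2) τ ((p : ℤ) - W - 1)) :=
    (WD1_ap (s := s) (e1 := e1) (e2 := -e2) hR' (not f) hD (by rw [Int.natAbs_neg]; exact he) τ ((p : ℤ) - W - 1)).bd
  have q0 : (((Nat.add p 1 : ℕ) : ℤ) - W) = (p : ℤ) - W + 1 := by
    show (((p + 1 : ℕ) : ℤ) - W) = _
    omega
  have q1 : (((Nat.add p 3 : ℕ) : ℤ) - W) = (p : ℤ) - W + 3 := by
    show (((p + 3 : ℕ) : ℤ) - W) = _
    omega
  have q2 : (((Nat.sub p 1 : ℕ) : ℤ) - W) = (p : ℤ) - W - 1 := by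
    show (((p - 1 : ℕ) : ℤ) - W) = _
    omega
  have ex : hRow f b s R N W D e1 e2 T τ p = ⟨N,
      gx b s N (accX b N W T (tL (WH0 f s R τ) (WH1 f s R D e1 e2 τ) (WH1 f s R D e1 (Int.neg e2) τ) ((p : ℤ) - W)))
        (spX b (Nat.sub N 1) (tL (WD0 (not f) s R τ) (WD1 (not f) s R D e1 e2 τ) (WD1 (not f) s R D e1 (Int.neg e2) τ)
          ((p : ℤ) - W))),
      gx b s N (accY b N W T (tL (WH0 f s R τ) (WH1 f s R D e1 e2 τ) (WH1 f s R D e1 (Int.neg e2) τ) ((p : ℤ) - W)))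
        (spY b (Nat.sub N 1) (tL (WD0 (not f) s R τ) (WD1 (not f) s R D e1 e2 τ) (WD1 (not f) s R D e1 (Int.neg e2) τ)
          ((p : ℤ) - W)))⟩ := by
    refine Eq.trans ?_ (mk3_eq (b := b) (s := s) (N := N) (W := W) (T := T) (p := p) (U := 2 ^ (s + 3))
      (by omega) (by omega) (by omega) _ _ _ _ _ _ a0 a1 a2 b0 b1 b2)
    unfold hRow
    rw [nrm_eq, nrm_eq, nrm_eq, CH0_eq, CH1_eq, CH1_eq, CD0_eq, CD1_eq, CD1_eq, q0, q1, q2]
    rfl
  rw [ex]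
  refine ⟨rfl, w, fun j hj => ?_, fun j hj => (er j hj).2⟩
  have h4 := (er j hj).1
  rw [exS_evL _ (fun x hx => by
    have h5 := terms_mem (a := -(N : ℤ) + 1) (c := N + 1) (by omega) (by omega) x hx
    rw [hS]
    omega) j] at h4
  have e1' : ((j : ℤ) - (Nat.sub N 1 : ℕ)) = (j : ℤ) - N + 1 := by
    rw [hS]; ring
  rw [e1'] at h4
  unfold eN
  push_cast at h4 ⊢
  exact h4

/-- the common part of `G1A` and `G2A` -/
theorem rowG_CR {f : Bool} {X : (ℕ → ℝ) → ℤ → ℂ} (hL : Even L) (hK' : K ≤ K') (hL' : L ≤ K') (hN : K' + 2 ≤ N)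
    (hD : 0 < D) (he : e1.natAbs + e2.natAbs ≤ D) (hb : 2 * s + 7 ≤ b) (hs : 2 ≤ s) (hR : okR3 s R = true)
    (h2 : ∀ v : ℕ → ℝ, v 0 = 1 → ∀ m, (4 * D : ℂ) * X v (m - 1) =
      ∑ i ∈ Finset.range (nt K L), (v i : ℂ) * evL (lG f K L D e1 e2 i) m) :
    CR b s (nt K L) N X (rowG f b s R N K L D e1 e2) 18 ∧
      DB b (nt K L) N (2 ^ (s + 7)) (rowG f b s R N K L D e1 e2) := by
  have hD' : (D : ℂ) ≠ 0 := by exact_mod_cast hD.ne'
  have h27 : (2 : ℤ) * 2 ^ (s + 6) = 2 ^ (s + 7) := by rw [pow_succ 2 (s + 6)]; ring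
  have key : ∀ i < nt K L, HC b s N (rowG f b s R N K L D e1 e2 i) (fv (eG f D e1 e2) (fld K L i)) 18 (2 ^ (s + 7)) := by
    intro i hi
    rw [← h27]
    exact rowJ_HC (W := N) (e := 9) (B := 2 ^ (s + 6)) hK' hL hL' (by omega) (by positivity)
      (by rw [h27]; exact pow_lt_pow_right₀ (by norm_num) (by omega))
      (fun τ p => hSpa_HC hN hD he hb hs hR τ p) hi
  refine ⟨⟨fun i n => 1 / (4 * D : ℂ) * evL (lG f K L D e1 e2 i) (n + 1), fun v hv m _ => ?_, fun i hi => ?_⟩, ?_⟩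
  · have h := h2 v hv (m + 1)
    rw [add_sub_cancel_right] at h
    have h3 : X v m = 1 / (4 * D : ℂ) * ((4 * D : ℂ) * X v m) := by field_simp
    rw [h3, h, Finset.mul_sum]
    refine Finset.sum_congr rfl fun i _ => ?_
    ring
  · have h := (key i hi).congr fun n => (fv_eG f K L D e1 e2 i n).symm
    exact ⟨h.n, h.lt, h.er⟩
  · intro i hi j hj
    exact (key i hi).bd j hj

/-- **`G1A`** -/
theorem G1_CR (hK : ¬ Even K) (hL : Even L) (hK' : K ≤ K') (hL' : L ≤ K') (hN : K' + 2 ≤ N)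
    (hD : 0 < D) (he : e1.natAbs + e2.natAbs ≤ D) (hη : c.P.eta = ((e1 : ℂ) + e2 * Complex.I) / D)
    (hb : 2 * s + 7 ≤ b) (hs : 2 ≤ s) (hR : okR3 s R = true) :
    CR b s (nt K L) N (fun v n => G1A c.P (pV K L v) (rV K L v) (sV K v) n) (rowG true b s R N K L D e1 e2) 18 ∧
      DB b (nt K L) N (2 ^ (s + 7)) (rowG true b s R N K L D e1 e2) := by
  have hDi : (Int.ofNat D) ≠ 0 := by
    have : (Int.ofNat D) = (D : ℤ) := rfl
    rw [this]; omega
  exact rowG_CR (f := true) hL hK' hL' hN hD he hb hs hR fun v hv m =>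
    col_G1 (K := K) (L := L) (P := c.P) (D := Int.ofNat D) (e1 := e1) (e2 := e2) hK hL hDi (by rw [hη]; rfl) m v hv

/-- **`G2A`** -/
theorem G2_CR (hK : ¬ Even K) (hL : Even L) (hK' : K ≤ K') (hL' : L ≤ K') (hN : K' + 2 ≤ N)
    (hD : 0 < D) (he : e1.natAbs + e2.natAbs ≤ D) (hη : c.P.eta = ((e1 : ℂ) + e2 * Complex.I) / D)
    (hb : 2 * s + 7 ≤ b) (hs : 2 ≤ s) (hR : okR3 s R = true) :
    CR b s (nt K L) N (fun v n => G2A c.P (pV K L v) (rV K L v) (sV K v) n) (rowG false b s R N K L D e1 e2) 18 ∧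
      DB b (nt K L) N (2 ^ (s + 7)) (rowG false b s R N K L D e1 e2) := by
  have hDi : (Int.ofNat D) ≠ 0 := by
    have : (Int.ofNat D) = (D : ℤ) := rfl
    rw [this]; omega
  exact rowG_CR (f := false) hL hK' hL' hN hD he hb hs hR fun v hv m =>
    col_G2 (K := K) (L := L) (P := c.P) (D := Int.ofNat D) (e1 := e1) (e2 := e2) hK hL hDi (by rw [hη]; rfl) m v hv

/-- the common part of `gA` and `gB` -/
theorem rowN_CR {f : Bool} {κ : ℤ → ℤ → ℂ} {X Gt Gs : (ℕ → ℝ) → ℤ → ℂ} (hL : Even L) (hK' : K ≤ K') (hL' : L ≤ K')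
    (hW : K' + 3 ≤ W) (hN : K' + 2 ≤ N) (hD : 0 < D) (he : e1.natAbs + e2.natAbs ≤ D)
    (hT : TabH b s N W e T κ) (hR : okR3 s R = true)
    (hX : ∀ v : ℕ → ℝ, v 0 = 1 → ∀ n, X v n = Gs v n / ((n + 1 : ℤ) : ℂ) +
      ∑ m ∈ Finset.Icc (-(W : ℤ)) W, κ m n * Gt v m)
    (h1 : ∀ v : ℕ → ℝ, v 0 = 1 → ∀ m, (8 * D : ℂ) * Gt v m =
      ∑ i ∈ Finset.range (nt K L), (v i : ℂ) * evL (lH f K L D e1 e2 i) m)
    (h2 : ∀ v : ℕ → ℝ, v 0 = 1 → ∀ m, (4 * D : ℂ) * Gs v (m - 1) =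
      ∑ i ∈ Finset.range (nt K L), (v i : ℂ) * evL (lG (not f) K L D e1 e2 i) m) :
    CR b s (nt K L) N X (rowN f b s R N W K L D e1 e2 T) (24 * e + 62) ∧
      DB b (nt K L) N (2 ^ (s + 7)) (rowN f b s R N W K L D e1 e2 T) := by
  have hD' : (D : ℂ) ≠ 0 := by exact_mod_cast hD.ne'
  have h27 : (2 : ℤ) * 2 ^ (s + 6) = 2 ^ (s + 7) := by rw [pow_succ 2 (s + 6)]; ring
  have h24 : 2 * (12 * e + 31) = 24 * e + 62 := by ring
  have key : ∀ i < nt K L, HC b s N (rowN f b s R N W K L D e1 e2 T i) (fv (eN f κ D e1 e2) (fld K L i)) (24 * e + 62)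
      (2 ^ (s + 7)) := by
    intro i hi
    rw [← h27, ← h24]
    exact rowJ_HC (W := W) (e := 12 * e + 31) (B := 2 ^ (s + 6)) hK' hL hL' (by omega) (by positivity)
      (by rw [h27]; exact pow_lt_pow_right₀ (by norm_num) (by have := hT.hb; have := hT.hs; omega))
      (fun τ p => hRow_HC hW hN hD he hT hR τ p) hi
  refine ⟨⟨fun i n => (exC κ (fun _ => 1 / (8 * D)) (lH f K L D e1 e2 i) n) +
    1 / (4 * D : ℂ) / ((n + 1 : ℤ) : ℂ) * evL (lG (not f) K L D e1 e2 i) (n + 1), fun v hv n _ => ?_, fun i hi => ?_⟩, ?_⟩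
  · rw [hX v hv n]
    have g1 : Gs v n = 1 / (4 * D : ℂ) * ((4 * D : ℂ) * Gs v ((n + 1) - 1)) := by
      rw [add_sub_cancel_right]; field_simp
    have g2 : ∀ m, Gt v m = 1 / (8 * D : ℂ) * ((8 * D : ℂ) * Gt v m) := fun m => by field_simp
    have g3 : ∑ m ∈ Finset.Icc (-(W : ℤ)) W, κ m n * Gt v m =
        ∑ i ∈ Finset.range (nt K L), (v i : ℂ) * exC κ (fun _ => 1 / (8 * D)) (lH f K L D e1 e2 i) n := by
      have g4 : ∀ m ∈ Finset.Icc (-(W : ℤ)) W, κ m n * Gt v m = ∑ i ∈ Finset.range (nt K L),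
          (v i : ℂ) * (κ m n * (((1 / (8 * D) : ℝ) : ℂ) * evL (lH f K L D e1 e2 i) m)) := by
        intro m _
        rw [g2 m, h1 v hv m, Finset.mul_sum, Finset.mul_sum]
        refine Finset.sum_congr rfl fun i _ => ?_
        push_cast
        ring
      rw [Finset.sum_congr rfl g4, Finset.sum_comm]
      refine Finset.sum_congr rfl fun i hi => ?_
      rw [← Finset.mul_sum]
      rw [exC_evL _ fun x hx => by
        unfold lH colK at hx
        rw [fldW_eq] at hx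
        obtain ⟨y, hy1, hy2⟩ := List.mem_flatMap.1 hx
        obtain ⟨z, hz1, hz2⟩ := List.mem_map.1 hy1
        have h3 := fldW_mem hK' hL' hL (Finset.mem_range.1 hi) z hz1
        rw [← hz2] at hy2
        have h4 := terms_mem (a := -(W : ℤ)) (c := W) (l := z.2.1) (by omega) (by omega) x hy2
        rw [Finset.mem_Icc]
        exact h4]
    rw [g3, g1, h2 v hv (n + 1), Finset.mul_sum, Finset.sum_div, ← Finset.sum_add_distrib]
    refine Finset.sum_congr rfl fun i _ => ?_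
    ring
  · have h := (key i hi).congr fun n => (fv_eN f κ K L D e1 e2 i n).symm
    exact ⟨h.n, h.lt, h.er⟩
  · intro i hi j hj
    exact (key i hi).bd j hj

theorem G1A_V (P : Helper49.Sharp.Par) (hK' : K ≤ K') (hL' : L ≤ K') (v : ℕ → ℝ) :
    Sup (K' + 2) (G1A P (pV K L v) (rV K L v) (sV K v)) :=
  G1A_sup P K' (Sup.mono hL' (hV_sup _ _ _)) (Sup.mono hL' (hV_sup _ _ _)) (Sup.mono hK' (sV_sup _ _))

theorem G2A_V (P : Helper49.Sharp.Par) (hK' : K ≤ K') (hL' : L ≤ K') (v : ℕ → ℝ) :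
    Sup (K' + 2) (G2A P (pV K L v) (rV K L v) (sV K v)) :=
  G2A_sup P K' (Sup.mono hL' (hV_sup _ _ _)) (Sup.mono hL' (hV_sup _ _ _)) (Sup.mono hK' (sV_sup _ _))

/-- **`gB`** -/
theorem gB_CR (hK : ¬ Even K) (hL : Even L) (hK' : K ≤ K') (hL' : L ≤ K') (hM : K' ≤ M) (hW : W = K' + 3) (hN : K' + 2 ≤ N)
    (hD : 0 < D) (he : e1.natAbs + e2.natAbs ≤ D) (hη : c.P.eta = ((e1 : ℂ) + e2 * Complex.I) / D)
    (hps : c.P.ps = ps d k ph) (hT : TabH b s N W e T (kaB d k ph)) (hR : okR3 s R = true) :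
    CR b s (nt K L) N (fun v n => gB c M (pV K L v) (rV K L v) (sV K v) n)
      (rowN true b s R N W K L D e1 e2 T) (24 * e + 62) ∧
      DB b (nt K L) N (2 ^ (s + 7)) (rowN true b s R N W K L D e1 e2 T) := by
  have hDi : (Int.ofNat D) ≠ 0 := by
    have : (Int.ofNat D) = (D : ℤ) := rfl
    rw [this]; omega
  subst hW
  refine rowN_CR (f := true) (κ := kaB d k ph)
    (Gt := fun v m => ee ((m : ℝ) * (Real.pi / 3)) * G1A c.P (pV K L v) (rV K L v) (sV K v) (m - 1))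
    (Gs := fun v m => G2A c.P (pV K L v) (rV K L v) (sV K v) m) hL hK' hL' le_rfl hN hD he hT hR ?_ ?_ ?_
  · intro v _ n
    exact gB_edge hps hM (G1A_V c.P hK' hL' v) n
  · intro v hv m
    exact col_H1 (K := K) (L := L) (P := c.P) (D := Int.ofNat D) (e1 := e1) (e2 := e2) hK hL hDi
      (by rw [hη]; rfl) m v hv
  · intro v hv m
    exact col_G2 (K := K) (L := L) (P := c.P) (D := Int.ofNat D) (e1 := e1) (e2 := e2) hK hL hDi
      (by rw [hη]; rfl) m v hv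

/-- **`gA`** -/
theorem gA_CR (hK : ¬ Even K) (hL : Even L) (hK' : K ≤ K') (hL' : L ≤ K') (hM : K' ≤ M) (hW : W = K' + 3) (hN : K' + 2 ≤ N)
    (hD : 0 < D) (he : e1.natAbs + e2.natAbs ≤ D) (hη : c.P.eta = ((e1 : ℂ) + e2 * Complex.I) / D)
    (hps : c.P.ps = ps d k ph) (hT : TabH b s N W e T (kaA d k ph)) (hR : okR3 s R = true) :
    CR b s (nt K L) N (fun v n => gA c M (pV K L v) (rV K L v) (sV K v) n)
      (rowN false b s R N W K L D e1 e2 T) (24 * e + 62) ∧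
      DB b (nt K L) N (2 ^ (s + 7)) (rowN false b s R N W K L D e1 e2 T) := by
  have hDi : (Int.ofNat D) ≠ 0 := by
    have : (Int.ofNat D) = (D : ℤ) := rfl
    rw [this]; omega
  subst hW
  refine rowN_CR (f := false) (κ := kaA d k ph)
    (Gt := fun v m => ee (-((m : ℝ) * (Real.pi / 3))) * G2A c.P (pV K L v) (rV K L v) (sV K v) (m - 1))
    (Gs := fun v m => G1A c.P (pV K L v) (rV K L v) (sV K v) m) hL hK' hL' le_rfl hN hD he hT hR ?_ ?_ ?_
  · intro v _ n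
    exact gA_edge hps hM (G2A_V c.P hK' hL' v) n
  · intro v hv m
    exact col_H2 (K := K) (L := L) (P := c.P) (D := Int.ofNat D) (e1 := e1) (e2 := e2) hK hL hDi
      (by rw [hη]; rfl) m v hv
  · intro v hv m
    exact col_G1 (K := K) (L := L) (P := c.P) (D := Int.ofNat D) (e1 := e1) (e2 := e2) hK hL hDi
      (by rw [hη]; rfl) m v hv

end

end Helper85.NS
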