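import Pool.Agent.Helper85.NS.Pk

/-!
# Project RC, SHARP, cell engine: packed rows of complex arrays, errors

`TabH`: a table of packed rows with digit errors; `Cl`: rounded coefficients of an exact list; `row_err`: a combination of
rows; `sp_err`: a sparse row; `CR`: the packed coordinates of a complex array; `CR.re`, `CR.im`: helper95's rows `LR`.
-/

set_option autoImplicit false

namespace Helper85.NS

open Helper54.RC.Fast Helper96.SH Helper95.SH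
open Pool.Agent.Helper40.NR (Z4 ev4)

/-! ### Tables -/

/-- a table of packed rows -/
structure TabH (b s N W e : ℕ) (T : ℕ → FP) (κ : ℤ → ℤ → ℂ) : Prop where
  lt : ∀ k, k ≤ 2 * W → (T k).x < (2 ^ (b + 1)) ^ (len N) ∧ (T k).y < (2 ^ (b + 1)) ^ (len N)
  er : ∀ k, k ≤ 2 * W → ∀ j, j < len N → ‖((dz b j (T k).x : ℂ) + Complex.I * (dz b j (T k).y : ℂ)) -
    2 ^ s * κ ((k : ℤ) - W) ((j : ℤ) - N)‖ ≤ e
  bd : ∀ m n, ‖κ m n‖ ≤ 2
  he : 3 * e ≤ 2 ^ s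
  hs : 2 ≤ s
  hb : 2 * s + 7 ≤ b

/-- a rounded coefficient -/
structure Cl (s : ℕ) (r : ℤ → ℝ) (w : ℤ × ℤ × ℤ) (c : ℤ × Z4) : Prop where
  fr : w.1 = c.1
  er : ‖((w.2.1 : ℂ) + Complex.I * (w.2.2 : ℂ)) - 2 ^ s * (((r c.1 : ℝ) : ℂ) * ev4 c.2)‖ ≤ 9 / 4
  bd : ‖((r c.1 : ℝ) : ℂ) * ev4 c.2‖ ≤ 4

/-- the exact combination -/
noncomputable def exC (κ : ℤ → ℤ → ℂ) (r : ℤ → ℝ) (l : List (ℤ × Z4)) (n : ℤ) : ℂ :=
  (l.map fun e => κ e.1 n * (((r e.1 : ℝ) : ℂ) * ev4 e.2)).sum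

/-- the exact sparse part at the position `j` -/
noncomputable def exS (S : ℕ) (r : ℤ → ℝ) (l : List (ℤ × Z4)) (j : ℕ) : ℂ :=
  (l.map fun e => if ix S e.1 = j then ((r e.1 : ℝ) : ℂ) * ev4 e.2 else 0).sum

theorem re_int (a c : ℤ) : ((a : ℂ) + Complex.I * (c : ℂ)).re = a ∧ ((a : ℂ) + Complex.I * (c : ℂ)).im = c := by
  constructor <;> simp

section

variable {b s N W e : ℕ} {T : ℕ → FP} {κ : ℤ → ℤ → ℂ} {r r' : ℤ → ℝ}

theorem dC_err (hT : TabH b s N W e T κ) {w : List (ℤ × ℤ × ℤ)} {l : List (ℤ × Z4)} (F : List.Forall₂ (Cl s r) w l)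
    (hl : ∀ x ∈ w, 0 ≤ x.1 + W ∧ x.1 + W ≤ 2 * W) {j : ℕ} (hj : j < len N) :
    ‖dC b W T w j - 2 ^ s * (2 ^ s * exC κ r l ((j : ℤ) - N))‖ ≤ w.length * (9 / 4 * (2 * 2 ^ s + e) + 2 ^ s * (4 * e)) ∧
      ‖dC b W T w j‖ ≤ w.length * (15 * 2 ^ s * 2 ^ s) := by
  have hs0 : (0 : ℝ) < 2 ^ s := by positivity
  have he : (3 * e : ℝ) ≤ 2 ^ s := by exact_mod_cast hT.he
  have h4 : (4 : ℝ) ≤ 2 ^ s := by
    have : 2 ^ 2 ≤ 2 ^ s := Nat.pow_le_pow_right (by norm_num) hT.hs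
    have : ((2 ^ 2 : ℕ) : ℝ) ≤ ((2 ^ s : ℕ) : ℝ) := by exact_mod_cast this
    push_cast at this
    linarith
  have he0 : (0 : ℝ) ≤ e := Nat.cast_nonneg _
  induction F with
  | nil => simp [dC, exC]
  | @cons x y w l h F ih =>
    obtain ⟨i1, i2⟩ := ih fun z hz => hl z (by simp [hz])
    obtain ⟨x1, x2⟩ := hl x (by simp)
    obtain ⟨c0, c1, c2⟩ := h
    have hk : ix W x.1 ≤ 2 * W := by
      show (x.1 + (W : ℤ)).toNat ≤ 2 * W
      omega
    have hk2 : ((ix W x.1 : ℕ) : ℤ) - W = x.1 := by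
      show (((x.1 + (W : ℤ)).toNat : ℕ) : ℤ) - W = x.1
      omega
    have t1 := hT.er _ hk j hj
    rw [hk2, c0] at t1
    have t2 := hT.bd y.1 ((j : ℤ) - N)
    rw [← c0] at t1
    rw [c0] at t1
    set τ : ℂ := (dz b j (T (ix W y.1)).x : ℂ) + Complex.I * (dz b j (T (ix W y.1)).y : ℂ) with hτ
    set u : ℂ := (x.2.1 : ℂ) + Complex.I * (x.2.2 : ℂ) with hu
    set c : ℂ := ((r y.1 : ℝ) : ℂ) * ev4 y.2 with hc
    set k0 := κ y.1 ((j : ℤ) - N) with hk0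
    have hn2 : ‖(2 : ℂ) ^ s‖ = 2 ^ s := by rw [norm_pow, Complex.norm_ofNat]
    have t3 : ‖τ‖ ≤ 2 * 2 ^ s + e := by
      have : τ = (τ - 2 ^ s * k0) + 2 ^ s * k0 := by ring
      rw [this]
      refine (norm_add_le _ _).trans ?_
      rw [norm_mul, hn2]
      nlinarith
    have t4 : ‖u‖ ≤ 4 * 2 ^ s + 3 := by
      have : u = (u - 2 ^ s * c) + 2 ^ s * c := by ring
      rw [this]
      refine (norm_add_le _ _).trans ?_
      rw [norm_mul, hn2]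
      nlinarith
    have e1 : dC b W T (x :: w) j = u * τ + dC b W T w j := by
      unfold dC
      rw [List.map_cons, List.sum_cons, c0]
    have e2 : exC κ r (y :: l) ((j : ℤ) - N) = k0 * c + exC κ r l ((j : ℤ) - N) := by
      unfold exC
      rw [List.map_cons, List.sum_cons]
    rw [e1, e2, List.length_cons]
    have n0 : (0 : ℝ) ≤ ‖τ‖ := norm_nonneg _
    constructor
    · have e3 : u * τ + dC b W T w j - 2 ^ s * (2 ^ s * (k0 * c + exC κ r l ((j : ℤ) - N))) =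
          ((u - 2 ^ s * c) * τ + 2 ^ s * c * (τ - 2 ^ s * k0)) +
            (dC b W T w j - 2 ^ s * (2 ^ s * exC κ r l ((j : ℤ) - N))) := by ring
      rw [e3]
      refine (norm_add_le _ _).trans ?_
      have a1 : ‖(u - 2 ^ s * c) * τ + 2 ^ s * c * (τ - 2 ^ s * k0)‖ ≤ 9 / 4 * (2 * 2 ^ s + e) + 2 ^ s * (4 * e) := by
        refine (norm_add_le _ _).trans (add_le_add ?_ ?_)
        · rw [norm_mul]
          exact mul_le_mul c1 t3 n0 (by norm_num)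
        · rw [norm_mul, norm_mul, hn2, mul_assoc]
          exact mul_le_mul_of_nonneg_left (mul_le_mul c2 t1 (norm_nonneg _) (by norm_num)) hs0.le
      push_cast
      nlinarith
    · refine (norm_add_le _ _).trans ?_
      have a1 : ‖u * τ‖ ≤ 15 * 2 ^ s * 2 ^ s := by
        rw [norm_mul]
        calc ‖u‖ * ‖τ‖ ≤ (4 * 2 ^ s + 3) * (2 * 2 ^ s + e) := mul_le_mul t4 t3 n0 (by positivity)
          _ ≤ (5 * 2 ^ s) * (3 * 2 ^ s) := by
              refine mul_le_mul (by linarith) (by linarith) (by positivity) (by positivity)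
          _ = _ := by ring
      push_cast
      nlinarith

theorem eC_err {S : ℕ} {w : List (ℤ × ℤ × ℤ)} {l : List (ℤ × Z4)} (F : List.Forall₂ (Cl s r) w l) (j : ℕ) :
    ‖((eX S w j : ℂ) + Complex.I * (eY S w j : ℂ)) - 2 ^ s * exS S r l j‖ ≤ w.length * 3 ∧
      ‖(eX S w j : ℂ) + Complex.I * (eY S w j : ℂ)‖ ≤ w.length * (4 * 2 ^ s + 3) := by
  have hs0 : (0 : ℝ) < 2 ^ s := by positivity
  induction F with
  | nil => simp [eX, eY, exS]
  | @cons x y w l h F ih =>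
    obtain ⟨i1, i2⟩ := ih
    obtain ⟨c0, c1, c2⟩ := h
    have hn2 : ‖(2 : ℂ) ^ s‖ = 2 ^ s := by rw [norm_pow, Complex.norm_ofNat]
    set u : ℂ := (x.2.1 : ℂ) + Complex.I * (x.2.2 : ℂ) with hu
    set c : ℂ := ((r y.1 : ℝ) : ℂ) * ev4 y.2 with hc
    have e1 : ((eX S (x :: w) j : ℂ) + Complex.I * (eY S (x :: w) j : ℂ)) =
        (if ix S y.1 = j then u else 0) + ((eX S w j : ℂ) + Complex.I * (eY S w j : ℂ)) := by
      unfold eX eY
      rw [List.map_cons, List.sum_cons, List.map_cons, List.sum_cons, c0]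
      split_ifs
      · rw [hu]; push_cast
        ring
      · push_cast
        ring
    have e2 : exS S r (y :: l) j = (if ix S y.1 = j then c else 0) + exS S r l j := by
      unfold exS
      rw [List.map_cons, List.sum_cons]
    rw [e1, e2, List.length_cons]
    push_cast
    have t4 : ‖u‖ ≤ 4 * 2 ^ s + 3 := by
      have : u = (u - 2 ^ s * c) + 2 ^ s * c := by ring
      rw [this]
      refine (norm_add_le _ _).trans ?_
      rw [norm_mul, hn2]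
      nlinarith
    by_cases h : ix S y.1 = j
    · rw [if_pos h, if_pos h]
      constructor
      · set X := (eX S w j : ℂ) + Complex.I * (eY S w j : ℂ)
        have e3 : u + X - 2 ^ s * (c + exS S r l j) = (u - 2 ^ s * c) + (X - 2 ^ s * exS S r l j) := by ring
        rw [e3]
        refine (norm_add_le _ _).trans ?_
        linarith
      · refine (norm_add_le _ _).trans ?_
        linarith
    · rw [if_neg h, if_neg h, zero_add, zero_add]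
      constructor
      · linarith
      · nlinarith

/-- **a row: combination of table rows, floor, sparse part** -/
theorem row_err (hT : TabH b s N W e T κ) {S : ℕ} {w w' : List (ℤ × ℤ × ℤ)} {l l' : List (ℤ × Z4)}
    (F : List.Forall₂ (Cl s r) w l) (F' : List.Forall₂ (Cl s r') w' l') (n1 : w.length ≤ 3) (n2 : w'.length ≤ 3)
    (o1 : ∀ x ∈ w, 0 ≤ x.1 + W ∧ x.1 + W ≤ 2 * W) (o2 : ∀ x ∈ w', 0 ≤ x.1 + S ∧ x.1 + S ≤ 2 * N) :
    (gx b s N (accX b N W T w) (spX b S w') < (2 ^ (b + 1)) ^ (len N) ∧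
      gx b s N (accY b N W T w) (spY b S w') < (2 ^ (b + 1)) ^ (len N)) ∧
    ∀ j < len N, ‖((dz b j (gx b s N (accX b N W T w) (spX b S w')) : ℂ) +
        Complex.I * (dz b j (gx b s N (accY b N W T w) (spY b S w')) : ℂ)) -
        2 ^ s * (exC κ r l ((j : ℤ) - N) + exS S r' l' j)‖ ≤ 12 * e + 31 ∧
      |dz b j (gx b s N (accX b N W T w) (spX b S w'))| ≤ 2 ^ (s + 6) ∧
      |dz b j (gx b s N (accY b N W T w) (spY b S w'))| ≤ 2 ^ (s + 6) := by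
  have hs0 : (0 : ℝ) < 2 ^ s := by positivity
  have he : (3 * e : ℝ) ≤ 2 ^ s := by exact_mod_cast hT.he
  have he0 : (0 : ℝ) ≤ e := Nat.cast_nonneg _
  have h4 : (4 : ℝ) ≤ 2 ^ s := by
    have : 2 ^ 2 ≤ 2 ^ s := Nat.pow_le_pow_right (by norm_num) hT.hs
    have : ((2 ^ 2 : ℕ) : ℝ) ≤ ((2 ^ s : ℕ) : ℝ) := by exact_mod_cast this
    push_cast at this
    linarith
  have hbs : (2 : ℝ) ^ s * 2 ^ s * 128 ≤ 2 ^ b := by
    have h1 : 2 ^ (2 * s + 7) ≤ 2 ^ b := Nat.pow_le_pow_right (by norm_num) hT.hb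
    have h2 : ((2 ^ (2 * s + 7) : ℕ) : ℝ) ≤ ((2 ^ b : ℕ) : ℝ) := by exact_mod_cast h1
    push_cast at h2
    have h3 : (2 : ℝ) ^ (2 * s + 7) = 2 ^ s * 2 ^ s * 128 := by
      rw [pow_add, two_mul, pow_add]; norm_num
    rw [h3] at h2
    exact h2
  have hn1 : ((w.length : ℕ) : ℝ) ≤ 3 := by exact_mod_cast n1
  have hn2 : ((w'.length : ℕ) : ℝ) ≤ 3 := by exact_mod_cast n2
  have key := fun (j : ℕ) (hj : j < len N) => dC_err hT F o1 hj
  have kee := fun (j : ℕ) => eC_err (S := S) F' j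
  have sx := accX_sum (b := b) (N := N) (W := W) (T := T) hT.lt w (fun x hx => by have := (o1 x hx); omega)
  have sy := accY_sum (b := b) (N := N) (W := W) (T := T) hT.lt w (fun x hx => by have := (o1 x hx); omega)
  have hix : ∀ x ∈ w', ix S x.1 < len N := fun x hx => by
    have := (o2 x hx)
    show (x.1 + (S : ℤ)).toNat < 2 * N + 1
    omega
  have px := spX_sum (b := b) (N := N) (S := S) w' hix
  have py := spY_sum (b := b) (N := N) (S := S) w' hix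
  -- bounds of the digits
  have bX : ∀ j < len N, |((dX b W T w j : ℤ) : ℝ)| ≤ 45 * (2 ^ s * 2 ^ s) ∧
      |((dY b W T w j : ℤ) : ℝ)| ≤ 45 * (2 ^ s * 2 ^ s) := by
    intro j hj
    have h1 := (key j hj).2
    rw [dC_eq] at h1
    have r1 := Complex.abs_re_le_norm ((dX b W T w j : ℂ) + Complex.I * (dY b W T w j : ℂ))
    have r2 := Complex.abs_im_le_norm ((dX b W T w j : ℂ) + Complex.I * (dY b W T w j : ℂ))
    rw [(re_int _ _).1] at r1
    rw [(re_int _ _).2] at r2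
    have h2 : (w.length : ℝ) * (15 * 2 ^ s * 2 ^ s) ≤ 45 * (2 ^ s * 2 ^ s) := by
      have : (0 : ℝ) < 2 ^ s * 2 ^ s := by positivity
      nlinarith
    constructor <;> linarith
  have bE : ∀ j, |((eX S w' j : ℤ) : ℝ)| ≤ 15 * 2 ^ s ∧ |((eY S w' j : ℤ) : ℝ)| ≤ 15 * 2 ^ s := by
    intro j
    have h1 := (kee j).2
    have r1 := Complex.abs_re_le_norm ((eX S w' j : ℂ) + Complex.I * (eY S w' j : ℂ))
    have r2 := Complex.abs_im_le_norm ((eX S w' j : ℂ) + Complex.I * (eY S w' j : ℂ))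
    rw [(re_int _ _).1] at r1
    rw [(re_int _ _).2] at r2
    have h2 : (w'.length : ℝ) * (4 * 2 ^ s + 3) ≤ 15 * 2 ^ s := by nlinarith
    constructor <;> linarith
  have flo : ∀ x : ℤ, |((x / 2 ^ s : ℤ) : ℝ) - (x : ℝ) / 2 ^ s| ≤ 1 := by
    intro x
    have h1 := ediv_le x (show 0 < 2 ^ s by positivity)
    push_cast at h1
    exact h1
  have toI : ∀ x : ℤ, |(x : ℝ)| < 2 ^ b → |x| < 2 ^ b := by
    intro x hx
    have : ((|x| : ℤ) : ℝ) < ((2 ^ b : ℤ) : ℝ) := by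
      push_cast
      exact hx
    exact_mod_cast this
  have h16 : (16 : ℝ) ≤ 2 ^ s * 2 ^ s := by nlinarith
  have hss : (2 : ℝ) ^ s ≤ 2 ^ s * 2 ^ s / 4 := by nlinarith
  have g1 : ∀ x : ℤ, |(x : ℝ)| ≤ 45 * (2 ^ s * 2 ^ s) → |x| < 2 ^ b := fun x hx => toI x (by nlinarith)
  have g2 : ∀ x y : ℤ, |(x : ℝ)| ≤ 45 * (2 ^ s * 2 ^ s) → |(y : ℝ)| ≤ 15 * 2 ^ s → |x / 2 ^ s + y| < 2 ^ b := by
    intro x y hx hy
    refine toI _ ?_
    have h1 := flo x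
    have h2 : |(x : ℝ) / 2 ^ s| ≤ 45 * 2 ^ s := by
      rw [abs_div, abs_of_pos hs0, div_le_iff₀ hs0]
      linarith
    have h3 : (((x / 2 ^ s + y : ℤ)) : ℝ) = ((((x / 2 ^ s : ℤ)) : ℝ) - (x : ℝ) / 2 ^ s) + ((x : ℝ) / 2 ^ s + y) := by
      push_cast; ring
    rw [h3]
    refine lt_of_le_of_lt (abs_add_le _ _) ?_
    have h4 := abs_add_le ((x : ℝ) / 2 ^ s) (y : ℝ)
    nlinarith
  have g3 : ∀ x y : ℤ, |(x : ℝ)| ≤ 45 * (2 ^ s * 2 ^ s) → |(y : ℝ)| ≤ 15 * 2 ^ s → |x / 2 ^ s + y| ≤ 2 ^ (s + 6) := by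
    intro x y hx hy
    have h1 := flo x
    have h2 : |(x : ℝ) / 2 ^ s| ≤ 45 * 2 ^ s := by
      rw [abs_div, abs_of_pos hs0, div_le_iff₀ hs0]
      linarith
    have h3 : (((x / 2 ^ s + y : ℤ)) : ℝ) = ((((x / 2 ^ s : ℤ)) : ℝ) - (x : ℝ) / 2 ^ s) + ((x : ℝ) / 2 ^ s + y) := by
      push_cast; ring
    have h5 : |(((x / 2 ^ s + y : ℤ)) : ℝ)| ≤ 2 ^ (s + 6) := by
      rw [h3]
      refine (abs_add_le _ _).trans ?_
      have h4 := abs_add_le ((x : ℝ) / 2 ^ s) (y : ℝ)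
      have h6 : (2 : ℝ) ^ (s + 6) = 64 * 2 ^ s := by rw [pow_add]; norm_num; ring
      rw [h6]
      linarith
    have : ((|x / 2 ^ s + y| : ℤ) : ℝ) ≤ ((2 ^ (s + 6) : ℤ) : ℝ) := by
      push_cast at h5 ⊢
      exact h5
    exact_mod_cast this
  have hsb : s ≤ b := by have := hT.hb; omega
  have E1 := gx_enc (b := b) (N := N) (s := s) hsb (fun k hk => g1 _ (bX k hk).1) sx px
    (fun k hk => g2 _ _ (bX k hk).1 (bE k).1)
  have E2 := gx_enc (b := b) (N := N) (s := s) hsb (fun k hk => g1 _ (bX k hk).2) sy py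
    (fun k hk => g2 _ _ (bX k hk).2 (bE k).2)
  refine ⟨⟨E1.lt, E2.lt⟩, fun j hj => ?_⟩
  rw [E1.digit hj, E2.digit hj]
  refine ⟨?_, g3 _ _ (bX j hj).1 (bE j).1, g3 _ _ (bX j hj).2 (bE j).2⟩
  set dx := dX b W T w j with hdx
  set dy := dY b W T w j with hdy
  set ex := eX S w' j with hex
  set ey := eY S w' j with hey
  have k1 := (key j hj).1
  rw [dC_eq, ← hdx, ← hdy] at k1
  have k2 := (kee j).1
  rw [← hex, ← hey] at k2
  set A := exC κ r l ((j : ℤ) - N) with hA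
  set B := exS S r' l' j with hB
  have hn3 : ‖(2 : ℂ) ^ s‖ = 2 ^ s := by rw [norm_pow, Complex.norm_ofNat]
  have h2c : (2 : ℂ) ^ s ≠ 0 := pow_ne_zero _ two_ne_zero
  have f1 := flo dx
  have f2 := flo dy
  set u : ℝ := ((dx / 2 ^ s : ℤ) : ℝ) - (dx : ℝ) / 2 ^ s with hu
  set v : ℝ := ((dy / 2 ^ s : ℤ) : ℝ) - (dy : ℝ) / 2 ^ s with hv
  have e1 : ((((dx / 2 ^ s + ex : ℤ)) : ℂ) + Complex.I * (((dy / 2 ^ s + ey : ℤ)) : ℂ)) - 2 ^ s * (A + B) =
      ((u : ℂ) + Complex.I * (v : ℂ)) + ((1 / 2 ^ s : ℂ) * (((dx : ℂ) + Complex.I * (dy : ℂ)) - 2 ^ s * (2 ^ s * A)))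
        + (((ex : ℂ) + Complex.I * (ey : ℂ)) - 2 ^ s * B) := by
    rw [hu, hv]
    have hr : ∀ x : ℤ, (((x : ℝ) : ℂ)) = (x : ℂ) := fun x => Complex.ofReal_intCast x
    rw [Complex.ofReal_sub, Complex.ofReal_sub, hr, hr, Complex.ofReal_div, Complex.ofReal_div, hr, hr]
    push_cast
    field_simp
    ring
  rw [e1]
  refine (norm_add_le _ _).trans ?_
  have m1 : ‖(u : ℂ) + Complex.I * (v : ℂ)‖ ≤ 2 := by
    refine (norm_add_le _ _).trans ?_
    rw [norm_mul, Complex.norm_I, one_mul, Complex.norm_real, Complex.norm_real, Real.norm_eq_abs, Real.norm_eq_abs]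
    linarith
  have m2 : ‖(1 / 2 ^ s : ℂ) * (((dx : ℂ) + Complex.I * (dy : ℂ)) - 2 ^ s * (2 ^ s * A))‖ ≤ 63 / 4 + 12 * e := by
    rw [norm_mul, norm_div, norm_one, hn3, one_div, inv_mul_le_iff₀ hs0]
    refine k1.trans ?_
    have h5 : (w.length : ℝ) * (9 / 4 * (2 * 2 ^ s + e) + 2 ^ s * (4 * e)) ≤ 3 * (9 / 4 * (2 * 2 ^ s + e) + 2 ^ s * (4 * e)) :=
      mul_le_mul_of_nonneg_right hn1 (by positivity)
    refine h5.trans ?_
    nlinarith
  have m3 : ‖((ex : ℂ) + Complex.I * (ey : ℂ)) - 2 ^ s * B‖ ≤ 9 := by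
    refine k2.trans ?_
    linarith
  have m4 := norm_add_le ((u : ℂ) + Complex.I * (v : ℂ)) ((1 / 2 ^ s : ℂ) * (((dx : ℂ) + Complex.I * (dy : ℂ)) - 2 ^ s * (2 ^ s * A)))
  linarith

/-- **a sparse row** -/
theorem sp_err (hb : 2 * s + 7 ≤ b) (hs : 2 ≤ s) {S : ℕ} {w' : List (ℤ × ℤ × ℤ)} {l' : List (ℤ × Z4)}
    (F' : List.Forall₂ (Cl s r') w' l') (n2 : w'.length ≤ 3) (o2 : ∀ x ∈ w', 0 ≤ x.1 + S ∧ x.1 + S ≤ 2 * N) :
    (unS b N (spX b S w') < (2 ^ (b + 1)) ^ (len N) ∧ unS b N (spY b S w') < (2 ^ (b + 1)) ^ (len N)) ∧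
    ∀ j < len N, ‖((dz b j (unS b N (spX b S w')) : ℂ) +
        Complex.I * (dz b j (unS b N (spY b S w')) : ℂ)) - 2 ^ s * exS S r' l' j‖ ≤ 9 ∧
      |dz b j (unS b N (spX b S w'))| ≤ 2 ^ (s + 6) ∧ |dz b j (unS b N (spY b S w'))| ≤ 2 ^ (s + 6) := by
  have hs0 : (0 : ℝ) < 2 ^ s := by positivity
  have h4 : (4 : ℝ) ≤ 2 ^ s := by
    have : 2 ^ 2 ≤ 2 ^ s := Nat.pow_le_pow_right (by norm_num) hs
    have : ((2 ^ 2 : ℕ) : ℝ) ≤ ((2 ^ s : ℕ) : ℝ) := by exact_mod_cast this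
    push_cast at this
    linarith
  have hbs : (2 : ℝ) ^ s * 2 ^ s * 128 ≤ 2 ^ b := by
    have h1 : 2 ^ (2 * s + 7) ≤ 2 ^ b := Nat.pow_le_pow_right (by norm_num) hb
    have h2 : ((2 ^ (2 * s + 7) : ℕ) : ℝ) ≤ ((2 ^ b : ℕ) : ℝ) := by exact_mod_cast h1
    push_cast at h2
    have h3 : (2 : ℝ) ^ (2 * s + 7) = 2 ^ s * 2 ^ s * 128 := by
      rw [pow_add, two_mul, pow_add]; norm_num
    rw [h3] at h2
    exact h2
  have hn2 : ((w'.length : ℕ) : ℝ) ≤ 3 := by exact_mod_cast n2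
  have kee := fun (j : ℕ) => eC_err (S := S) F' j
  have hix : ∀ x ∈ w', ix S x.1 < len N := fun x hx => by
    have := (o2 x hx)
    show (x.1 + (S : ℤ)).toNat < 2 * N + 1
    omega
  have px := spX_sum (b := b) (N := N) (S := S) w' hix
  have py := spY_sum (b := b) (N := N) (S := S) w' hix
  have bE : ∀ j, |((eX S w' j : ℤ) : ℝ)| ≤ 15 * 2 ^ s ∧ |((eY S w' j : ℤ) : ℝ)| ≤ 15 * 2 ^ s := by
    intro j
    have h1 := (kee j).2
    have r1 := Complex.abs_re_le_norm ((eX S w' j : ℂ) + Complex.I * (eY S w' j : ℂ))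
    have r2 := Complex.abs_im_le_norm ((eX S w' j : ℂ) + Complex.I * (eY S w' j : ℂ))
    rw [(re_int _ _).1] at r1
    rw [(re_int _ _).2] at r2
    have h2 : (w'.length : ℝ) * (4 * 2 ^ s + 3) ≤ 15 * 2 ^ s := by nlinarith
    constructor <;> linarith
  have toI : ∀ x : ℤ, |(x : ℝ)| ≤ 15 * 2 ^ s → |x| < 2 ^ b := by
    intro x hx
    have : ((|x| : ℤ) : ℝ) < ((2 ^ b : ℤ) : ℝ) := by
      push_cast
      nlinarith
    exact_mod_cast this
  have E1 := unS_enc (b := b) (N := N) (fun k _ => toI _ (bE k).1) px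
  have E2 := unS_enc (b := b) (N := N) (fun k _ => toI _ (bE k).2) py
  have toJ : ∀ x : ℤ, |(x : ℝ)| ≤ 15 * 2 ^ s → |x| ≤ 2 ^ (s + 6) := by
    intro x hx
    have h6 : (2 : ℝ) ^ (s + 6) = 64 * 2 ^ s := by rw [pow_add]; norm_num; ring
    have : ((|x| : ℤ) : ℝ) ≤ ((2 ^ (s + 6) : ℤ) : ℝ) := by
      push_cast
      rw [h6]
      linarith
    exact_mod_cast this
  refine ⟨⟨E1.lt, E2.lt⟩, fun j hj => ?_⟩
  rw [E1.digit hj, E2.digit hj]
  refine ⟨(kee j).1.trans ?_, toJ _ (bE j).1, toJ _ (bE j).2⟩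
  linarith

end

/-! ### Packed coordinates -/

/-- the packed coordinates of a complex array -/
def CR (b s n N : ℕ) (X : (ℕ → ℝ) → ℤ → ℂ) (Z : ℕ → FP) (e : ℕ) : Prop :=
  ∃ ξ : ℕ → ℤ → ℂ, (∀ v : ℕ → ℝ, v 0 = 1 → ∀ m : ℤ, m ∈ Finset.Icc (-(N : ℤ)) N →
      X v m = ∑ i ∈ Finset.range n, (v i : ℂ) * ξ i m) ∧
    ∀ i < n, (Z i).N = N ∧ ((Z i).x < (2 ^ (b + 1)) ^ (len N) ∧ (Z i).y < (2 ^ (b + 1)) ^ (len N)) ∧
      ∀ j < len N, ‖((dz b j (Z i).x : ℂ) + Complex.I * (dz b j (Z i).y : ℂ)) - 2 ^ s * ξ i ((j : ℤ) - N)‖ ≤ e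

/-- all digits at most `B` -/
def DB (b n N : ℕ) (B : ℤ) (Z : ℕ → FP) : Prop :=
  ∀ i < n, ∀ j < len N, |dz b j (Z i).x| ≤ B ∧ |dz b j (Z i).y| ≤ B

section

variable {b s n N e : ℕ} {X : (ℕ → ℝ) → ℤ → ℂ} {Z : ℕ → FP}

theorem CR.re (h : CR b s n N X Z e) {j : ℕ} (hj : j < len N) :
    LR n (2 ^ s) (fun v => (X v ((j : ℤ) - N)).re) (fun i => dz b j (Z i).x) e := by
  obtain ⟨ξ, h1, h2⟩ := h
  have hm : ((j : ℤ) - N) ∈ Finset.Icc (-(N : ℤ)) N := by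
    rw [len_eq] at hj
    rw [Finset.mem_Icc]
    omega
  refine ⟨fun i => (ξ i ((j : ℤ) - N)).re, fun v hv => ?_, fun i hi => ?_⟩
  · beta_reduce
    rw [h1 v hv _ hm, Complex.re_sum]
    exact Finset.sum_congr rfl fun i _ => by rw [Complex.re_ofReal_mul, mul_comm]
  · have h3 := (h2 i hi).2.2 j hj
    have h4 := (Complex.abs_re_le_norm _).trans h3
    rw [Complex.sub_re, (re_int _ _).1] at h4
    have h5 : ((2 : ℂ) ^ s * ξ i ((j : ℤ) - N)).re = 2 ^ s * (ξ i ((j : ℤ) - N)).re := by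
      have : ((2 : ℂ) ^ s) = (((2 : ℝ) ^ s : ℝ) : ℂ) := by push_cast; rfl
      rw [this, Complex.re_ofReal_mul]
    rw [h5, abs_sub_comm] at h4
    exact h4

theorem CR.im (h : CR b s n N X Z e) {j : ℕ} (hj : j < len N) :
    LR n (2 ^ s) (fun v => (X v ((j : ℤ) - N)).im) (fun i => dz b j (Z i).y) e := by
  obtain ⟨ξ, h1, h2⟩ := h
  have hm : ((j : ℤ) - N) ∈ Finset.Icc (-(N : ℤ)) N := by
    rw [len_eq] at hj
    rw [Finset.mem_Icc]
    omega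
  refine ⟨fun i => (ξ i ((j : ℤ) - N)).im, fun v hv => ?_, fun i hi => ?_⟩
  · beta_reduce
    rw [h1 v hv _ hm, Complex.im_sum]
    exact Finset.sum_congr rfl fun i _ => by rw [Complex.im_ofReal_mul, mul_comm]
  · have h3 := (h2 i hi).2.2 j hj
    have h4 := (Complex.abs_im_le_norm _).trans h3
    rw [Complex.sub_im, (re_int _ _).2] at h4
    have h5 : ((2 : ℂ) ^ s * ξ i ((j : ℤ) - N)).im = 2 ^ s * (ξ i ((j : ℤ) - N)).im := by
      have : ((2 : ℂ) ^ s) = (((2 : ℝ) ^ s : ℝ) : ℂ) := by push_cast; rfl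
      rw [this, Complex.im_ofReal_mul]
    rw [h5, abs_sub_comm] at h4
    exact h4

theorem CR.mono (h : CR b s n N X Z e) {e' : ℕ} (he : e ≤ e') : CR b s n N X Z e' := by
  obtain ⟨ξ, h1, h2⟩ := h
  refine ⟨ξ, h1, fun i hi => ?_⟩
  obtain ⟨a1, a2, a3⟩ := h2 i hi
  exact ⟨a1, a2, fun j hj => (a3 j hj).trans (by exact_mod_cast he)⟩

/-- a smaller window -/
theorem CR.window (h : CR b s n N X Z e) {M : ℕ} (hM : M ≤ N) : CR b s n M X (fun i => winF b M (Z i)) e := by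
  obtain ⟨ξ, h1, h2⟩ := h
  refine ⟨ξ, fun v hv m hm => h1 v hv m (by rw [Finset.mem_Icc] at hm ⊢; omega), fun i hi => ?_⟩
  obtain ⟨a1, ⟨a2, a3⟩, a4⟩ := h2 i hi
  have hlen : (N - M) + len M ≤ len N := by rw [len_eq, len_eq]; omega
  have E1 := (Enc_dz a2).win hlen
  have E2 := (Enc_dz a3).win hlen
  have w1 : (winF b M (Z i)).x = win b (N - M) (len M) (Z i).x := by
    show win b (Nat.sub (Z i).N M) (len M) (Z i).x = _
    rw [a1]; rfl
  have w2 : (winF b M (Z i)).y = win b (N - M) (len M) (Z i).y := by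
    show win b (Nat.sub (Z i).N M) (len M) (Z i).y = _
    rw [a1]; rfl
  refine ⟨rfl, ?_, fun j hj => ?_⟩
  · beta_reduce
    rw [w1, w2]
    exact ⟨E1.lt, E2.lt⟩
  · beta_reduce
    rw [w1, w2, E1.digit hj, E2.digit hj]
    have := a4 (N - M + j) (by omega)
    have e1 : (((N - M + j : ℕ) : ℤ) - N) = (j : ℤ) - M := by omega
    rw [e1] at this
    exact this

theorem DB.window {B : ℤ} (h : CR b s n N X Z e) (hB : DB b n N B Z) {M : ℕ} (hM : M ≤ N) :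
    DB b n M B (fun i => winF b M (Z i)) := by
  obtain ⟨ξ, h1, h2⟩ := h
  intro i hi j hj
  obtain ⟨a1, ⟨a2, a3⟩, a4⟩ := h2 i hi
  have hlen : (N - M) + len M ≤ len N := by rw [len_eq, len_eq]; omega
  have E1 := (Enc_dz a2).win hlen
  have E2 := (Enc_dz a3).win hlen
  have w1 : (winF b M (Z i)).x = win b (N - M) (len M) (Z i).x := by
    show win b (Nat.sub (Z i).N M) (len M) (Z i).x = _
    rw [a1]; rfl
  have w2 : (winF b M (Z i)).y = win b (N - M) (len M) (Z i).y := by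
    show win b (Nat.sub (Z i).N M) (len M) (Z i).y = _
    rw [a1]; rfl
  beta_reduce
  rw [w1, w2, E1.digit hj, E2.digit hj]
  exact hB i hi (N - M + j) (by omega)

end

end Helper85.NS
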