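import Pool.Agent.Helper95.SH.Cell
import Pool.Agent.Helper40.NR.Pol

/-!
# Project RC, SHARP, cell engine: the columns of `C1` and `C2`

`colL f K L D e1 e2 i`: for the family `f` (`true`: `C1`, `false`: `C2`) and the real coordinate `i` the list of the pairs
`(m, c)` (at most 6) with `c / (8 D)` (exact number `ev4 c`) the contribution to the frequency `m`; `η = (e1 + i e2) / D`.
`col_C1`, `col_C2`: `8 D C_f m = ∑_i v_i evL (colL ..) m`.
-/

open MeasureTheory Set Filter Topology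

set_option autoImplicit false

namespace Helper85.NS

open Helper49.LT hiding sg
open Helper49.RC (om)
open Helper95.RC
open Helper95.SH
open Helper49.Sharp (Par)
open Helper87.RC (BM)
open Helper56.RC (fc)
open Pool.Agent.Helper20.RC (wR)
open Pool.Agent.Helper40.NR (Z4 ev4 add4 sc4 rot4 cj4 mul4 ev4_add ev4_sc ev4_rot ev4_cj ev4_mul)

/-! ### Linear functionals of the coordinates -/

/-- unit vectors -/
def eV (i : ℕ) (j : ℕ) : ℝ := if j = i then 1 else 0

/-- homogeneous linear complex functional of the first `n` coordinates -/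
def Lin (n : ℕ) (X : (ℕ → ℝ) → ℂ) : Prop := ∀ v, X v = ∑ i ∈ Finset.range n, (v i : ℂ) * X (eV i)

theorem Lin.coord {n a : ℕ} (h : a < n) : Lin n (fun v => (v a : ℂ)) := by
  intro v
  rw [Finset.sum_eq_single a]
  · simp [eV]
  · intro i _ hi
    simp [eV, Ne.symm hi]
  · intro h'; exact absurd (Finset.mem_range.2 h) h'

theorem Lin.zero (n : ℕ) : Lin n (fun _ => 0) := fun v => by simp

theorem Lin.add {n : ℕ} {X Y : (ℕ → ℝ) → ℂ} (h : Lin n X) (k : Lin n Y) : Lin n (fun v => X v + Y v) := by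
  intro v
  beta_reduce
  rw [h v, k v, ← Finset.sum_add_distrib]
  exact Finset.sum_congr rfl fun i _ => by ring

theorem Lin.cmul {n : ℕ} {X : (ℕ → ℝ) → ℂ} (h : Lin n X) (c : ℂ) : Lin n (fun v => c * X v) := by
  intro v
  beta_reduce
  rw [h v, Finset.mul_sum]
  exact Finset.sum_congr rfl fun i _ => by ring

theorem Lin.neg {n : ℕ} {X : (ℕ → ℝ) → ℂ} (h : Lin n X) : Lin n (fun v => -X v) := by
  have := h.cmul (-1)
  simpa using this

theorem Lin.sub {n : ℕ} {X Y : (ℕ → ℝ) → ℂ} (h : Lin n X) (k : Lin n Y) : Lin n (fun v => X v - Y v) := by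
  have := h.add k.neg
  simpa [sub_eq_add_neg] using this

theorem Lin.congr {n : ℕ} {X Y : (ℕ → ℝ) → ℂ} (h : Lin n X) (e : ∀ v, Y v = X v) : Lin n Y := by
  intro v
  rw [e, h v]
  exact Finset.sum_congr rfl fun i _ => by rw [e]

theorem lin_sV (K L : ℕ) (n : ℤ) : Lin (nt K L) (fun v => sV K v n) := by
  by_cases h : Even n ∨ n ∉ Finset.Icc (-(K : ℤ)) K
  · refine (Lin.zero _).congr fun v => ?_
    unfold sV; rw [if_pos h]
  · have h2 := h
    push Not at h2
    rw [Finset.mem_Icc] at h2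
    have b1 : 1 + (n + K).toNat < nt K L := by unfold nt bp; omega
    have b2 : 2 + (n + K).toNat < nt K L := by unfold nt bp; omega
    refine ((Lin.coord b1).add ((Lin.coord b2).cmul Complex.I)).congr fun v => ?_
    unfold sV; rw [if_neg h]

theorem lin_hV {m L base : ℕ} (hb : base + L < m) (n : ℤ) : Lin m (fun v => hV L base v n) := by
  by_cases h : ¬ Even n ∨ n ∉ Finset.Icc (-(L : ℤ)) L
  · refine (Lin.zero _).congr fun v => ?_
    unfold hV; rw [if_pos h]
  · have h2 := h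
    push Not at h2
    rw [Finset.mem_Icc] at h2
    by_cases h0 : n = 0
    · have b1 : base < m := by omega
      refine (Lin.coord b1).congr fun v => ?_
      unfold hV; rw [if_neg h, if_pos h0]
    · by_cases hp : 0 < n
      · have b1 : base + (n.toNat - 1) < m := by omega
        have b2 : base + n.toNat < m := by omega
        refine ((Lin.coord b1).add ((Lin.coord b2).cmul Complex.I)).congr fun v => ?_
        unfold hV; rw [if_neg h, if_neg h0, if_pos hp]
      · have b1 : base + ((-n).toNat - 1) < m := by omega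
        have b2 : base + (-n).toNat < m := by omega
        refine ((Lin.coord b1).sub ((Lin.coord b2).cmul Complex.I)).congr fun v => ?_
        unfold hV; rw [if_neg h, if_neg h0, if_neg hp]

theorem lin_pV (K L : ℕ) (n : ℤ) : Lin (nt K L) (fun v => pV K L v n) :=
  lin_hV (by unfold nt; omega) n
theorem lin_rV (K L : ℕ) (n : ℤ) : Lin (nt K L) (fun v => rV K L v n) :=
  lin_hV (by unfold nt br; omega) n

theorem lin_wm {m : ℕ} {X : (ℕ → ℝ) → ℤ → ℂ} (h : ∀ n, Lin m (fun v => X v n)) (η : ℂ) (n : ℤ) :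
    Lin m (fun v => wm η (X v) n) := by
  unfold wm
  exact ((h n).add ((h (n - 2)).cmul _)).add ((h (n + 2)).cmul _)

/-! ### Exact coefficients -/

/-- `2 ζ^j`, `ζ = ee (π / 3)` -/
def zt : ℕ → Z4
  | 0 => (2, 0, 0, 0)
  | 1 => (1, 0, 0, 1)
  | 2 => (-1, 0, 0, 1)
  | 3 => (-2, 0, 0, 0)
  | 4 => (-1, 0, 0, -1)
  | _ => (1, 0, 0, -1)
def z2 (j : ℤ) : Z4 := zt (j % 6).toNat

theorem ee_third : ee (Real.pi / 3) = (1 / 2 : ℂ) + Complex.I * ((Real.sqrt 3 / 2 : ℝ) : ℂ) := by
  have := om_val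
  unfold om at this
  exact this

theorem ev_z2 (j : ℤ) : ev4 (z2 j) = 2 * ee ((j : ℝ) * (Real.pi / 3)) := by
  have h6 : ∀ k : ℤ, ee ((k : ℝ) * (2 * Real.pi)) = 1 := by
    intro k
    unfold ee
    rw [Complex.exp_eq_one_iff]
    exact ⟨k, by push_cast; ring⟩
  have e1 : ee ((j : ℝ) * (Real.pi / 3)) = ee (((j % 6).toNat : ℝ) * (Real.pi / 3)) := by
    have h1 : (j : ℝ) = ((j % 6).toNat : ℝ) + 6 * ((j / 6 : ℤ) : ℝ) := by
      have h2 : ((j % 6).toNat : ℤ) = j % 6 := Int.toNat_of_nonneg (Int.emod_nonneg _ (by norm_num))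
      have h3 := Int.emod_add_mul_ediv j 6
      have h4 : (j : ℤ) = ((j % 6).toNat : ℤ) + 6 * (j / 6) := by rw [h2]; omega
      exact_mod_cast h4
    rw [h1, add_mul, ee_add, show 6 * ((j / 6 : ℤ) : ℝ) * (Real.pi / 3) = ((j / 6 : ℤ) : ℝ) * (2 * Real.pi) by ring,
      h6, mul_one]
  have hlt : (j % 6).toNat < 6 := by
    have := Int.emod_lt_of_pos j (show (0 : ℤ) < 6 by norm_num)
    omega
  rw [e1]
  unfold z2
  have key : ∀ n : ℕ, n < 6 → ev4 (zt n) = 2 * ee ((n : ℝ) * (Real.pi / 3)) := by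
    have p : ∀ n : ℕ, ee ((n : ℝ) * (Real.pi / 3)) = ee (Real.pi / 3) ^ n := by
      intro n
      induction n with
      | zero => simp [ee_zero]
      | succ n ih => rw [pow_succ, ← ih, ← ee_add]; congr 1; push_cast; ring
    have hs := Pool.Agent.Helper40.NR.s3C_sq
    have hI := Complex.I_mul_I
    intro n hn
    rw [p, ee_third]
    set z : ℂ := (1 / 2 : ℂ) + Complex.I * ((Real.sqrt 3 / 2 : ℝ) : ℂ) with hz
    have hz2 : z ^ 2 = z - 1 := by
      rw [hz]
      push_cast
      linear_combination ((Real.sqrt 3 : ℂ) ^ 2 / 4) * hI - (1 / 4 : ℂ) * hs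
    have hz3 : z ^ 3 = -1 := by linear_combination (z + 1) * hz2
    have hz4 : z ^ 4 = -z := by linear_combination z * hz3
    have hz5 : z ^ 5 = 1 - z := by linear_combination z ^ 2 * hz3 - hz2
    interval_cases n
    · simp [zt, ev4]
    · rw [pow_one, hz]
      simp only [zt, ev4]
      push_cast
      ring
    · rw [hz2, hz]
      simp only [zt, ev4]
      push_cast
      ring
    · rw [hz3]
      simp only [zt, ev4]
      push_cast
      ring
    · rw [hz4, hz]
      simp only [zt, ev4]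
      push_cast
      ring
    · rw [hz5, hz]
      simp only [zt, ev4]
      push_cast
      ring
  exact key _ hlt

/-- types of the fields: weight, `s`, `p`, `r` -/
inductive Ty
  | W | S | P | R
  deriving DecidableEq

/-- `8` times the coefficient of the field of the given type at the frequency `m` of the family `f` -/
def kap (f : Bool) (τ : Ty) (m : ℤ) : Z4 :=
  match f, τ with
  | true, Ty.W => sc4 4 (z2 (1 - m))
  | true, Ty.S => sc4 4 (z2 (-m))
  | true, Ty.P => sc4 4 (z2 (-m - 1))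
  | true, Ty.R => mul4 (0, 4, 1, 0) (z2 (-m))
  | false, Ty.W => sc4 4 (z2 (2 - 2 * m))
  | false, Ty.S => sc4 (-4) (z2 (-2 * m))
  | false, Ty.P => sc4 4 (z2 (-2 * m - 2))
  | false, Ty.R => mul4 (0, 4, -1, 0) (z2 (-2 * m))

/-- the contribution of the harmonic `g δ_l` of a field, general coefficients -/
def termsK (κ : Ty → ℤ → Z4) (D e1 e2 : ℤ) (τ : Ty) (l : ℤ) (g : Z4) : List (ℤ × Z4) :=
  [(l + 1, sc4 D (mul4 g (κ τ (l + 1)))), (l + 3, mul4 (mul4 g (κ τ (l + 3))) (e1, 0, e2, 0)),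
    (l - 1, mul4 (mul4 g (κ τ (l - 1))) (e1, 0, -e2, 0))]

/-- the contribution of the harmonic `g δ_l` of a field -/
def terms (f : Bool) (D e1 e2 : ℤ) (τ : Ty) (l : ℤ) (g : Z4) : List (ℤ × Z4) := termsK (kap f) D e1 e2 τ l g

/-- the fields of the coordinate `i` -/
def fld (K L i : ℕ) : List (Ty × ℤ × Z4) :=
  if i = 0 then [(Ty.W, 0, (1, 0, 0, 0))]
  else if i < bp K then
    (if (i - 1) % 2 = 0 then [(Ty.S, ((i - 1 : ℕ) : ℤ) - K, (1, 0, 0, 0))] else [(Ty.S, ((i - 2 : ℕ) : ℤ) - K, (0, 0, 1, 0))])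
  else
    (if i < br K L then hf Ty.P (i - bp K) else hf Ty.R (i - br K L))
where
  hf (τ : Ty) (c : ℕ) : List (Ty × ℤ × Z4) :=
    if c = 0 then [(τ, 0, (1, 0, 0, 0))]
    else if c % 2 = 1 then [(τ, ((c + 1 : ℕ) : ℤ), (1, 0, 0, 0)), (τ, -((c + 1 : ℕ) : ℤ), (1, 0, 0, 0))]
    else [(τ, (c : ℤ), (0, 0, 1, 0)), (τ, -(c : ℤ), (0, 0, -1, 0))]

/-- the column of the coordinate `i`, general coefficients -/
def colK (κ : Ty → ℤ → Z4) (K L : ℕ) (D e1 e2 : ℤ) (i : ℕ) : List (ℤ × Z4) :=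
  (fld K L i).flatMap fun x => termsK κ D e1 e2 x.1 x.2.1 x.2.2

/-- the column of the coordinate `i` -/
def colL (f : Bool) (K L : ℕ) (D e1 e2 : ℤ) (i : ℕ) : List (ℤ × Z4) := colK (kap f) K L D e1 e2 i

/-- value of a sparse list at the frequency `m` -/
noncomputable def evL (l : List (ℤ × Z4)) (m : ℤ) : ℂ := (l.map fun x => if x.1 = m then ev4 x.2 else 0).sum

@[simp] theorem evL_nil (m : ℤ) : evL [] m = 0 := rfl
@[simp] theorem evL_cons (x : ℤ × Z4) (l : List (ℤ × Z4)) (m : ℤ) :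
    evL (x :: l) m = (if x.1 = m then ev4 x.2 else 0) + evL l m := by simp [evL]
theorem evL_append (l k : List (ℤ × Z4)) (m : ℤ) : evL (l ++ k) m = evL l m + evL k m := by simp [evL]

/-- `g δ_l` -/
noncomputable def dl (l : ℤ) (g : ℂ) (n : ℤ) : ℂ := if n = l then g else 0

theorem evL_terms (κ : Ty → ℤ → Z4) {D e1 e2 : ℤ} (hD : D ≠ 0) (τ : Ty) (l : ℤ) (g : Z4) (m : ℤ) :
    evL (termsK κ D e1 e2 τ l g) m =
      (D : ℂ) * (ev4 (κ τ m) * wm (((e1 : ℂ) + e2 * Complex.I) / D) (dl l (ev4 g)) (m - 1)) := by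
  have hDc : (D : ℂ) ≠ 0 := by exact_mod_cast hD
  have q1 : ev4 (e1, 0, e2, 0) = (e1 : ℂ) + e2 * Complex.I := by
    unfold ev4; push_cast; ring
  have q2 : ev4 (e1, 0, -e2, 0) = (e1 : ℂ) - e2 * Complex.I := by
    unfold ev4; push_cast; ring
  have q3 : (starRingEnd ℂ) (((e1 : ℂ) + e2 * Complex.I) / D) = ((e1 : ℂ) - e2 * Complex.I) / D := by
    rw [map_div₀, map_add, map_mul, Complex.conj_I, map_intCast, map_intCast, map_intCast]
    ring
  unfold termsK wm dl
  rw [evL_cons, evL_cons, evL_cons, evL_nil, ev4_sc, ev4_mul, ev4_mul, ev4_mul, ev4_mul, ev4_mul, q1, q2, q3]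
  have c1 : (m - 1 = l) ↔ (l + 1 = m) := by omega
  have c2 : (m - 1 - 2 = l) ↔ (l + 3 = m) := by omega
  have c3 : (m - 1 + 2 = l) ↔ (l - 1 = m) := by omega
  simp only [c1, c2, c3]
  by_cases h1 : l + 1 = m
  · rw [if_pos h1, if_pos h1, if_neg (by omega), if_neg (by omega), if_neg (by omega), if_neg (by omega), h1]
    ring
  · rw [if_neg h1, if_neg h1]
    by_cases h2 : l + 3 = m
    · rw [if_pos h2, if_pos h2, if_neg (by omega), if_neg (by omega), h2]
      field_simp
      ring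
    · rw [if_neg h2, if_neg h2]
      by_cases h3 : l - 1 = m
      · rw [if_pos h3, if_pos h3, h3]
        field_simp
        ring
      · rw [if_neg h3, if_neg h3]
        ring

/-! ### Fields of a coordinate -/

/-- the array of the type `τ` of a list of fields -/
noncomputable def fA (τ : Ty) (l : List (Ty × ℤ × Z4)) (n : ℤ) : ℂ :=
  (l.map fun x => if x.1 = τ then dl x.2.1 (ev4 x.2.2) n else 0).sum

@[simp] theorem fA_nil (τ : Ty) (n : ℤ) : fA τ [] n = 0 := rfl
@[simp] theorem fA_cons (τ : Ty) (x : Ty × ℤ × Z4) (l : List (Ty × ℤ × Z4)) (n : ℤ) :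
    fA τ (x :: l) n = (if x.1 = τ then dl x.2.1 (ev4 x.2.2) n else 0) + fA τ l n := by simp [fA]

theorem ev4_one : ev4 (1, 0, 0, 0) = 1 := by simp [ev4]
theorem ev4_I : ev4 (0, 0, 1, 0) = Complex.I := by simp [ev4]
theorem ev4_nI : ev4 (0, 0, -1, 0) = -Complex.I := by simp [ev4]

theorem fld_W (K L : ℕ) (i : ℕ) (n : ℤ) : fA Ty.W (fld K L i) n = if i = 0 then dl 0 1 n else 0 := by
  unfold fld
  by_cases h0 : i = 0
  · rw [if_pos h0, if_pos h0, fA_cons, fA_nil, if_pos rfl, ev4_one, add_zero]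
  · rw [if_neg h0, if_neg h0]
    have hh : ∀ (τ : Ty) (c : ℕ), τ ≠ Ty.W → fA Ty.W (fld.hf τ c) n = 0 := by
      intro τ c hτ
      unfold fld.hf
      split_ifs <;> simp [hτ]
    split_ifs
    · simp
    · simp
    · exact hh _ _ (by decide)
    · exact hh _ _ (by decide)

theorem fld_S {K : ℕ} (hK : ¬ Even K) (L : ℕ) (i : ℕ) (n : ℤ) : fA Ty.S (fld K L i) n = sV K (eV i) n := by
  obtain ⟨a, ha⟩ := Nat.not_even_iff_odd.1 hK
  unfold fld
  by_cases h0 : i = 0
  · rw [if_pos h0]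
    subst h0
    unfold sV eV
    rw [fA_cons, fA_nil, if_neg (by decide)]
    split_ifs <;> simp_all
  · rw [if_neg h0]
    by_cases h1 : i < bp K
    · rw [if_pos h1]
      unfold bp at h1
      unfold sV eV
      by_cases h2 : (i - 1) % 2 = 0
      · rw [if_pos h2, fA_cons, fA_nil, if_pos rfl, ev4_one, add_zero]
        unfold dl
        by_cases h3 : n = ((i - 1 : ℕ) : ℤ) - K
        · have e1 : ¬ (Even n ∨ n ∉ Finset.Icc (-(K : ℤ)) K) := by
            push Not
            refine ⟨Int.not_even_iff_odd.2 ?_, ?_⟩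
            · rw [Int.odd_iff]; omega
            · rw [Finset.mem_Icc]; omega
          rw [if_pos h3, if_neg e1, if_pos (by omega), if_neg (by omega)]
          simp
        · rw [if_neg h3]
          by_cases e1 : Even n ∨ n ∉ Finset.Icc (-(K : ℤ)) K
          · rw [if_pos e1]
          · rw [if_neg e1]
            push Not at e1
            rw [Finset.mem_Icc, ← Int.not_odd_iff_even, not_not, Int.odd_iff] at e1
            rw [if_neg (by omega), if_neg (by omega)]
            simp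
      · rw [if_neg h2, fA_cons, fA_nil, if_pos rfl, ev4_I, add_zero]
        unfold dl
        by_cases h3 : n = ((i - 2 : ℕ) : ℤ) - K
        · have e1 : ¬ (Even n ∨ n ∉ Finset.Icc (-(K : ℤ)) K) := by
            push Not
            refine ⟨Int.not_even_iff_odd.2 ?_, ?_⟩
            · rw [Int.odd_iff]; omega
            · rw [Finset.mem_Icc]; omega
          rw [if_pos h3, if_neg e1, if_neg (by omega), if_pos (by omega)]
          simp
        · rw [if_neg h3]
          by_cases e1 : Even n ∨ n ∉ Finset.Icc (-(K : ℤ)) K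
          · rw [if_pos e1]
          · rw [if_neg e1]
            push Not at e1
            rw [Finset.mem_Icc, ← Int.not_odd_iff_even, not_not, Int.odd_iff] at e1
            rw [if_neg (by omega), if_neg (by omega)]
            simp
    · rw [if_neg h1]
      have hh : ∀ (τ : Ty) (c : ℕ), τ ≠ Ty.S → fA Ty.S (fld.hf τ c) n = 0 := by
        intro τ c hτ
        unfold fld.hf
        split_ifs <;> simp [hτ]
      have e0 : (if i < br K L then fld.hf Ty.P (i - bp K) else fld.hf Ty.R (i - br K L)) =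
          (if i < br K L then fld.hf Ty.P (i - bp K) else fld.hf Ty.R (i - br K L)) := rfl
      have e2 : sV K (eV i) n = 0 := by
        unfold sV eV
        unfold bp at h1
        by_cases e1 : Even n ∨ n ∉ Finset.Icc (-(K : ℤ)) K
        · rw [if_pos e1]
        · rw [if_neg e1]
          push Not at e1
          rw [Finset.mem_Icc] at e1
          rw [if_neg (by omega), if_neg (by omega)]
          simp
      rw [e2]
      split_ifs
      · exact hh _ _ (by decide)
      · exact hh _ _ (by decide)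

/-- the hermitian fields -/
theorem fld_hf {L : ℕ} (hL : Even L) (τ : Ty) (base i : ℕ) (h1 : base ≤ i) (h2 : i ≤ base + L) (n : ℤ) :
    fA τ (fld.hf τ (i - base)) n = hV L base (eV i) n := by
  obtain ⟨a, ha⟩ := hL
  unfold fld.hf hV eV
  by_cases c0 : i - base = 0
  · rw [if_pos c0, fA_cons, fA_nil, if_pos rfl, ev4_one, add_zero]
    unfold dl
    by_cases h3 : n = 0
    · subst h3
      rw [if_pos rfl, if_neg (by push Not; exact ⟨Even.zero, by rw [Finset.mem_Icc]; omega⟩), if_pos rfl, if_pos (by omega)]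
      simp
    · rw [if_neg h3]
      by_cases e1 : ¬ Even n ∨ n ∉ Finset.Icc (-(L : ℤ)) L
      · rw [if_pos e1]
      · rw [if_neg e1, if_neg h3]
        push Not at e1
        rw [Finset.mem_Icc, Int.even_iff] at e1
        by_cases zp : 0 < n
        · rw [if_pos zp, if_neg (by omega), if_neg (by omega)]; simp
        · rw [if_neg zp, if_neg (by omega), if_neg (by omega)]; simp
  · rw [if_neg c0]
    by_cases c1 : (i - base) % 2 = 1
    · rw [if_pos c1, fA_cons, fA_cons, fA_nil, if_pos rfl, if_pos rfl, ev4_one, add_zero]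
      unfold dl
      by_cases h3 : n = ((i - base + 1 : ℕ) : ℤ)
      · have e1 : ¬ (¬ Even n ∨ n ∉ Finset.Icc (-(L : ℤ)) L) := by
          push Not
          refine ⟨?_, ?_⟩
          · rw [Int.even_iff]; omega
          · rw [Finset.mem_Icc]; omega
        have g2 : ¬ n = -((i - base + 1 : ℕ) : ℤ) := by omega
        have g3 : ¬ n = 0 := by omega
        have g4 : 0 < n := by omega
        have g5 : base + (n.toNat - 1) = i := by omega
        have g6 : ¬ base + n.toNat = i := by omega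
        rw [if_pos h3, if_neg g2, if_neg e1, if_neg g3, if_pos g4, if_pos g5, if_neg g6]
        simp
      · rw [if_neg h3]
        by_cases h4 : n = -((i - base + 1 : ℕ) : ℤ)
        · have e1 : ¬ (¬ Even n ∨ n ∉ Finset.Icc (-(L : ℤ)) L) := by
            push Not
            refine ⟨?_, ?_⟩
            · rw [Int.even_iff]; omega
            · rw [Finset.mem_Icc]; omega
          rw [if_pos h4, if_neg e1, if_neg (by omega), if_neg (by omega), if_pos (by omega), if_neg (by omega)]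
          simp
        · rw [if_neg h4]
          by_cases e1 : ¬ Even n ∨ n ∉ Finset.Icc (-(L : ℤ)) L
          · rw [if_pos e1]; simp
          · rw [if_neg e1]
            push Not at e1
            rw [Finset.mem_Icc, Int.even_iff] at e1
            by_cases z0 : n = 0
            · rw [if_pos z0, if_neg (by omega)]; simp
            · rw [if_neg z0]
              by_cases zp : 0 < n
              · rw [if_pos zp, if_neg (by omega), if_neg (by omega)]; simp
              · rw [if_neg zp, if_neg (by omega), if_neg (by omega)]; simp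
    · rw [if_neg c1, fA_cons, fA_cons, fA_nil, if_pos rfl, if_pos rfl, ev4_I, ev4_nI, add_zero]
      unfold dl
      by_cases h3 : n = ((i - base : ℕ) : ℤ)
      · have e1 : ¬ (¬ Even n ∨ n ∉ Finset.Icc (-(L : ℤ)) L) := by
          push Not
          refine ⟨?_, ?_⟩
          · rw [Int.even_iff]; omega
          · rw [Finset.mem_Icc]; omega
        have g2 : ¬ n = -((i - base : ℕ) : ℤ) := by omega
        have g3 : ¬ n = 0 := by omega
        have g4 : 0 < n := by omega
        have g5 : ¬ base + (n.toNat - 1) = i := by omega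
        have g6 : base + n.toNat = i := by omega
        rw [if_pos h3, if_neg g2, if_neg e1, if_neg g3, if_pos g4, if_neg g5, if_pos g6]
        simp
      · rw [if_neg h3]
        by_cases h4 : n = -((i - base : ℕ) : ℤ)
        · have e1 : ¬ (¬ Even n ∨ n ∉ Finset.Icc (-(L : ℤ)) L) := by
            push Not
            refine ⟨?_, ?_⟩
            · rw [Int.even_iff]; omega
            · rw [Finset.mem_Icc]; omega
          rw [if_pos h4, if_neg e1, if_neg (by omega), if_neg (by omega), if_neg (by omega), if_pos (by omega)]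
          simp
        · rw [if_neg h4]
          by_cases e1 : ¬ Even n ∨ n ∉ Finset.Icc (-(L : ℤ)) L
          · rw [if_pos e1]; simp
          · rw [if_neg e1]
            push Not at e1
            rw [Finset.mem_Icc, Int.even_iff] at e1
            by_cases z0 : n = 0
            · rw [if_pos z0, if_neg (by omega)]; simp
            · rw [if_neg z0]
              by_cases zp : 0 < n
              · rw [if_pos zp, if_neg (by omega), if_neg (by omega)]; simp
              · rw [if_neg zp, if_neg (by omega), if_neg (by omega)]; simp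

/-- outside of its range a hermitian array of a unit vector vanishes -/
theorem hV_out {L base i : ℕ} (h : i < base ∨ base + L < i) (n : ℤ) : hV L base (eV i) n = 0 := by
  unfold hV eV
  by_cases e1 : ¬ Even n ∨ n ∉ Finset.Icc (-(L : ℤ)) L
  · rw [if_pos e1]
  · rw [if_neg e1]
    push Not at e1
    rw [Finset.mem_Icc] at e1
    by_cases z0 : n = 0
    · rw [if_pos z0, if_neg (by omega)]; simp
    · rw [if_neg z0]
      by_cases zp : 0 < n
      · rw [if_pos zp, if_neg (by omega), if_neg (by omega)]; simp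
      · rw [if_neg zp, if_neg (by omega), if_neg (by omega)]; simp

theorem fA_hf_ne {τ τ' : Ty} (h : τ ≠ τ') (c : ℕ) (n : ℤ) : fA τ' (fld.hf τ c) n = 0 := by
  unfold fld.hf
  split_ifs <;> simp [h]

theorem fld_P (K : ℕ) {L : ℕ} (hL : Even L) (i : ℕ) (n : ℤ) : fA Ty.P (fld K L i) n = pV K L (eV i) n := by
  unfold pV fld
  have hb : 1 ≤ bp K := by unfold bp; omega
  by_cases h0 : i = 0
  · rw [if_pos h0, hV_out (Or.inl (by omega))]
    simp
  · rw [if_neg h0]
    by_cases h1 : i < bp K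
    · rw [if_pos h1, hV_out (Or.inl h1)]
      split_ifs <;> simp
    · rw [if_neg h1]
      by_cases h2 : i < br K L
      · rw [if_pos h2]
        exact fld_hf hL Ty.P (bp K) i (by omega) (by unfold br at h2; omega) n
      · rw [if_neg h2, hV_out (Or.inr (by unfold br at h2; omega))]
        exact fA_hf_ne (by decide) _ _

theorem fld_R (K : ℕ) {L : ℕ} (hL : Even L) (i : ℕ) (hi : i < nt K L) (n : ℤ) :
    fA Ty.R (fld K L i) n = rV K L (eV i) n := by
  unfold rV fld
  have hb : 1 ≤ bp K := by unfold bp; omega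
  have hb2 : bp K ≤ br K L := by unfold br; omega
  by_cases h0 : i = 0
  · rw [if_pos h0, hV_out (Or.inl (by omega))]
    simp
  · rw [if_neg h0]
    by_cases h1 : i < bp K
    · rw [if_pos h1, hV_out (Or.inl (by omega))]
      split_ifs <;> simp
    · rw [if_neg h1]
      by_cases h2 : i < br K L
      · rw [if_pos h2, hV_out (Or.inl h2)]
        exact fA_hf_ne (by decide) _ _
      · rw [if_neg h2]
        refine fld_hf hL Ty.R (br K L) i (by omega) ?_ n
        unfold nt at hi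
        unfold br
        omega

/-! ### The columns -/

theorem evL_flat (κ : Ty → ℤ → Z4) {D e1 e2 : ℤ} (hD : D ≠ 0) (l : List (Ty × ℤ × Z4)) (m : ℤ) :
    evL (l.flatMap fun x => termsK κ D e1 e2 x.1 x.2.1 x.2.2) m =
      (D : ℂ) * (ev4 (κ Ty.W m) * wm (((e1 : ℂ) + e2 * Complex.I) / D) (fA Ty.W l) (m - 1)
        + ev4 (κ Ty.S m) * wm (((e1 : ℂ) + e2 * Complex.I) / D) (fA Ty.S l) (m - 1)
        + ev4 (κ Ty.P m) * wm (((e1 : ℂ) + e2 * Complex.I) / D) (fA Ty.P l) (m - 1)
        + ev4 (κ Ty.R m) * wm (((e1 : ℂ) + e2 * Complex.I) / D) (fA Ty.R l) (m - 1)) := by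
  induction l with
  | nil => simp [wm]
  | cons x l ih =>
    rw [List.flatMap_cons, evL_append, ih, evL_terms κ hD]
    obtain ⟨τ, k, g⟩ := x
    unfold wm
    simp only [fA_cons]
    cases τ
    · rw [if_pos rfl, if_pos rfl, if_pos rfl, if_neg (by decide), if_neg (by decide), if_neg (by decide),
        if_neg (by decide), if_neg (by decide), if_neg (by decide), if_neg (by decide), if_neg (by decide), if_neg (by decide)]
      ring
    · rw [if_pos rfl, if_pos rfl, if_pos rfl, if_neg (by decide), if_neg (by decide), if_neg (by decide),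
        if_neg (by decide), if_neg (by decide), if_neg (by decide), if_neg (by decide), if_neg (by decide), if_neg (by decide)]
      ring
    · rw [if_pos rfl, if_pos rfl, if_pos rfl, if_neg (by decide), if_neg (by decide), if_neg (by decide),
        if_neg (by decide), if_neg (by decide), if_neg (by decide), if_neg (by decide), if_neg (by decide), if_neg (by decide)]
      ring
    · rw [if_pos rfl, if_pos rfl, if_pos rfl, if_neg (by decide), if_neg (by decide), if_neg (by decide),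
        if_neg (by decide), if_neg (by decide), if_neg (by decide), if_neg (by decide), if_neg (by decide), if_neg (by decide)]
      ring

theorem om_ee : om = ee (Real.pi / 3) := rfl
theorem omc_ee : (starRingEnd ℂ) om = ee (-(Real.pi / 3)) := by rw [om_ee, ee_neg]
theorem om2_ee : om ^ 2 = ee (2 * (Real.pi / 3)) := by rw [om_ee, sq, ← ee_add]; congr 1; ring
theorem omc2_ee : (starRingEnd ℂ) om ^ 2 = ee (-(2 * (Real.pi / 3))) := by rw [omc_ee, sq, ← ee_add]; congr 1; ring

theorem kq_ev : ev4 (0, 4, 1, 0) = 4 * kq 2 := by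
  unfold ev4 kq
  push_cast
  ring
theorem kqc_ev : ev4 (0, 4, -1, 0) = 4 * (starRingEnd ℂ) (kq 2) := by
  have h : (0, 4, -1, 0) = cj4 ((0, 4, 1, 0) : Z4) := rfl
  rw [h, ev4_cj, kq_ev, map_mul]
  congr 1
  exact Complex.conj_ofReal 4

theorem ev_kap_true (m : ℤ) : ev4 (kap true Ty.W m) = 8 * (ee (-(m : ℝ) * (Real.pi / 3)) * om) ∧
    ev4 (kap true Ty.S m) = 8 * ee (-(m : ℝ) * (Real.pi / 3)) ∧
    ev4 (kap true Ty.P m) = 8 * (ee (-(m : ℝ) * (Real.pi / 3)) * (starRingEnd ℂ) om) ∧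
    ev4 (kap true Ty.R m) = 8 * (ee (-(m : ℝ) * (Real.pi / 3)) * kq 2) := by
  unfold kap
  refine ⟨?_, ?_, ?_, ?_⟩
  · rw [ev4_sc, ev_z2, om_ee, ← ee_add]
    have : (((1 - m : ℤ) : ℝ)) * (Real.pi / 3) = -(m : ℝ) * (Real.pi / 3) + Real.pi / 3 := by push_cast; ring
    rw [this]; push_cast; ring
  · rw [ev4_sc, ev_z2]
    have : (((-m : ℤ) : ℝ)) * (Real.pi / 3) = -(m : ℝ) * (Real.pi / 3) := by push_cast; ring
    rw [this]; push_cast; ring
  · rw [ev4_sc, ev_z2, omc_ee, ← ee_add]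
    have : (((-m - 1 : ℤ) : ℝ)) * (Real.pi / 3) = -(m : ℝ) * (Real.pi / 3) + -(Real.pi / 3) := by push_cast; ring
    rw [this]; push_cast; ring
  · rw [ev4_mul, kq_ev, ev_z2]
    have : (((-m : ℤ) : ℝ)) * (Real.pi / 3) = -(m : ℝ) * (Real.pi / 3) := by push_cast; ring
    rw [this]; ring

theorem ev_kap_false (m : ℤ) : ev4 (kap false Ty.W m) = 8 * (ee (-(m : ℝ) * (2 * Real.pi / 3)) * om ^ 2) ∧
    ev4 (kap false Ty.S m) = -(8 * ee (-(m : ℝ) * (2 * Real.pi / 3))) ∧
    ev4 (kap false Ty.P m) = 8 * (ee (-(m : ℝ) * (2 * Real.pi / 3)) * (starRingEnd ℂ) om ^ 2) ∧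
    ev4 (kap false Ty.R m) = 8 * (ee (-(m : ℝ) * (2 * Real.pi / 3)) * (starRingEnd ℂ) (kq 2)) := by
  unfold kap
  refine ⟨?_, ?_, ?_, ?_⟩
  · rw [ev4_sc, ev_z2, om2_ee, ← ee_add]
    have : (((2 - 2 * m : ℤ) : ℝ)) * (Real.pi / 3) = -(m : ℝ) * (2 * Real.pi / 3) + 2 * (Real.pi / 3) := by push_cast; ring
    rw [this]; push_cast; ring
  · rw [ev4_sc, ev_z2]
    have : (((-2 * m : ℤ) : ℝ)) * (Real.pi / 3) = -(m : ℝ) * (2 * Real.pi / 3) := by push_cast; ring
    rw [this]; push_cast; ring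
  · rw [ev4_sc, ev_z2, omc2_ee, ← ee_add]
    have : (((-2 * m - 2 : ℤ) : ℝ)) * (Real.pi / 3) = -(m : ℝ) * (2 * Real.pi / 3) + -(2 * (Real.pi / 3)) := by push_cast; ring
    rw [this]; push_cast; ring
  · rw [ev4_mul, kqc_ev, ev_z2]
    have : (((-2 * m : ℤ) : ℝ)) * (Real.pi / 3) = -(m : ℝ) * (2 * Real.pi / 3) := by push_cast; ring
    rw [this]; ring

/-- the coefficients of the weight -/
theorem wc_dl (η : ℂ) (n : ℤ) : wc (wR η 0 0) n = wm η (dl 0 1) n := by
  have h1 : BM (fun _ : ℝ => (1 : ℂ)) 1 := ⟨measurable_const, fun _ => by simp⟩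
  have e : wc (wR η 0 0) n = wm η (fc fun _ => 1) n := by
    rw [← fc_w η h1]
    unfold wc
    congr 1
    funext t
    rw [mul_one]
  have e1 : (fc fun _ : ℝ => (1 : ℂ)) = dl 0 1 := by
    funext m
    have h := fc_ee 0 m
    simp only [Int.cast_zero, zero_mul, ee_zero] at h
    rw [h]
    unfold dl
    by_cases hm : m = 0
    · subst hm; simp
    · rw [if_neg hm, if_neg (Ne.symm hm)]
  rw [e, e1]

section

variable {P : Par} {K L : ℕ} {D e1 e2 : ℤ}

/-- the homogeneous parts -/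
theorem lin_C (κ : Ty → ℤ → Z4) (η : ℂ) (m : ℤ) : Lin (nt K L) (fun v =>
    ev4 (κ Ty.S m) * wm η (sV K v) (m - 1) + ev4 (κ Ty.P m) * wm η (pV K L v) (m - 1)
      + ev4 (κ Ty.R m) * wm η (rV K L v) (m - 1)) :=
  (((lin_wm (fun n => lin_sV K L n) η (m - 1)).cmul _).add ((lin_wm (fun n => lin_pV K L n) η (m - 1)).cmul _)).add
    ((lin_wm (fun n => lin_rV K L n) η (m - 1)).cmul _)

/-- **the columns, general coefficients** -/
theorem col_gen (κ : Ty → ℤ → Z4) (hK : ¬ Even K) (hL : Even L) (hD : D ≠ 0) (m : ℤ) (v : ℕ → ℝ) (hv : v 0 = 1) :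
    (D : ℂ) * (ev4 (κ Ty.W m) * wm (((e1 : ℂ) + e2 * Complex.I) / D) (dl 0 1) (m - 1)
      + (ev4 (κ Ty.S m) * wm (((e1 : ℂ) + e2 * Complex.I) / D) (sV K v) (m - 1)
        + ev4 (κ Ty.P m) * wm (((e1 : ℂ) + e2 * Complex.I) / D) (pV K L v) (m - 1)
        + ev4 (κ Ty.R m) * wm (((e1 : ℂ) + e2 * Complex.I) / D) (rV K L v) (m - 1))) =
      ∑ i ∈ Finset.range (nt K L), (v i : ℂ) * evL (colK κ K L D e1 e2 i) m := by
  have hl := lin_C (K := K) (L := L) κ (((e1 : ℂ) + e2 * Complex.I) / D) m v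
  beta_reduce at hl
  rw [hl]
  clear hl
  set η : ℂ := ((e1 : ℂ) + e2 * Complex.I) / D with hη
  have h0 : ∀ i ∈ Finset.range (nt K L), (v i : ℂ) * evL (colK κ K L D e1 e2 i) m =
      (D : ℂ) * ((v i : ℂ) * (ev4 (κ Ty.W m) * wm η (fun n => if i = 0 then dl 0 1 n else 0) (m - 1)))
      + (D : ℂ) * ((v i : ℂ) * (ev4 (κ Ty.S m) * wm η (sV K (eV i)) (m - 1) + ev4 (κ Ty.P m) * wm η (pV K L (eV i)) (m - 1)
      + ev4 (κ Ty.R m) * wm η (rV K L (eV i)) (m - 1))) := by
    intro i hi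
    have hi' := Finset.mem_range.1 hi
    unfold colK
    rw [evL_flat κ hD, ← hη]
    have w1 : fA Ty.W (fld K L i) = fun n => if i = 0 then dl 0 1 n else 0 := funext (fld_W K L i)
    have w2 : fA Ty.S (fld K L i) = sV K (eV i) := funext (fld_S hK L i)
    have w3 : fA Ty.P (fld K L i) = pV K L (eV i) := funext (fld_P K hL i)
    have w4 : fA Ty.R (fld K L i) = rV K L (eV i) := funext (fld_R K hL i hi')
    rw [w1, w2, w3, w4]
    ring
  rw [Finset.sum_congr rfl h0, Finset.sum_add_distrib, ← Finset.mul_sum, ← Finset.mul_sum, mul_add]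
  congr 2
  have hn : 0 < nt K L := by unfold nt bp; omega
  rw [Finset.sum_eq_single 0]
  · simp [hv]
  · intro i _ hi
    have : wm η (fun n => if i = 0 then dl 0 1 n else 0) (m - 1) = 0 := by
      unfold wm
      simp [hi]
    rw [this]
    ring
  · intro h'; exact absurd (Finset.mem_range.2 hn) h'

/-- **the columns of `C1`** -/
theorem col_C1 (hK : ¬ Even K) (hL : Even L) (hD : D ≠ 0) (hη : P.eta = ((e1 : ℂ) + e2 * Complex.I) / D) (m : ℤ)
    (v : ℕ → ℝ) (hv : v 0 = 1) : (8 * D : ℂ) * C1 P (pV K L v) (rV K L v) (sV K v) m =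
      ∑ i ∈ Finset.range (nt K L), (v i : ℂ) * evL (colL true K L D e1 e2 i) m := by
  unfold colL
  rw [← col_gen (kap true) hK hL hD m v hv, ← hη]
  obtain ⟨k1, k2, k3, k4⟩ := ev_kap_true m
  rw [k1, k2, k3, k4]
  unfold C1 c1 Par.w
  rw [wc_dl]
  ring

/-- **the columns of `C2`** -/
theorem col_C2 (hK : ¬ Even K) (hL : Even L) (hD : D ≠ 0) (hη : P.eta = ((e1 : ℂ) + e2 * Complex.I) / D) (m : ℤ)
    (v : ℕ → ℝ) (hv : v 0 = 1) : (8 * D : ℂ) * C2 P (pV K L v) (rV K L v) (sV K v) m =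
      ∑ i ∈ Finset.range (nt K L), (v i : ℂ) * evL (colL false K L D e1 e2 i) m := by
  unfold colL
  rw [← col_gen (kap false) hK hL hD m v hv, ← hη]
  obtain ⟨k1, k2, k3, k4⟩ := ev_kap_false m
  rw [k1, k2, k3, k4]
  unfold C2 c2 Par.w
  rw [wc_dl]
  ring

/-! ### The edge frame -/

/-- `4` times the coefficients of `G1A` (`true`), `G2A` (`false`) -/
def kG (f : Bool) (τ : Ty) : Z4 :=
  match f, τ with
  | true, Ty.W => (2, 0, 0, 2)
  | true, Ty.S => (4, 0, 0, 0)
  | true, Ty.P => (2, 0, 0, -2)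
  | true, Ty.R => (0, 4, 1, 0)
  | false, Ty.W => (-2, 0, 0, 2)
  | false, Ty.S => (-4, 0, 0, 0)
  | false, Ty.P => (-2, 0, 0, -2)
  | false, Ty.R => (0, 4, -1, 0)

theorem ev_kG_true : ev4 (kG true Ty.W) = 4 * om ∧ ev4 (kG true Ty.S) = 4 ∧
    ev4 (kG true Ty.P) = 4 * (starRingEnd ℂ) om ∧ ev4 (kG true Ty.R) = 4 * kq 2 := by
  refine ⟨?_, ?_, ?_, kq_ev⟩
  · rw [om_val]; unfold kG ev4; push_cast; ring
  · unfold kG ev4; push_cast; ring
  · rw [om_conj]; unfold kG ev4; push_cast; ring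

theorem ev_kG_false : ev4 (kG false Ty.W) = 4 * om ^ 2 ∧ ev4 (kG false Ty.S) = -4 ∧
    ev4 (kG false Ty.P) = 4 * (starRingEnd ℂ) om ^ 2 ∧ ev4 (kG false Ty.R) = 4 * (starRingEnd ℂ) (kq 2) := by
  refine ⟨?_, ?_, ?_, kqc_ev⟩
  · rw [om_sq]; unfold kG ev4; push_cast; ring
  · unfold kG ev4; push_cast; ring
  · rw [om_conj_sq]; unfold kG ev4; push_cast; ring

/-- **the columns of `G1A`** -/
theorem col_G1 (hK : ¬ Even K) (hL : Even L) (hD : D ≠ 0) (hη : P.eta = ((e1 : ℂ) + e2 * Complex.I) / D) (m : ℤ)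
    (v : ℕ → ℝ) (hv : v 0 = 1) : (4 * D : ℂ) * G1A P (pV K L v) (rV K L v) (sV K v) (m - 1) =
      ∑ i ∈ Finset.range (nt K L), (v i : ℂ) * evL (colK (fun τ _ => kG true τ) K L D e1 e2 i) m := by
  rw [← col_gen (fun τ _ => kG true τ) hK hL hD m v hv, ← hη]
  obtain ⟨k1, k2, k3, k4⟩ := ev_kG_true
  rw [k1, k2, k3, k4]
  unfold G1A Par.w
  rw [wc_dl]
  ring

/-- **the columns of `G2A`** -/
theorem col_G2 (hK : ¬ Even K) (hL : Even L) (hD : D ≠ 0) (hη : P.eta = ((e1 : ℂ) + e2 * Complex.I) / D) (m : ℤ)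
    (v : ℕ → ℝ) (hv : v 0 = 1) : (4 * D : ℂ) * G2A P (pV K L v) (rV K L v) (sV K v) (m - 1) =
      ∑ i ∈ Finset.range (nt K L), (v i : ℂ) * evL (colK (fun τ _ => kG false τ) K L D e1 e2 i) m := by
  rw [← col_gen (fun τ _ => kG false τ) hK hL hD m v hv, ← hη]
  obtain ⟨k1, k2, k3, k4⟩ := ev_kG_false
  rw [k1, k2, k3, k4]
  unfold G2A Par.w
  rw [wc_dl]
  ring

/-- `8 ee (m π/3)` times the coefficients of `G1A`, `8 ee (-m π/3)` times the coefficients of `G2A` -/
def kH (f : Bool) (τ : Ty) (m : ℤ) : Z4 := mul4 (kG f τ) (z2 (bif f then m else -m))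

/-- the columns with the phases of the kernel of the shift form -/
theorem col_H1 (hK : ¬ Even K) (hL : Even L) (hD : D ≠ 0) (hη : P.eta = ((e1 : ℂ) + e2 * Complex.I) / D) (m : ℤ)
    (v : ℕ → ℝ) (hv : v 0 = 1) : (8 * D : ℂ) * (ee ((m : ℝ) * (Real.pi / 3)) * G1A P (pV K L v) (rV K L v) (sV K v) (m - 1)) =
      ∑ i ∈ Finset.range (nt K L), (v i : ℂ) * evL (colK (kH true) K L D e1 e2 i) m := by
  rw [← col_gen (kH true) hK hL hD m v hv, ← hη]
  obtain ⟨k1, k2, k3, k4⟩ := ev_kG_true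
  unfold kH
  rw [ev4_mul, ev4_mul, ev4_mul, ev4_mul, k1, k2, k3, k4, cond_true, ev_z2]
  unfold G1A Par.w
  rw [wc_dl]
  ring

theorem col_H2 (hK : ¬ Even K) (hL : Even L) (hD : D ≠ 0) (hη : P.eta = ((e1 : ℂ) + e2 * Complex.I) / D) (m : ℤ)
    (v : ℕ → ℝ) (hv : v 0 = 1) : (8 * D : ℂ) * (ee (-((m : ℝ) * (Real.pi / 3))) * G2A P (pV K L v) (rV K L v) (sV K v) (m - 1)) =
      ∑ i ∈ Finset.range (nt K L), (v i : ℂ) * evL (colK (kH false) K L D e1 e2 i) m := by
  rw [← col_gen (kH false) hK hL hD m v hv, ← hη]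
  obtain ⟨k1, k2, k3, k4⟩ := ev_kG_false
  unfold kH
  rw [ev4_mul, ev4_mul, ev4_mul, ev4_mul, k1, k2, k3, k4, cond_false, ev_z2]
  have : (((-m : ℤ) : ℝ)) * (Real.pi / 3) = -((m : ℝ) * (Real.pi / 3)) := by push_cast; ring
  rw [this]
  unfold G2A Par.w
  rw [wc_dl]
  ring

end

end Helper85.NS
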