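import Pool.Agent.Helper85.NS.WL

/-!
# Project RC, SHARP, cell engine: fast evaluation of one harmonic

Natural numbers only (offsets), one packed row per harmonic and type; the coordinates are sums and rotations of at most two of
them. `hRow_eq`: the fast row is the row of `row_err`.
-/

set_option autoImplicit false

namespace Helper85.NS

open Helper54.RC.Fast hiding ps
open Helper96.SH Helper95.SH
open Pool.Agent.Helper40.NR (Z4 ev4 mul4)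

/-! ### Computable parts -/

/-- canonical argument (for the cache of the kernel) -/
def nrm {α : Type} (n : ℕ) (F : ℕ → α) : α :=
  match n with
  | 0 => F 0
  | k + 1 => F (Nat.succ k)

theorem nrm_eq {α : Type} (n : ℕ) (F : ℕ → α) : nrm n F = F n := by cases n <;> rfl

/-- the codes `u + U`, `v + U`, `U - v` -/
def cd3 (U : ℕ) (w : ℤ × ℤ) : ℕ × ℕ × ℕ :=
  (Int.toNat (Int.add w.1 (Int.ofNat U)), Int.toNat (Int.add w.2 (Int.ofNat U)), Int.toNat (Int.sub (Int.ofNat U) w.2))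

def rs6 (f : Bool) (W k : ℕ) : ℕ := Nat.mod (bif f then Nat.add k (Nat.mul 5 W) else Nat.add W (Nat.mul 5 k)) 6
def sgW (W k : ℕ) : ℤ := bif Nat.ble (Nat.succ W) k then Int.ofNat 1 else Int.negSucc 0
def abW (W k : ℕ) : ℕ := Nat.add (Nat.sub k W) (Nat.sub W k)

def CH0 (f : Bool) (s R U W : ℕ) (τ : Ty) (k : ℕ) : ℕ × ℕ × ℕ :=
  four (fun t => six (fun r => cd3 U (rdP s R 1 8 (mul4 (kG f t) (zt r)))) (rs6 f W k)) τ
def CH1 (f : Bool) (s R D : ℕ) (e1 e2 : ℤ) (U W : ℕ) (τ : Ty) (k : ℕ) : ℕ × ℕ × ℕ :=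
  four (fun t => six (fun r => cd3 U (rdP s R 1 (Nat.mul 8 D) (mE (mul4 (kG f t) (zt r)) e1 e2))) (rs6 f W k)) τ
def CG0 (f : Bool) (s R U : ℕ) (τ : Ty) : ℕ × ℕ × ℕ := four (fun t => cd3 U (rdP s R 1 4 (kG f t))) τ
def CG1 (f : Bool) (s R D : ℕ) (e1 e2 : ℤ) (U : ℕ) (τ : Ty) : ℕ × ℕ × ℕ :=
  four (fun t => cd3 U (rdP s R 1 (Nat.mul 4 D) (mE (kG f t) e1 e2))) τ
def CD0 (f : Bool) (s R U W : ℕ) (τ : Ty) (k : ℕ) : ℕ × ℕ × ℕ :=
  four (fun t => cd3 U (rdP s R (sgW W k) (Nat.mul 4 (abW W k)) (kG f t))) τ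
def CD1 (f : Bool) (s R D : ℕ) (e1 e2 : ℤ) (U W : ℕ) (τ : Ty) (k : ℕ) : ℕ × ℕ × ℕ :=
  four (fun t => cd3 U (rdP s R (sgW W k) (Nat.mul (Nat.mul 4 D) (abW W k)) (mE (kG f t) e1 e2))) τ

/-- three sparse entries at the positions `0, 2, 4` -/
def p3 (b c2 c0 c1 : ℕ) : ℕ :=
  Nat.add c2 (Nat.mul (Nat.pow (Nat.pow 2 (Nat.succ b)) 2) (Nat.add c0 (Nat.mul (Nat.pow (Nat.pow 2 (Nat.succ b)) 2) c1)))

/-- sparse part added -/
def asp (b U pos X c2 c0 c1 : ℕ) : ℕ :=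
  Nat.sub (Nat.add X (Nat.mul (Nat.pow (Nat.pow 2 (Nat.succ b)) pos) (p3 b c2 c0 c1)))
    (Nat.mul (Nat.pow (Nat.pow 2 (Nat.succ b)) pos) (p3 b U U U))

/-- `∑ (a_j - U) (x_j - O) + (n_j - U) (y_j - O) + O`, `S` the sum of all `x_j`, `y_j` -/
def hx (O U a0 x0 n0 y0 a1 x1 n1 y1 a2 x2 n2 y2 S : ℕ) : ℕ :=
  Nat.sub (Nat.add (Nat.add (Nat.add (Nat.mul a0 x0) (Nat.mul n0 y0)) (Nat.add (Nat.add (Nat.mul a1 x1) (Nat.mul n1 y1))
      (Nat.add (Nat.mul a2 x2) (Nat.mul n2 y2)))) (Nat.mul (Nat.succ (Nat.mul 6 U)) O))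
    (Nat.add (Nat.mul U S) (Nat.mul (Nat.add (Nat.add a0 n0) (Nat.add (Nat.add a1 n1) (Nat.add a2 n2))) O))

def sm3 (z0 z1 z2 : FP) : ℕ := Nat.add (Nat.add z0.x z0.y) (Nat.add (Nat.add z1.x z1.y) (Nat.add z2.x z2.y))

/-- one harmonic -/
def mk3 (b s N U pos : ℕ) (z0 z1 z2 : FP) (c0 c1 c2 d0 d1 d2 : ℕ × ℕ × ℕ) : FP :=
  ⟨N, asp b U pos (fl b s (on b (len N)) (hx (of b (len N)) U c0.1 z0.x c0.2.2 z0.y c1.1 z1.x c1.2.2 z1.y c2.1 z2.x c2.2.2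
      z2.y (sm3 z0 z1 z2))) d2.1 d0.1 d1.1,
    asp b U pos (fl b s (on b (len N)) (hx (of b (len N)) U c0.1 z0.y c0.2.1 z0.x c1.1 z1.y c1.2.1 z1.x c2.1 z2.y c2.2.1
      z2.x (sm3 z0 z1 z2))) d2.2.1 d0.2.1 d1.2.1⟩

/-- the harmonic `l = p - W` of the type `τ` in `gB` (`f = true`), `gA` (`f = false`) -/
def hRow (f : Bool) (b s R N W D : ℕ) (e1 e2 : ℤ) (T : ℕ → FP) (τ : Ty) (p : ℕ) : FP :=
  mk3 b s N (Nat.pow 2 (Nat.add s 3)) (Nat.sub (Nat.add p (Nat.sub N 2)) W) (nrm (Nat.add p 1) T) (nrm (Nat.add p 3) T)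
    (nrm (Nat.sub p 1) T) (CH0 f s R (Nat.pow 2 (Nat.add s 3)) W τ (Nat.add p 1))
    (CH1 f s R D e1 e2 (Nat.pow 2 (Nat.add s 3)) W τ (Nat.add p 3))
    (CH1 f s R D e1 (Int.neg e2) (Nat.pow 2 (Nat.add s 3)) W τ (Nat.sub p 1))
    (CD0 (not f) s R (Nat.pow 2 (Nat.add s 3)) W τ (Nat.add p 1))
    (CD1 (not f) s R D e1 e2 (Nat.pow 2 (Nat.add s 3)) W τ (Nat.add p 3))
    (CD1 (not f) s R D e1 (Int.neg e2) (Nat.pow 2 (Nat.add s 3)) W τ (Nat.sub p 1))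

/-- the harmonic `l = p - N` of the type `τ` in `G1A` (`f = true`), `G2A` (`f = false`) -/
def hSpa (f : Bool) (b s R N D : ℕ) (e1 e2 : ℤ) (τ : Ty) (p : ℕ) : FP :=
  ⟨N, asp b (Nat.pow 2 (Nat.add s 3)) (Nat.sub p 2) (of b (len N)) (CG1 f s R D e1 (Int.neg e2) (Nat.pow 2 (Nat.add s 3)) τ).1
      (CG0 f s R (Nat.pow 2 (Nat.add s 3)) τ).1 (CG1 f s R D e1 e2 (Nat.pow 2 (Nat.add s 3)) τ).1,
    asp b (Nat.pow 2 (Nat.add s 3)) (Nat.sub p 2) (of b (len N)) (CG1 f s R D e1 (Int.neg e2) (Nat.pow 2 (Nat.add s 3)) τ).2.1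
      (CG0 f s R (Nat.pow 2 (Nat.add s 3)) τ).2.1 (CG1 f s R D e1 e2 (Nat.pow 2 (Nat.add s 3)) τ).2.1⟩

/-- `i z` -/
def rotF (b N : ℕ) (z : FP) : FP := ⟨N, Nat.sub (Nat.mul 2 (of b (len N))) z.y, z.x⟩
/-- `z + z'` -/
def addF (b N : ℕ) (z z' : FP) : FP := ⟨N, Nat.sub (Nat.add z.x z'.x) (of b (len N)), Nat.sub (Nat.add z.y z'.y) (of b (len N))⟩
/-- `i (z - z')` -/
def msF (b N : ℕ) (z z' : FP) : FP := ⟨N, Nat.sub (Nat.add z'.y (of b (len N))) z.y, Nat.sub (Nat.add z.x (of b (len N))) z'.x⟩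

/-- hermitian coordinates -/
def rowHf (b N W : ℕ) (H : ℕ → FP) (c : ℕ) : FP :=
  bif Nat.beq c 0 then H W
  else bif Nat.beq (Nat.mod c 2) 1 then addF b N (nrm (Nat.add W (Nat.succ c)) H) (nrm (Nat.sub W (Nat.succ c)) H)
  else msF b N (nrm (Nat.add W c) H) (nrm (Nat.sub W c) H)

/-- the coordinate `i` from the harmonics `H τ (l + W)` -/
def rowJ (b N W K L : ℕ) (H : Ty → ℕ → FP) (i : ℕ) : FP :=
  bif Nat.beq i 0 then H Ty.W W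
  else bif Nat.ble (Nat.succ i) (bp K) then
    (bif Nat.beq (Nat.mod (Nat.sub i 1) 2) 0 then nrm (Nat.add (Nat.sub i 1) (Nat.sub W K)) (H Ty.S)
      else rotF b N (nrm (Nat.add (Nat.sub i 2) (Nat.sub W K)) (H Ty.S)))
  else (bif Nat.ble (Nat.succ i) (br K L) then rowHf b N W (H Ty.P) (Nat.sub i (bp K))
    else rowHf b N W (H Ty.R) (Nat.sub i (br K L)))

/-! ### Codes -/

theorem rs6_eq (f : Bool) (W k : ℕ) : rs6 f W k = res f ((k : ℤ) - W) := by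
  cases f
  · show (W + 5 * k) % 6 = ((-((k : ℤ) - W)) % 6).toNat
    omega
  · show (k + 5 * W) % 6 = (((k : ℤ) - W) % 6).toNat
    omega

theorem CH0_eq (f : Bool) (s R U W : ℕ) (τ : Ty) (k : ℕ) :
    CH0 f s R U W τ k = cd3 U (WH0 f s R τ ((k : ℤ) - W)) := by
  unfold CH0 WH0
  rw [four_eq, four_eq, rs6_eq, six_eq _ (res_lt f _), six_eq _ (res_lt f _)]

theorem CH1_eq (f : Bool) (s R D : ℕ) (e1 e2 : ℤ) (U W : ℕ) (τ : Ty) (k : ℕ) :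
    CH1 f s R D e1 e2 U W τ k = cd3 U (WH1 f s R D e1 e2 τ ((k : ℤ) - W)) := by
  unfold CH1 WH1
  rw [four_eq, four_eq, rs6_eq, six_eq _ (res_lt f _), six_eq _ (res_lt f _)]

theorem CG0_eq (f : Bool) (s R U : ℕ) (τ : Ty) (m : ℤ) : CG0 f s R U τ = cd3 U (WG0 f s R τ m) := by
  unfold CG0 WG0
  rw [four_eq, four_eq]

theorem CG1_eq (f : Bool) (s R D : ℕ) (e1 e2 : ℤ) (U : ℕ) (τ : Ty) (m : ℤ) :
    CG1 f s R D e1 e2 U τ = cd3 U (WG1 f s R D e1 e2 τ m) := by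
  unfold CG1 WG1
  rw [four_eq, four_eq]

theorem rd_q0 (s R : ℕ) (p : ℤ) (q : ℕ) (a b : ℤ) (h : q = 0) : rd s R p q a b = 0 := by
  subst h
  exact Int.ediv_zero _

theorem rdP_sg (s R q W k : ℕ) (c : Z4) :
    rdP s R (sgW W k) (Nat.mul q (abW W k)) c = rdP s R (Int.sign ((k : ℤ) - W)) (Nat.mul q ((k : ℤ) - W).natAbs) c := by
  have e2 : abW W k = ((k : ℤ) - W).natAbs := by
    show (k - W) + (W - k) = _
    omega
  rcases lt_trichotomy W k with h | h | h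
  · have e1 : sgW W k = 1 := by
      unfold sgW
      rw [ble_true h]
      rfl
    rw [e1, e2, Int.sign_eq_one_of_pos (show (0 : ℤ) < (k : ℤ) - W by omega)]
  · subst h
    have e3 : ((W : ℤ) - W) = 0 := sub_self _
    rw [e2, e3]
    have h0 : Nat.mul q (Int.natAbs 0) = 0 := Nat.mul_zero q
    rw [h0]
    unfold rdP
    rw [rd_q0 _ _ _ _ _ _ rfl, rd_q0 _ _ _ _ _ _ rfl, rd_q0 _ _ _ _ _ _ rfl, rd_q0 _ _ _ _ _ _ rfl]
  · have e1 : sgW W k = -1 := by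
      unfold sgW
      rw [ble_false (show ¬ W < k by omega)]
      rfl
    rw [e1, e2, Int.sign_eq_neg_one_of_neg (show (k : ℤ) - W < 0 by omega)]

theorem CD0_eq (f : Bool) (s R U W : ℕ) (τ : Ty) (k : ℕ) :
    CD0 f s R U W τ k = cd3 U (WD0 f s R τ ((k : ℤ) - W)) := by
  unfold CD0 WD0
  rw [four_eq, four_eq, rdP_sg]

theorem CD1_eq (f : Bool) (s R D : ℕ) (e1 e2 : ℤ) (U W : ℕ) (τ : Ty) (k : ℕ) :
    CD1 f s R D e1 e2 U W τ k = cd3 U (WD1 f s R D e1 e2 τ ((k : ℤ) - W)) := by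
  unfold CD1 WD1
  rw [four_eq, four_eq, rdP_sg]

/-- small pairs -/
def Bd (U : ℕ) (w : ℤ × ℤ) : Prop := |w.1| ≤ U ∧ |w.2| ≤ U

theorem cd3_1 {U : ℕ} {w : ℤ × ℤ} (h : Bd U w) : ((cd3 U w).1 : ℤ) = w.1 + U := by
  have h1 := abs_le.1 h.1
  show (((w.1 + (U : ℤ)).toNat : ℕ) : ℤ) = _
  omega
theorem cd3_2 {U : ℕ} {w : ℤ × ℤ} (h : Bd U w) : ((cd3 U w).2.1 : ℤ) = w.2 + U := by
  have h1 := abs_le.1 h.2
  show (((w.2 + (U : ℤ)).toNat : ℕ) : ℤ) = _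
  omega
theorem cd3_3 {U : ℕ} {w : ℤ × ℤ} (h : Bd U w) : ((cd3 U w).2.2 : ℤ) = -w.2 + U := by
  have h1 := abs_le.1 h.2
  show ((((U : ℤ) - w.2).toNat : ℕ) : ℤ) = _
  omega

theorem Ap.bd {s : ℕ} {w : ℤ × ℤ} {z : ℂ} (h : Ap s w z) : Bd (2 ^ (s + 3)) w := by
  obtain ⟨h1, h2⟩ := h
  have hs : (1 : ℝ) ≤ 2 ^ s := one_le_pow₀ (by norm_num)
  have h3 : ‖((w.1 : ℂ) + Complex.I * (w.2 : ℂ))‖ ≤ 2 ^ (s + 3) := by
    have e : ((w.1 : ℂ) + Complex.I * (w.2 : ℂ)) = (((w.1 : ℂ) + Complex.I * (w.2 : ℂ)) - 2 ^ s * z) + 2 ^ s * z := by ring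
    rw [e]
    refine (norm_add_le _ _).trans ?_
    rw [norm_mul, norm_pow, Complex.norm_ofNat, pow_add]
    nlinarith
  have r1 := (Complex.abs_re_le_norm _).trans h3
  have r2 := (Complex.abs_im_le_norm _).trans h3
  rw [(re_int _ _).1] at r1
  rw [(re_int _ _).2] at r2
  constructor
  · have : ((|w.1| : ℤ) : ℝ) ≤ (((2 ^ (s + 3) : ℕ) : ℤ) : ℝ) := by
      push_cast
      exact r1
    exact_mod_cast this
  · have : ((|w.2| : ℤ) : ℝ) ≤ (((2 ^ (s + 3) : ℕ) : ℤ) : ℝ) := by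
      push_cast
      exact r2
    exact_mod_cast this

/-! ### The fast row is the row -/

theorem hx_eq {O U a0 n0 a1 n1 a2 n2 : ℕ} {u0 t0 u1 t1 u2 t2 : ℤ} (x0 y0 x1 y1 x2 y2 : ℕ) {S : ℕ}
    (hS : S = (x0 + y0) + ((x1 + y1) + (x2 + y2)))
    (ha0 : (a0 : ℤ) = u0 + U) (hn0 : (n0 : ℤ) = t0 + U) (ha1 : (a1 : ℤ) = u1 + U) (hn1 : (n1 : ℤ) = t1 + U)
    (ha2 : (a2 : ℤ) = u2 + U) (hn2 : (n2 : ℤ) = t2 + U) :
    hx O U a0 x0 n0 y0 a1 x1 n1 y1 a2 x2 n2 y2 S =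
      ((u0 * ((x0 : ℤ) - O) + t0 * ((y0 : ℤ) - O)) + ((u1 * ((x1 : ℤ) - O) + t1 * ((y1 : ℤ) - O)) +
        ((u2 * ((x2 : ℤ) - O) + t2 * ((y2 : ℤ) - O)) + 0)) + O).toNat := by
  subst hS
  have e1 : hx O U a0 x0 n0 y0 a1 x1 n1 y1 a2 x2 n2 y2 ((x0 + y0) + ((x1 + y1) + (x2 + y2))) =
      ((a0 * x0 + n0 * y0) + ((a1 * x1 + n1 * y1) + (a2 * x2 + n2 * y2)) + (6 * U + 1) * O) -
      (U * ((x0 + y0) + ((x1 + y1) + (x2 + y2))) + ((a0 + n0) + ((a1 + n1) + (a2 + n2))) * O) := rfl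
  rw [e1, ← Int.toNat_sub]
  congr 1
  push_cast
  rw [ha0, hn0, ha1, hn1, ha2, hn2]
  ring

theorem p3_eq (b c2 c0 c1 : ℕ) : ((p3 b c2 c0 c1 : ℕ) : ℤ) = c2 + (2 ^ (b + 1)) ^ 2 * (c0 + (2 ^ (b + 1)) ^ 2 * c1) := by
  have : p3 b c2 c0 c1 = c2 + (2 ^ (b + 1)) ^ 2 * (c0 + (2 ^ (b + 1)) ^ 2 * c1) := rfl
  rw [this]
  push_cast
  ring

theorem asp_eq {b U c2 c0 c1 : ℕ} {u2 u0 u1 : ℤ} (pos X : ℕ) (h2 : (c2 : ℤ) = u2 + U) (h0 : (c0 : ℤ) = u0 + U)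
    (h1 : (c1 : ℤ) = u1 + U) :
    asp b U pos X c2 c0 c1 = ((X : ℤ) + (u0 * (((2 ^ (b + 1)) ^ (pos + 2) : ℕ) : ℤ) + (u1 * (((2 ^ (b + 1)) ^ (pos + 4) : ℕ) : ℤ) +
      (u2 * (((2 ^ (b + 1)) ^ pos : ℕ) : ℤ) + 0)))).toNat := by
  have e1 : asp b U pos X c2 c0 c1 = (X + (2 ^ (b + 1)) ^ pos * p3 b c2 c0 c1) - (2 ^ (b + 1)) ^ pos * p3 b U U U := rfl
  rw [e1, ← Int.toNat_sub]
  congr 1
  push_cast
  rw [p3_eq, p3_eq, h2, h0, h1]
  rw [pow_add, pow_add]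
  ring

theorem accX_tL {b N W : ℕ} {T : ℕ → FP} {p : ℕ} (hp : 1 ≤ p) (A0 A1 A2 : ℤ → ℤ × ℤ) {w0 w1 w2 : ℤ × ℤ}
    (g0 : A0 ((p : ℤ) - W + 1) = w0) (g1 : A1 ((p : ℤ) - W + 3) = w1) (g2 : A2 ((p : ℤ) - W - 1) = w2) :
    accX b N W T (tL A0 A1 A2 ((p : ℤ) - W)) =
      (w0.1 * (((T (p + 1)).x : ℤ) - (of b (len N) : ℕ)) + -w0.2 * (((T (p + 1)).y : ℤ) - (of b (len N) : ℕ))) +
      ((w1.1 * (((T (p + 3)).x : ℤ) - (of b (len N) : ℕ)) + -w1.2 * (((T (p + 3)).y : ℤ) - (of b (len N) : ℕ))) +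
      ((w2.1 * (((T (p - 1)).x : ℤ) - (of b (len N) : ℕ)) + -w2.2 * (((T (p - 1)).y : ℤ) - (of b (len N) : ℕ))) + 0)) ∧
    accY b N W T (tL A0 A1 A2 ((p : ℤ) - W)) =
      (w0.1 * (((T (p + 1)).y : ℤ) - (of b (len N) : ℕ)) + w0.2 * (((T (p + 1)).x : ℤ) - (of b (len N) : ℕ))) +
      ((w1.1 * (((T (p + 3)).y : ℤ) - (of b (len N) : ℕ)) + w1.2 * (((T (p + 3)).x : ℤ) - (of b (len N) : ℕ))) +
      ((w2.1 * (((T (p - 1)).y : ℤ) - (of b (len N) : ℕ)) + w2.2 * (((T (p - 1)).x : ℤ) - (of b (len N) : ℕ))) + 0)) := by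
  have i0 : ix W ((p : ℤ) - W + 1) = p + 1 := by
    show ((p : ℤ) - W + 1 + (W : ℤ)).toNat = _
    omega
  have i1 : ix W ((p : ℤ) - W + 3) = p + 3 := by
    show ((p : ℤ) - W + 3 + (W : ℤ)).toNat = _
    omega
  have i2 : ix W ((p : ℤ) - W - 1) = p - 1 := by
    show ((p : ℤ) - W - 1 + (W : ℤ)).toNat = _
    omega
  have sg : ∀ X : ℕ, sgn b N X = (X : ℤ) - (of b (len N) : ℕ) := fun X => rfl
  unfold tL
  rw [g0, g1, g2]
  constructor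
  · show (w0.1 * sgn b N (T (ix W ((p : ℤ) - W + 1))).x - w0.2 * sgn b N (T (ix W ((p : ℤ) - W + 1))).y) +
      ((w1.1 * sgn b N (T (ix W ((p : ℤ) - W + 3))).x - w1.2 * sgn b N (T (ix W ((p : ℤ) - W + 3))).y) +
      ((w2.1 * sgn b N (T (ix W ((p : ℤ) - W - 1))).x - w2.2 * sgn b N (T (ix W ((p : ℤ) - W - 1))).y) + 0)) = _
    rw [i0, i1, i2]
    simp only [sg]
    ring
  · show (w0.1 * sgn b N (T (ix W ((p : ℤ) - W + 1))).y + w0.2 * sgn b N (T (ix W ((p : ℤ) - W + 1))).x) +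
      ((w1.1 * sgn b N (T (ix W ((p : ℤ) - W + 3))).y + w1.2 * sgn b N (T (ix W ((p : ℤ) - W + 3))).x) +
      ((w2.1 * sgn b N (T (ix W ((p : ℤ) - W - 1))).y + w2.2 * sgn b N (T (ix W ((p : ℤ) - W - 1))).x) + 0)) = _
    rw [i0, i1, i2]
    simp only [sg]

theorem spX_tL {b S pos : ℕ} {l : ℤ} (hp : l - 1 + S = pos) (A0 A1 A2 : ℤ → ℤ × ℤ) {w0 w1 w2 : ℤ × ℤ}
    (g0 : A0 (l + 1) = w0) (g1 : A1 (l + 3) = w1) (g2 : A2 (l - 1) = w2) :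
    spX b S (tL A0 A1 A2 l) = (w0.1 * (((2 ^ (b + 1)) ^ (pos + 2) : ℕ) : ℤ) + (w1.1 * (((2 ^ (b + 1)) ^ (pos + 4) : ℕ) : ℤ) +
      (w2.1 * (((2 ^ (b + 1)) ^ pos : ℕ) : ℤ) + 0))) ∧
    spY b S (tL A0 A1 A2 l) = (w0.2 * (((2 ^ (b + 1)) ^ (pos + 2) : ℕ) : ℤ) + (w1.2 * (((2 ^ (b + 1)) ^ (pos + 4) : ℕ) : ℤ) +
      (w2.2 * (((2 ^ (b + 1)) ^ pos : ℕ) : ℤ) + 0))) := by
  have i0 : ix S (l + 1) = pos + 2 := by
    show (l + 1 + (S : ℤ)).toNat = _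
    omega
  have i1 : ix S (l + 3) = pos + 4 := by
    show (l + 3 + (S : ℤ)).toNat = _
    omega
  have i2 : ix S (l - 1) = pos := by
    show (l - 1 + (S : ℤ)).toNat = _
    omega
  unfold tL
  rw [g0, g1, g2]
  constructor
  · show (w0.1 * (((2 ^ (b + 1)) ^ (ix S (l + 1)) : ℕ) : ℤ) + (w1.1 * (((2 ^ (b + 1)) ^ (ix S (l + 3)) : ℕ) : ℤ) +
      (w2.1 * (((2 ^ (b + 1)) ^ (ix S (l - 1)) : ℕ) : ℤ) + 0))) = _
    rw [i0, i1, i2]
  · show (w0.2 * (((2 ^ (b + 1)) ^ (ix S (l + 1)) : ℕ) : ℤ) + (w1.2 * (((2 ^ (b + 1)) ^ (ix S (l + 3)) : ℕ) : ℤ) +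
      (w2.2 * (((2 ^ (b + 1)) ^ (ix S (l - 1)) : ℕ) : ℤ) + 0))) = _
    rw [i0, i1, i2]

/-- the fast row of one harmonic -/
theorem mk3_eq {b s N W U : ℕ} {T : ℕ → FP} {p : ℕ} (hp : 1 ≤ p) (hN : 2 ≤ N) (hpW : W ≤ p + (N - 2))
    (A0 A1 A2 B0 B1 B2 : ℤ → ℤ × ℤ)
    (a0 : Bd U (A0 ((p : ℤ) - W + 1))) (a1 : Bd U (A1 ((p : ℤ) - W + 3))) (a2 : Bd U (A2 ((p : ℤ) - W - 1)))
    (b0 : Bd U (B0 ((p : ℤ) - W + 1))) (b1 : Bd U (B1 ((p : ℤ) - W + 3))) (b2 : Bd U (B2 ((p : ℤ) - W - 1))) :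
    mk3 b s N U (Nat.sub (Nat.add p (Nat.sub N 2)) W) (T (p + 1)) (T (p + 3)) (T (p - 1))
      (cd3 U (A0 ((p : ℤ) - W + 1))) (cd3 U (A1 ((p : ℤ) - W + 3))) (cd3 U (A2 ((p : ℤ) - W - 1)))
      (cd3 U (B0 ((p : ℤ) - W + 1))) (cd3 U (B1 ((p : ℤ) - W + 3))) (cd3 U (B2 ((p : ℤ) - W - 1))) =
    ⟨N, gx b s N (accX b N W T (tL A0 A1 A2 ((p : ℤ) - W))) (spX b (Nat.sub N 1) (tL B0 B1 B2 ((p : ℤ) - W))),
      gx b s N (accY b N W T (tL A0 A1 A2 ((p : ℤ) - W))) (spY b (Nat.sub N 1) (tL B0 B1 B2 ((p : ℤ) - W)))⟩ := by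
  obtain ⟨k1, k2⟩ := accX_tL (b := b) (N := N) (T := T) hp A0 A1 A2 rfl rfl rfl
  have hpos : ((p : ℤ) - W) - 1 + ((Nat.sub N 1 : ℕ) : ℤ) = ((Nat.sub (Nat.add p (Nat.sub N 2)) W : ℕ) : ℤ) := by
    show ((p : ℤ) - W) - 1 + ((N - 1 : ℕ) : ℤ) = ((p + (N - 2) - W : ℕ) : ℤ)
    omega
  obtain ⟨l1, l2⟩ := spX_tL (b := b) hpos B0 B1 B2 rfl rfl rfl
  rw [k1, k2, l1, l2]
  unfold mk3
  congr 1
  · rw [hx_eq (T (p + 1)).x (T (p + 1)).y (T (p + 3)).x (T (p + 3)).y (T (p - 1)).x (T (p - 1)).y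
      (show sm3 (T (p + 1)) (T (p + 3)) (T (p - 1)) = _ from rfl) (cd3_1 a0) (cd3_3 a0)
      (cd3_1 a1) (cd3_3 a1) (cd3_1 a2) (cd3_3 a2), asp_eq _ _ (cd3_1 b2) (cd3_1 b0) (cd3_1 b1)]
    rfl
  · rw [hx_eq (T (p + 1)).y (T (p + 1)).x (T (p + 3)).y (T (p + 3)).x (T (p - 1)).y (T (p - 1)).x
      (show sm3 (T (p + 1)) (T (p + 3)) (T (p - 1)) = _ by
        show ((T (p + 1)).x + (T (p + 1)).y) + (((T (p + 3)).x + (T (p + 3)).y) + ((T (p - 1)).x + (T (p - 1)).y)) = _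
        ring) (cd3_1 a0) (cd3_2 a0) (cd3_1 a1) (cd3_2 a1) (cd3_1 a2) (cd3_2 a2), asp_eq _ _ (cd3_2 b2) (cd3_2 b0) (cd3_2 b1)]
    rfl

/-! ### Coordinates -/

/-- a packed array with digits near `2 ^ s ξ` -/
structure HC (b s N : ℕ) (Z : FP) (ξ : ℤ → ℂ) (e : ℕ) (B : ℤ) : Prop where
  n : Z.N = N
  lt : Z.x < (2 ^ (b + 1)) ^ (len N) ∧ Z.y < (2 ^ (b + 1)) ^ (len N)
  er : ∀ j < len N, ‖((dz b j Z.x : ℂ) + Complex.I * (dz b j Z.y : ℂ)) - 2 ^ s * ξ ((j : ℤ) - N)‖ ≤ e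
  bd : ∀ j < len N, |dz b j Z.x| ≤ B ∧ |dz b j Z.y| ≤ B

section

variable {b s N e e' : ℕ} {Z Z' : FP} {ξ ξ' : ℤ → ℂ} {B : ℤ}

theorem HC.congr (h : HC b s N Z ξ e B) (hξ : ∀ n, ξ' n = ξ n) : HC b s N Z ξ' e B := by
  have : ξ' = ξ := funext hξ
  rw [this]
  exact h

theorem HC.mono (h : HC b s N Z ξ e B) (he : e ≤ e') {B' : ℤ} (hB : B ≤ B') : HC b s N Z ξ e' B' :=
  ⟨h.n, h.lt, fun j hj => (h.er j hj).trans (by exact_mod_cast he), fun j hj =>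
    ⟨(h.bd j hj).1.trans hB, (h.bd j hj).2.trans hB⟩⟩

theorem rng {b : ℕ} {d B : ℤ} (h : |d| ≤ B) (hB : B < 2 ^ b) : -(2 ^ b : ℤ) ≤ d ∧ d < 2 ^ b := by
  have := abs_le.1 h
  constructor <;> linarith

theorem enc_neg {b n X : ℕ} {d : ℕ → ℤ} (h : Enc b n X d) (hd : ∀ k < n, -(2 ^ b : ℤ) ≤ -d k ∧ -d k < 2 ^ b) :
    Enc b n (Nat.sub (Nat.mul 2 (of b n)) X) (fun k => -d k) := by
  refine Enc_sub (P := Nat.mul 2 (of b n)) (Q := X) hd ?_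
  have h2 : ((Nat.mul 2 (of b n) : ℕ) : ℤ) = 2 * (of b n : ℤ) := by
    show ((2 * of b n : ℕ) : ℤ) = _
    push_cast
    ring
  rw [h2, h.1, of_sum, Finset.mul_sum, ← Finset.sum_sub_distrib]
  exact Finset.sum_congr rfl fun k _ => by ring

theorem enc_add {b n X Y : ℕ} {d d' : ℕ → ℤ} (h : Enc b n X d) (h' : Enc b n Y d')
    (hd : ∀ k < n, -(2 ^ b : ℤ) ≤ d k + d' k ∧ d k + d' k < 2 ^ b) :
    Enc b n (Nat.sub (Nat.add X Y) (of b n)) (fun k => d k + d' k) := by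
  refine Enc_sub (P := Nat.add X Y) (Q := of b n) hd ?_
  have h2 : ((Nat.add X Y : ℕ) : ℤ) = (X : ℤ) + Y := by
    show ((X + Y : ℕ) : ℤ) = _
    push_cast
    ring
  rw [h2, h.1, h'.1, of_sum, ← Finset.sum_add_distrib, ← Finset.sum_sub_distrib]
  exact Finset.sum_congr rfl fun k _ => by ring

theorem enc_dif {b n X Y : ℕ} {d d' : ℕ → ℤ} (h : Enc b n X d) (h' : Enc b n Y d')
    (hd : ∀ k < n, -(2 ^ b : ℤ) ≤ d k - d' k ∧ d k - d' k < 2 ^ b) :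
    Enc b n (Nat.sub (Nat.add X (of b n)) Y) (fun k => d k - d' k) := by
  refine Enc_sub (P := Nat.add X (of b n)) (Q := Y) hd ?_
  have h2 : ((Nat.add X (of b n) : ℕ) : ℤ) = (X : ℤ) + of b n := by
    show ((X + of b n : ℕ) : ℤ) = _
    push_cast
    ring
  rw [h2, h.1, h'.1, of_sum, ← Finset.sum_add_distrib, ← Finset.sum_sub_distrib]
  exact Finset.sum_congr rfl fun k _ => by ring

theorem HC.rot (h : HC b s N Z ξ e B) (hB : B < 2 ^ b) : HC b s N (rotF b N Z) (fun n => Complex.I * ξ n) e B := by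
  have E1 := Enc_dz h.lt.1
  have E2 := enc_neg (Enc_dz h.lt.2) fun k hk => rng (by rw [abs_neg]; exact (h.bd k hk).2) hB
  refine ⟨rfl, ⟨E2.lt, E1.lt⟩, fun j hj => ?_, fun j hj => ?_⟩
  · show ‖((dz b j (Nat.sub (Nat.mul 2 (of b (len N))) Z.y) : ℂ) + Complex.I * (dz b j Z.x : ℂ)) - _‖ ≤ _
    rw [E2.digit hj]
    have e1 : (((-dz b j Z.y : ℤ) : ℂ) + Complex.I * (dz b j Z.x : ℂ)) - 2 ^ s * (Complex.I * ξ ((j : ℤ) - N)) =
        Complex.I * (((dz b j Z.x : ℂ) + Complex.I * (dz b j Z.y : ℂ)) - 2 ^ s * ξ ((j : ℤ) - N)) := by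
      push_cast
      linear_combination (-(dz b j Z.y : ℂ)) * Complex.I_mul_I
    rw [e1, norm_mul, Complex.norm_I, one_mul]
    exact h.er j hj
  · show |dz b j (Nat.sub (Nat.mul 2 (of b (len N))) Z.y)| ≤ B ∧ |dz b j Z.x| ≤ B
    rw [E2.digit hj, abs_neg]
    exact ⟨(h.bd j hj).2, (h.bd j hj).1⟩

theorem HC.add (h : HC b s N Z ξ e B) (h' : HC b s N Z' ξ' e' B) (hB : 2 * B < 2 ^ b) :
    HC b s N (addF b N Z Z') (fun n => ξ n + ξ' n) (e + e') (2 * B) := by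
  have a1 : ∀ k < len N, |dz b k Z.x + dz b k Z'.x| ≤ 2 * B := fun k hk => by
    have := abs_add_le (dz b k Z.x) (dz b k Z'.x)
    linarith [(h.bd k hk).1, (h'.bd k hk).1]
  have a2 : ∀ k < len N, |dz b k Z.y + dz b k Z'.y| ≤ 2 * B := fun k hk => by
    have := abs_add_le (dz b k Z.y) (dz b k Z'.y)
    linarith [(h.bd k hk).2, (h'.bd k hk).2]
  have E1 := enc_add (Enc_dz h.lt.1) (Enc_dz h'.lt.1) fun k hk => rng (a1 k hk) hB
  have E2 := enc_add (Enc_dz h.lt.2) (Enc_dz h'.lt.2) fun k hk => rng (a2 k hk) hB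
  refine ⟨rfl, ⟨E1.lt, E2.lt⟩, fun j hj => ?_, fun j hj => ?_⟩
  · show ‖((dz b j (Nat.sub (Nat.add Z.x Z'.x) (of b (len N))) : ℂ) +
      Complex.I * (dz b j (Nat.sub (Nat.add Z.y Z'.y) (of b (len N))) : ℂ)) - _‖ ≤ _
    rw [E1.digit hj, E2.digit hj]
    have e1 : ((((dz b j Z.x + dz b j Z'.x) : ℤ) : ℂ) + Complex.I * (((dz b j Z.y + dz b j Z'.y) : ℤ) : ℂ)) -
        2 ^ s * (ξ ((j : ℤ) - N) + ξ' ((j : ℤ) - N)) =
        (((dz b j Z.x : ℂ) + Complex.I * (dz b j Z.y : ℂ)) - 2 ^ s * ξ ((j : ℤ) - N)) +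
        (((dz b j Z'.x : ℂ) + Complex.I * (dz b j Z'.y : ℂ)) - 2 ^ s * ξ' ((j : ℤ) - N)) := by
      push_cast
      ring
    rw [e1]
    push_cast
    exact (norm_add_le _ _).trans (add_le_add (h.er j hj) (h'.er j hj))
  · show |dz b j (Nat.sub (Nat.add Z.x Z'.x) (of b (len N)))| ≤ 2 * B ∧ |dz b j (Nat.sub (Nat.add Z.y Z'.y) (of b (len N)))| ≤ 2 * B
    rw [E1.digit hj, E2.digit hj]
    exact ⟨a1 j hj, a2 j hj⟩

theorem HC.ms (h : HC b s N Z ξ e B) (h' : HC b s N Z' ξ' e' B) (hB : 2 * B < 2 ^ b) :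
    HC b s N (msF b N Z Z') (fun n => Complex.I * ξ n + -Complex.I * ξ' n) (e + e') (2 * B) := by
  have a1 : ∀ k < len N, |dz b k Z'.y - dz b k Z.y| ≤ 2 * B := fun k hk => by
    have := abs_sub (dz b k Z'.y) (dz b k Z.y)
    linarith [(h.bd k hk).2, (h'.bd k hk).2]
  have a2 : ∀ k < len N, |dz b k Z.x - dz b k Z'.x| ≤ 2 * B := fun k hk => by
    have := abs_sub (dz b k Z.x) (dz b k Z'.x)
    linarith [(h.bd k hk).1, (h'.bd k hk).1]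
  have E1 := enc_dif (Enc_dz h'.lt.2) (Enc_dz h.lt.2) fun k hk => rng (a1 k hk) hB
  have E2 := enc_dif (Enc_dz h.lt.1) (Enc_dz h'.lt.1) fun k hk => rng (a2 k hk) hB
  refine ⟨rfl, ⟨E1.lt, E2.lt⟩, fun j hj => ?_, fun j hj => ?_⟩
  · show ‖((dz b j (Nat.sub (Nat.add Z'.y (of b (len N))) Z.y) : ℂ) +
      Complex.I * (dz b j (Nat.sub (Nat.add Z.x (of b (len N))) Z'.x) : ℂ)) - _‖ ≤ _
    rw [E1.digit hj, E2.digit hj]
    have e1 : ((((dz b j Z'.y - dz b j Z.y) : ℤ) : ℂ) + Complex.I * (((dz b j Z.x - dz b j Z'.x) : ℤ) : ℂ)) -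
        2 ^ s * (Complex.I * ξ ((j : ℤ) - N) + -Complex.I * ξ' ((j : ℤ) - N)) =
        Complex.I * (((dz b j Z.x : ℂ) + Complex.I * (dz b j Z.y : ℂ)) - 2 ^ s * ξ ((j : ℤ) - N)) +
        (-Complex.I) * (((dz b j Z'.x : ℂ) + Complex.I * (dz b j Z'.y : ℂ)) - 2 ^ s * ξ' ((j : ℤ) - N)) := by
      push_cast
      linear_combination ((dz b j Z'.y : ℂ) - (dz b j Z.y : ℂ)) * Complex.I_mul_I
    rw [e1]
    push_cast
    refine (norm_add_le _ _).trans ?_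
    rw [norm_mul, norm_mul, norm_neg, Complex.norm_I, one_mul, one_mul]
    exact add_le_add (h.er j hj) (h'.er j hj)
  · show |dz b j (Nat.sub (Nat.add Z'.y (of b (len N))) Z.y)| ≤ 2 * B ∧ |dz b j (Nat.sub (Nat.add Z.x (of b (len N))) Z'.x)| ≤ 2 * B
    rw [E1.digit hj, E2.digit hj]
    exact ⟨a1 j hj, a2 j hj⟩

end

section

variable {b s N W K L K' e : ℕ} {B : ℤ} {H : Ty → ℕ → FP} {η : Ty → ℤ → ℤ → ℂ}

/-- the value of a list of fields -/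
noncomputable def fv (η : Ty → ℤ → ℤ → ℂ) (l : List (Ty × ℤ × Z4)) (n : ℤ) : ℂ :=
  (l.map fun x => ev4 x.2.2 * η x.1 x.2.1 n).sum

theorem rowHf_HC (hL2 : Even L) (hL : L ≤ K') (hW : K' ≤ W) (hB0 : 0 ≤ B) (hB : 2 * B < 2 ^ b) (τ : Ty)
    (hH : ∀ p : ℕ, -(K' : ℤ) ≤ (p : ℤ) - W → (p : ℤ) - W ≤ K' → HC b s N (H τ p) (η τ ((p : ℤ) - W)) e B)
    {c : ℕ} (hc : c ≤ L) : HC b s N (rowHf b N W (H τ) c) (fv η (fld.hf τ c)) (2 * e) (2 * B) := by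
  unfold rowHf fld.hf
  rcases Nat.eq_zero_or_pos c with h0 | h0
  · subst h0
    have h := hH W (by omega) (by omega)
    rw [if_pos rfl]
    refine (h.congr fun n => ?_).mono (by omega) (by omega)
    unfold fv
    rw [List.map_cons, List.map_nil, List.sum_cons, List.sum_nil, ev4_one, one_mul, add_zero, sub_self]
  · have e0 : Nat.beq c 0 = false := by
      cases c
      · omega
      · rfl
    rw [if_neg (by omega), e0]
    by_cases h1 : c % 2 = 1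
    · have e1 : Nat.beq (Nat.mod c 2) 1 = true := by
        show Nat.beq (c % 2) 1 = true
        rw [h1]
        rfl
      have h2 : c + 1 ≤ L := by
        rw [Nat.even_iff] at hL2; omega
      rw [if_pos h1, e1]
      show HC b s N (addF b N (nrm (Nat.add W (Nat.succ c)) (H τ)) (nrm (Nat.sub W (Nat.succ c)) (H τ))) _ _ _
      rw [nrm_eq, nrm_eq]
      have p1 : (((Nat.add W (Nat.succ c) : ℕ) : ℤ) - W) = ((c + 1 : ℕ) : ℤ) := by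
        show (((W + (c + 1) : ℕ) : ℤ) - W) = _
        omega
      have p2 : (((Nat.sub W (Nat.succ c) : ℕ) : ℤ) - W) = -((c + 1 : ℕ) : ℤ) := by
        show (((W - (c + 1) : ℕ) : ℤ) - W) = _
        omega
      have g1 := hH (Nat.add W (Nat.succ c)) (by rw [p1]; omega) (by rw [p1]; omega)
      have g2 := hH (Nat.sub W (Nat.succ c)) (by rw [p2]; omega) (by rw [p2]; omega)
      rw [p1] at g1
      rw [p2] at g2
      refine ((g1.add g2 hB).congr fun n => ?_).mono (by omega) le_rfl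
      unfold fv
      rw [List.map_cons, List.map_cons, List.map_nil, List.sum_cons, List.sum_cons, List.sum_nil, ev4_one, one_mul, one_mul,
        add_zero]
    · have e1 : Nat.beq (Nat.mod c 2) 1 = false := by
        have h2 : c % 2 = 0 := by omega
        show Nat.beq (c % 2) 1 = false
        rw [h2]
        rfl
      rw [if_neg h1, e1]
      show HC b s N (msF b N (nrm (Nat.add W c) (H τ)) (nrm (Nat.sub W c) (H τ))) _ _ _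
      rw [nrm_eq, nrm_eq]
      have p1 : (((Nat.add W c : ℕ) : ℤ) - W) = (c : ℤ) := by
        show (((W + c : ℕ) : ℤ) - W) = _
        omega
      have p2 : (((Nat.sub W c : ℕ) : ℤ) - W) = -(c : ℤ) := by
        show (((W - c : ℕ) : ℤ) - W) = _
        omega
      have g1 := hH (Nat.add W c) (by rw [p1]; omega) (by rw [p1]; omega)
      have g2 := hH (Nat.sub W c) (by rw [p2]; omega) (by rw [p2]; omega)
      rw [p1] at g1
      rw [p2] at g2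
      refine ((g1.ms g2 hB).congr fun n => ?_).mono (by omega) le_rfl
      unfold fv
      rw [List.map_cons, List.map_cons, List.map_nil, List.sum_cons, List.sum_cons, List.sum_nil, ev4_I, ev4_nI,
        add_zero]

theorem rowJ_HC (hK : K ≤ K') (hL2 : Even L) (hL : L ≤ K') (hW : K' ≤ W) (hB0 : 0 ≤ B) (hB : 2 * B < 2 ^ b)
    (hH : ∀ (τ : Ty) (p : ℕ), -(K' : ℤ) ≤ (p : ℤ) - W → (p : ℤ) - W ≤ K' → HC b s N (H τ p) (η τ ((p : ℤ) - W)) e B)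
    {i : ℕ} (hi : i < nt K L) : HC b s N (rowJ b N W K L H i) (fv η (fld K L i)) (2 * e) (2 * B) := by
  unfold nt at hi
  unfold rowJ fld
  rcases Nat.eq_zero_or_pos i with h0 | h0
  · subst h0
    have h := hH Ty.W W (by omega) (by omega)
    rw [if_pos rfl]
    refine (h.congr fun n => ?_).mono (by omega) (by omega)
    unfold fv
    rw [List.map_cons, List.map_nil, List.sum_cons, List.sum_nil, ev4_one, one_mul, add_zero, sub_self]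
  · have e0 : Nat.beq i 0 = false := by
      cases i
      · omega
      · rfl
    rw [if_neg (by omega), e0]
    by_cases h1 : i < bp K
    · rw [if_pos h1, ble_true h1]
      unfold bp at h1
      by_cases h2 : (i - 1) % 2 = 0
      · have e1 : Nat.beq (Nat.mod (Nat.sub i 1) 2) 0 = true := by
          show Nat.beq ((i - 1) % 2) 0 = true
          rw [h2]
          rfl
        rw [if_pos h2, e1]
        show HC b s N (nrm (Nat.add (Nat.sub i 1) (Nat.sub W K)) (H Ty.S)) _ _ _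
        rw [nrm_eq]
        have p1 : (((Nat.add (Nat.sub i 1) (Nat.sub W K) : ℕ) : ℤ) - W) = ((i - 1 : ℕ) : ℤ) - K := by
          show (((i - 1 + (W - K) : ℕ) : ℤ) - W) = _
          omega
        have g1 := hH Ty.S (Nat.add (Nat.sub i 1) (Nat.sub W K)) (by rw [p1]; omega) (by rw [p1]; omega)
        rw [p1] at g1
        refine (g1.congr fun n => ?_).mono (by omega) (by omega)
        unfold fv
        rw [List.map_cons, List.map_nil, List.sum_cons, List.sum_nil, ev4_one, one_mul, add_zero]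
      · have e1 : Nat.beq (Nat.mod (Nat.sub i 1) 2) 0 = false := by
          have h3 : (i - 1) % 2 = 1 := by omega
          show Nat.beq ((i - 1) % 2) 0 = false
          rw [h3]
          rfl
        rw [if_neg h2, e1]
        show HC b s N (rotF b N (nrm (Nat.add (Nat.sub i 2) (Nat.sub W K)) (H Ty.S))) _ _ _
        rw [nrm_eq]
        have p1 : (((Nat.add (Nat.sub i 2) (Nat.sub W K) : ℕ) : ℤ) - W) = ((i - 2 : ℕ) : ℤ) - K := by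
          show (((i - 2 + (W - K) : ℕ) : ℤ) - W) = _
          omega
        have g1 := hH Ty.S (Nat.add (Nat.sub i 2) (Nat.sub W K)) (by rw [p1]; omega) (by rw [p1]; omega)
        rw [p1] at g1
        refine ((g1.rot (by linarith)).congr fun n => ?_).mono (by omega) (by omega)
        unfold fv
        rw [List.map_cons, List.map_nil, List.sum_cons, List.sum_nil, ev4_I, add_zero]
    · rw [if_neg h1, ble_false h1]
      by_cases h2 : i < br K L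
      · rw [if_pos h2, ble_true h2]
        unfold br at h2
        exact rowHf_HC hL2 hL hW hB0 hB Ty.P (hH Ty.P) (by show i - bp K ≤ L; omega)
      · rw [if_neg h2, ble_false h2]
        unfold br at h2
        exact rowHf_HC hL2 hL hW hB0 hB Ty.R (hH Ty.R) (by show i - br K L ≤ L; unfold br; omega)

end

end Helper85.NS
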