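import Pool.Agent.Helper85.NS.Col
import Pool.Agent.Helper96.SH.Enc

/-!
# Project RC, SHARP, cell engine: packed combinations of table rows with exact coefficients

Coefficients `c` in `ℤ[√3, i]` (helper40's `Z4`) are rounded to Gaussian integers at the scale `2 ^ s` (`rd`); a row is
`⌊(∑ w_j T_j) / 2 ^ s⌋ + sparse`, all digits at once. `row_err`: the error of every digit.
-/

set_option autoImplicit false

namespace Helper85.NS

open Helper54.RC.Fast Helper96.SH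
open Pool.Agent.Helper40.NR (Z4 ev4)

/-! ### Rounding -/

/-- `R` near `2 ^ (s + 8) √3` -/
def okR3 (s R : ℕ) : Bool :=
  Nat.ble (Nat.mul R R) (Nat.mul 3 (Nat.pow 2 (Nat.mul 2 (Nat.add s 8)))) &&
    Nat.ble (Nat.mul 3 (Nat.pow 2 (Nat.mul 2 (Nat.add s 8)))) (Nat.mul (Nat.succ R) (Nat.succ R))

theorem okR3_sound {s R : ℕ} (h : okR3 s R = true) : |(R : ℝ) - 2 ^ (s + 8) * Real.sqrt 3| ≤ 1 := by
  unfold okR3 at h
  rw [Bool.and_eq_true] at h
  have h1 : R * R ≤ 3 * 2 ^ (2 * (s + 8)) := Nat.le_of_ble_eq_true h.1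
  have h2 : 3 * 2 ^ (2 * (s + 8)) ≤ (R + 1) * (R + 1) := Nat.le_of_ble_eq_true h.2
  have hs3 : Real.sqrt 3 ^ 2 = 3 := Real.sq_sqrt (by norm_num)
  have hs0 : 0 < Real.sqrt 3 := Real.sqrt_pos.2 (by norm_num)
  generalize s + 8 = u at h1 h2 ⊢
  set q : ℝ := 2 ^ u * Real.sqrt 3 with hq
  have hq0 : 0 < q := by positivity
  have hq2 : q ^ 2 = 3 * 2 ^ (2 * u) := by
    rw [hq, mul_pow, hs3, ← pow_mul, mul_comm u 2]; ring
  have g1 : (R : ℝ) ^ 2 ≤ q ^ 2 := by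
    rw [hq2, sq]
    exact_mod_cast h1
  have g2 : q ^ 2 ≤ ((R : ℝ) + 1) ^ 2 := by
    rw [hq2, sq]
    exact_mod_cast h2
  have hR0 : (0 : ℝ) ≤ R := Nat.cast_nonneg _
  have g3 : (R : ℝ) ≤ q := abs_le_of_sq_le_sq' g1 hq0.le |>.2
  have g4 : q ≤ (R : ℝ) + 1 := abs_le_of_sq_le_sq' g2 (by positivity) |>.2
  rw [abs_le]
  constructor <;> linarith

/-- `⌊2 ^ s (p / q) (a + b √3)⌋`, approximately -/
def rd (s R : ℕ) (p : ℤ) (q : ℕ) (a b : ℤ) : ℤ :=
  Int.ediv (Int.mul p (Int.add (Int.mul (Int.ofNat (Nat.pow 2 (Nat.add s 8))) a) (Int.mul (Int.ofNat R) b)))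
    (Int.ofNat (Nat.mul 256 q))

theorem rd_zero (s R : ℕ) (q : ℕ) (a b : ℤ) : rd s R 0 q a b = 0 := by
  unfold rd
  have : Int.mul 0 (Int.add (Int.mul (Int.ofNat (Nat.pow 2 (Nat.add s 8))) a) (Int.mul (Int.ofNat R) b)) = 0 :=
    zero_mul (Int.add (Int.mul (Int.ofNat (Nat.pow 2 (Nat.add s 8))) a) (Int.mul (Int.ofNat R) b))
  rw [this]
  exact Int.zero_ediv _

theorem ediv_le (x : ℤ) {q : ℕ} (hq : 0 < q) : |((x / (q : ℤ) : ℤ) : ℝ) - x / q| ≤ 1 := by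
  have h1 := Int.emod_add_mul_ediv x q
  have h2 : 0 ≤ x % (q : ℤ) := Int.emod_nonneg _ (by omega)
  have h3 : x % (q : ℤ) < q := Int.emod_lt_of_pos _ (by omega)
  set a := x % (q : ℤ) with ha
  set c := x / (q : ℤ) with hc
  have h4 : (a : ℝ) + q * c = x := by exact_mod_cast h1
  have hq' : (0 : ℝ) < q := by exact_mod_cast hq
  have h5 : (c : ℝ) - x / q = -(a / q) := by
    rw [← h4]
    field_simp
    ring
  rw [h5, abs_neg, abs_of_nonneg (by positivity), div_le_one hq']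
  exact_mod_cast h3.le

theorem rd_le {s R : ℕ} (hR : |(R : ℝ) - 2 ^ (s + 8) * Real.sqrt 3| ≤ 1) (p : ℤ) {q : ℕ} (hq : 0 < q) (a b : ℤ) :
    |(rd s R p q a b : ℝ) - 2 ^ s * ((p : ℝ) / q * (a + b * Real.sqrt 3))| ≤ 1 + |(p : ℝ)| * |(b : ℝ)| / (256 * q) := by
  have e : rd s R p q a b = (p * (((2 ^ (s + 8) : ℕ) : ℤ) * a + (R : ℤ) * b)) / (((256 * q : ℕ)) : ℤ) := rfl
  rw [e]
  have h1 := ediv_le (p * (((2 ^ (s + 8) : ℕ) : ℤ) * a + (R : ℤ) * b)) (show 0 < 256 * q by omega)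
  have hq' : (0 : ℝ) < q := by exact_mod_cast hq
  set X : ℝ := (((p * (((2 ^ (s + 8) : ℕ) : ℤ) * a + (R : ℤ) * b)) / (((256 * q : ℕ)) : ℤ) : ℤ) : ℝ) with hX
  have h2 : X - 2 ^ s * ((p : ℝ) / q * (a + b * Real.sqrt 3)) =
      (X - ((p * (((2 ^ (s + 8) : ℕ) : ℤ) * a + (R : ℤ) * b) : ℤ) : ℝ) / ((256 * q : ℕ) : ℝ)) +
        (p : ℝ) * b * ((R : ℝ) - 2 ^ (s + 8) * Real.sqrt 3) / (256 * q) := by
    push_cast
    rw [pow_add]
    field_simp
    ring
  rw [h2]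
  refine (abs_add_le _ _).trans (add_le_add h1 ?_)
  rw [abs_div, abs_mul, abs_mul, abs_of_pos (by positivity : (0 : ℝ) < 256 * q)]
  refine div_le_div_of_nonneg_right ?_ (by positivity)
  calc |(p : ℝ)| * |(b : ℝ)| * |(R : ℝ) - 2 ^ (s + 8) * Real.sqrt 3| ≤ |(p : ℝ)| * |(b : ℝ)| * 1 := by gcongr
    _ = _ := mul_one _

/-- the Gaussian integer of `2 ^ s (p / q) ev4 c` -/
noncomputable def rdC (s R : ℕ) (p : ℤ) (q : ℕ) (c : Z4) : ℂ :=
  (rd s R p q c.1 c.2.1 : ℂ) + Complex.I * (rd s R p q c.2.2.1 c.2.2.2 : ℂ)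

/-- size of a coefficient -/
def sz (c : Z4) : ℕ :=
  Nat.add (Nat.add c.1.natAbs (Nat.mul 2 c.2.1.natAbs)) (Nat.add c.2.2.1.natAbs (Nat.mul 2 c.2.2.2.natAbs))

/-- the check of a coefficient: `|p / q ev4 c| ≤ 4` -/
def okC (p : ℤ) (q : ℕ) (c : Z4) : Bool :=
  Nat.beq p.natAbs 0 || (Nat.ble 1 q && Nat.ble (Nat.mul p.natAbs (sz c)) (Nat.mul 4 q))

theorem sq3_le : Real.sqrt 3 ≤ 2 := by
  rw [Real.sqrt_le_iff]
  norm_num

theorem ev4_le (c : Z4) : ‖ev4 c‖ ≤ sz c := by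
  have h3 := sq3_le
  have h30 : 0 ≤ Real.sqrt 3 := Real.sqrt_nonneg 3
  have e : ev4 c = (((c.1 : ℝ) + c.2.1 * Real.sqrt 3 : ℝ) : ℂ) +
      Complex.I * (((c.2.2.1 : ℝ) + c.2.2.2 * Real.sqrt 3 : ℝ) : ℂ) := by
    unfold ev4; push_cast; ring
  rw [e]
  refine (norm_add_le _ _).trans ?_
  rw [norm_mul, Complex.norm_I, one_mul, Complex.norm_real, Complex.norm_real, Real.norm_eq_abs, Real.norm_eq_abs]
  have k : ∀ x y : ℤ, |(x : ℝ) + y * Real.sqrt 3| ≤ x.natAbs + 2 * y.natAbs := by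
    intro x y
    refine (abs_add_le _ _).trans ?_
    rw [abs_mul, abs_of_nonneg h30, Nat.cast_natAbs, Nat.cast_natAbs, Int.cast_abs, Int.cast_abs]
    nlinarith [abs_nonneg (y : ℝ)]
  have k1 := k c.1 c.2.1
  have k2 := k c.2.2.1 c.2.2.2
  have e2 : ((sz c : ℕ) : ℝ) = (c.1.natAbs + 2 * c.2.1.natAbs) + (c.2.2.1.natAbs + 2 * c.2.2.2.natAbs) := by
    show (((c.1.natAbs + 2 * c.2.1.natAbs) + (c.2.2.1.natAbs + 2 * c.2.2.2.natAbs) : ℕ) : ℝ) = _
    push_cast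
    ring
  rw [e2]
  linarith

/-- the rounding error and the size -/
theorem rdC_le {s R : ℕ} (hR : |(R : ℝ) - 2 ^ (s + 8) * Real.sqrt 3| ≤ 1) {p : ℤ} {q : ℕ} {c : Z4}
    (h : okC p q c = true) : ‖rdC s R p q c - 2 ^ s * ((((p : ℝ) / q : ℝ) : ℂ) * ev4 c)‖ ≤ 9 / 4 ∧
      ‖(((p : ℝ) / q : ℝ) : ℂ) * ev4 c‖ ≤ 4 := by
  unfold okC at h
  rw [Bool.or_eq_true, Bool.and_eq_true] at h
  rcases h with h | ⟨h1, h2⟩
  · have hp : p = 0 := by
      have : p.natAbs = 0 := Nat.eq_of_beq_eq_true h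
      omega
    subst hp
    have e : rdC s R 0 q c = 0 := by
      unfold rdC
      rw [rd_zero, rd_zero]
      simp
    rw [e]
    constructor
    · simp
      norm_num
    · simp
  · have h1 : 0 < q := Nat.le_of_ble_eq_true h1
    have h2 : p.natAbs * sz c ≤ 4 * q := Nat.le_of_ble_eq_true h2
    have hq : (0 : ℝ) < q := by exact_mod_cast h1
    have h3 : |(p : ℝ)| * sz c ≤ 4 * q := by
      have : ((p.natAbs * sz c : ℕ) : ℝ) ≤ ((4 * q : ℕ) : ℝ) := by exact_mod_cast h2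
      push_cast at this
      rw [Nat.cast_natAbs, Int.cast_abs] at this
      exact this
    have e2 : ((sz c : ℕ) : ℝ) = (c.1.natAbs + 2 * c.2.1.natAbs) + (c.2.2.1.natAbs + 2 * c.2.2.2.natAbs) := by
      show (((c.1.natAbs + 2 * c.2.1.natAbs) + (c.2.2.1.natAbs + 2 * c.2.2.2.natAbs) : ℕ) : ℝ) = _
      push_cast
      ring
    constructor
    · have k1 := rd_le hR p h1 c.1 c.2.1
      have k2 := rd_le hR p h1 c.2.2.1 c.2.2.2
      have e : rdC s R p q c - 2 ^ s * ((((p : ℝ) / q : ℝ) : ℂ) * ev4 c) =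
          (((rd s R p q c.1 c.2.1 : ℝ) - 2 ^ s * ((p : ℝ) / q * (c.1 + c.2.1 * Real.sqrt 3)) : ℝ) : ℂ) +
          Complex.I * (((rd s R p q c.2.2.1 c.2.2.2 : ℝ) - 2 ^ s * ((p : ℝ) / q * (c.2.2.1 + c.2.2.2 * Real.sqrt 3)) : ℝ) : ℂ) := by
        unfold rdC ev4
        push_cast
        ring
      rw [e]
      refine (norm_add_le _ _).trans ?_
      rw [norm_mul, Complex.norm_I, one_mul, Complex.norm_real, Complex.norm_real, Real.norm_eq_abs, Real.norm_eq_abs]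
      have k3 : |(p : ℝ)| * |((c.2.1 : ℤ) : ℝ)| / (256 * q) + |(p : ℝ)| * |((c.2.2.2 : ℤ) : ℝ)| / (256 * q) ≤ 1 / 4 := by
        rw [← add_div, div_le_iff₀ (by positivity)]
        have a1 : |((c.2.1 : ℤ) : ℝ)| = c.2.1.natAbs := by rw [Nat.cast_natAbs, Int.cast_abs]
        have a2 : |((c.2.2.2 : ℤ) : ℝ)| = c.2.2.2.natAbs := by rw [Nat.cast_natAbs, Int.cast_abs]
        rw [a1, a2]
        rw [e2] at h3
        have p0 := abs_nonneg (p : ℝ)
        have b1 : (0 : ℝ) ≤ c.1.natAbs := Nat.cast_nonneg _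
        have b2 : (0 : ℝ) ≤ c.2.1.natAbs := Nat.cast_nonneg _
        have b3 : (0 : ℝ) ≤ c.2.2.1.natAbs := Nat.cast_nonneg _
        have b4 : (0 : ℝ) ≤ c.2.2.2.natAbs := Nat.cast_nonneg _
        nlinarith [mul_nonneg p0 b1, mul_nonneg p0 b2, mul_nonneg p0 b3, mul_nonneg p0 b4]
      linarith
    · rw [norm_mul, Complex.norm_real, Real.norm_eq_abs, abs_div, abs_of_pos hq]
      have k1 := ev4_le c
      have p0 : 0 ≤ |(p : ℝ)| / q := by positivity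
      calc |(p : ℝ)| / q * ‖ev4 c‖ ≤ |(p : ℝ)| / q * sz c := mul_le_mul_of_nonneg_left k1 p0
        _ = |(p : ℝ)| * sz c / q := by ring
        _ ≤ 4 := by rw [div_le_iff₀ hq]; exact h3

/-! ### Packed combinations -/

/-- the position of the frequency `m` in a table with the offset `W` -/
def ix (W : ℕ) (m : ℤ) : ℕ := Int.toNat (Int.add m (Int.ofNat W))

/-- the packed number without the offsets -/
def sgn (b N X : ℕ) : ℤ := Int.sub (Int.ofNat X) (Int.ofNat (of b (len N)))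

/-- real part of `∑ w_j T_j`; entries `(m, u, v)`, `w = u + i v` -/
def accX (b N W : ℕ) (T : ℕ → FP) : List (ℤ × ℤ × ℤ) → ℤ
  | [] => 0
  | e :: l => Int.add (Int.sub (Int.mul e.2.1 (sgn b N (T (ix W e.1)).x)) (Int.mul e.2.2 (sgn b N (T (ix W e.1)).y)))
      (accX b N W T l)

/-- imaginary part of `∑ w_j T_j` -/
def accY (b N W : ℕ) (T : ℕ → FP) : List (ℤ × ℤ × ℤ) → ℤ
  | [] => 0
  | e :: l => Int.add (Int.add (Int.mul e.2.1 (sgn b N (T (ix W e.1)).y)) (Int.mul e.2.2 (sgn b N (T (ix W e.1)).x)))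
      (accY b N W T l)

/-- sparse part: the entry of the frequency `m` has the position `m + S` -/
def spX (b S : ℕ) : List (ℤ × ℤ × ℤ) → ℤ
  | [] => 0
  | e :: l => Int.add (Int.mul e.2.1 (Int.ofNat (Nat.pow (Nat.pow 2 (Nat.succ b)) (ix S e.1)))) (spX b S l)
def spY (b S : ℕ) : List (ℤ × ℤ × ℤ) → ℤ
  | [] => 0
  | e :: l => Int.add (Int.mul e.2.2 (Int.ofNat (Nat.pow (Nat.pow 2 (Nat.succ b)) (ix S e.1)))) (spY b S l)

/-- the packed number with the offsets -/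
def unS (b N : ℕ) (x : ℤ) : ℕ := Int.toNat (Int.add x (Int.ofNat (of b (len N))))

/-- floor and sparse part -/
def gx (b s N : ℕ) (ax sp : ℤ) : ℕ :=
  Int.toNat (Int.add (Int.ofNat (fl b s (on b (len N)) (unS b N ax))) sp)

/-! ### Digits -/

/-- the digits of the combination -/
noncomputable def dC (b W : ℕ) (T : ℕ → FP) (l : List (ℤ × ℤ × ℤ)) (n : ℕ) : ℂ :=
  (l.map fun e => ((e.2.1 : ℂ) + Complex.I * (e.2.2 : ℂ)) *
    ((dz b n (T (ix W e.1)).x : ℂ) + Complex.I * (dz b n (T (ix W e.1)).y : ℂ))).sum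

def dX (b W : ℕ) (T : ℕ → FP) (l : List (ℤ × ℤ × ℤ)) (n : ℕ) : ℤ :=
  (l.map fun e => e.2.1 * dz b n (T (ix W e.1)).x - e.2.2 * dz b n (T (ix W e.1)).y).sum
def dY (b W : ℕ) (T : ℕ → FP) (l : List (ℤ × ℤ × ℤ)) (n : ℕ) : ℤ :=
  (l.map fun e => e.2.1 * dz b n (T (ix W e.1)).y + e.2.2 * dz b n (T (ix W e.1)).x).sum

theorem dC_eq (b W : ℕ) (T : ℕ → FP) (l : List (ℤ × ℤ × ℤ)) (n : ℕ) :
    dC b W T l n = (dX b W T l n : ℂ) + Complex.I * (dY b W T l n : ℂ) := by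
  unfold dC dX dY
  induction l with
  | nil => simp
  | cons e l ih =>
    rw [List.map_cons, List.sum_cons, ih, List.map_cons, List.sum_cons, List.map_cons, List.sum_cons]
    push_cast
    linear_combination ((e.2.2 : ℂ) * (dz b n (T (ix W e.1)).y : ℂ)) * Complex.I_mul_I

theorem sgn_sum {b N X : ℕ} (h : X < (2 ^ (b + 1)) ^ (len N)) :
    sgn b N X = ∑ k ∈ Finset.range (len N), dz b k X * (2 ^ (b + 1)) ^ k := by
  have h1 := (Enc_dz h).val
  show (X : ℤ) - (of b (len N) : ℤ) = _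
  rw [h1]
  ring

section

variable {b N W : ℕ} {T : ℕ → FP}

theorem accX_sum (hT : ∀ k, k ≤ 2 * W → (T k).x < (2 ^ (b + 1)) ^ (len N) ∧ (T k).y < (2 ^ (b + 1)) ^ (len N))
    (l : List (ℤ × ℤ × ℤ)) (hl : ∀ e ∈ l, e.1.natAbs ≤ W) :
    accX b N W T l = ∑ k ∈ Finset.range (len N), dX b W T l k * (2 ^ (b + 1)) ^ k := by
  induction l with
  | nil => simp [accX, dX]
  | cons e l ih =>
    have h1 := hl e (by simp)
    have h2 : ix W e.1 ≤ 2 * W := by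
      show (e.1 + (W : ℤ)).toNat ≤ 2 * W
      omega
    have h3 := hT _ h2
    have ih' := ih fun e' he' => hl e' (by simp [he'])
    show (e.2.1 * sgn b N (T (ix W e.1)).x - e.2.2 * sgn b N (T (ix W e.1)).y) + accX b N W T l = _
    rw [ih', sgn_sum h3.1, sgn_sum h3.2, Finset.mul_sum, Finset.mul_sum, ← Finset.sum_sub_distrib, ← Finset.sum_add_distrib]
    refine Finset.sum_congr rfl fun k _ => ?_
    unfold dX
    rw [List.map_cons, List.sum_cons]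
    ring

theorem accY_sum (hT : ∀ k, k ≤ 2 * W → (T k).x < (2 ^ (b + 1)) ^ (len N) ∧ (T k).y < (2 ^ (b + 1)) ^ (len N))
    (l : List (ℤ × ℤ × ℤ)) (hl : ∀ e ∈ l, e.1.natAbs ≤ W) :
    accY b N W T l = ∑ k ∈ Finset.range (len N), dY b W T l k * (2 ^ (b + 1)) ^ k := by
  induction l with
  | nil => simp [accY, dY]
  | cons e l ih =>
    have h1 := hl e (by simp)
    have h2 : ix W e.1 ≤ 2 * W := by
      show (e.1 + (W : ℤ)).toNat ≤ 2 * W
      omega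
    have h3 := hT _ h2
    have ih' := ih fun e' he' => hl e' (by simp [he'])
    show (e.2.1 * sgn b N (T (ix W e.1)).y + e.2.2 * sgn b N (T (ix W e.1)).x) + accY b N W T l = _
    rw [ih', sgn_sum h3.1, sgn_sum h3.2, Finset.mul_sum, Finset.mul_sum, ← Finset.sum_add_distrib, ← Finset.sum_add_distrib]
    refine Finset.sum_congr rfl fun k _ => ?_
    unfold dY
    rw [List.map_cons, List.sum_cons]
    ring

/-- the digits of the sparse part -/
def eX (S : ℕ) (l : List (ℤ × ℤ × ℤ)) (n : ℕ) : ℤ := (l.map fun e => if ix S e.1 = n then e.2.1 else 0).sum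
def eY (S : ℕ) (l : List (ℤ × ℤ × ℤ)) (n : ℕ) : ℤ := (l.map fun e => if ix S e.1 = n then e.2.2 else 0).sum

theorem spX_sum {S : ℕ} (l : List (ℤ × ℤ × ℤ)) (hl : ∀ e ∈ l, ix S e.1 < len N) :
    spX b S l = ∑ k ∈ Finset.range (len N), eX S l k * (2 ^ (b + 1)) ^ k := by
  induction l with
  | nil => simp [spX, eX]
  | cons e l ih =>
    have h1 := hl e (by simp)
    have ih' := ih fun e' he' => hl e' (by simp [he'])
    show e.2.1 * (((2 ^ (b + 1)) ^ (ix S e.1) : ℕ) : ℤ) + spX b S l = _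
    rw [ih']
    have h2 : ∀ k ∈ Finset.range (len N), eX S (e :: l) k * (2 ^ (b + 1)) ^ k =
        (if ix S e.1 = k then e.2.1 * (2 ^ (b + 1)) ^ k else 0) + eX S l k * (2 ^ (b + 1)) ^ k := by
      intro k _
      unfold eX
      rw [List.map_cons, List.sum_cons]
      split_ifs <;> ring
    rw [Finset.sum_congr rfl h2, Finset.sum_add_distrib, Finset.sum_ite_eq, if_pos (Finset.mem_range.2 h1)]
    push_cast
    ring

theorem spY_sum {S : ℕ} (l : List (ℤ × ℤ × ℤ)) (hl : ∀ e ∈ l, ix S e.1 < len N) :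
    spY b S l = ∑ k ∈ Finset.range (len N), eY S l k * (2 ^ (b + 1)) ^ k := by
  induction l with
  | nil => simp [spY, eY]
  | cons e l ih =>
    have h1 := hl e (by simp)
    have ih' := ih fun e' he' => hl e' (by simp [he'])
    show e.2.2 * (((2 ^ (b + 1)) ^ (ix S e.1) : ℕ) : ℤ) + spY b S l = _
    rw [ih']
    have h2 : ∀ k ∈ Finset.range (len N), eY S (e :: l) k * (2 ^ (b + 1)) ^ k =
        (if ix S e.1 = k then e.2.2 * (2 ^ (b + 1)) ^ k else 0) + eY S l k * (2 ^ (b + 1)) ^ k := by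
      intro k _
      unfold eY
      rw [List.map_cons, List.sum_cons]
      split_ifs <;> ring
    rw [Finset.sum_congr rfl h2, Finset.sum_add_distrib, Finset.sum_ite_eq, if_pos (Finset.mem_range.2 h1)]
    push_cast
    ring

/-- a packed number from its digits -/
theorem unS_enc {x : ℤ} {d : ℕ → ℤ} (hd : ∀ k < len N, |d k| < 2 ^ b)
    (h : x = ∑ k ∈ Finset.range (len N), d k * (2 ^ (b + 1)) ^ k) : Enc b (len N) (unS b N x) d := by
  have hr : ∀ k < len N, -(2 ^ b : ℤ) ≤ d k ∧ d k < 2 ^ b := fun k hk => by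
    have := abs_lt.1 (hd k hk)
    exact ⟨this.1.le, this.2⟩
  have e1 : x + (of b (len N) : ℤ) = ∑ k ∈ Finset.range (len N), (d k + 2 ^ b) * (2 ^ (b + 1)) ^ k := by
    rw [h, of_sum, ← Finset.sum_add_distrib]
    exact Finset.sum_congr rfl fun k _ => by ring
  have h0 : (0 : ℤ) ≤ ∑ k ∈ Finset.range (len N), (d k + 2 ^ b) * (2 ^ (b + 1)) ^ k := by
    refine Finset.sum_nonneg fun k hk => mul_nonneg ?_ (by positivity)
    have := (hr k (Finset.mem_range.1 hk)).1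
    linarith
  refine ⟨?_, hr⟩
  show (((x + (of b (len N) : ℤ)).toNat : ℕ) : ℤ) = _
  rw [e1, Int.toNat_of_nonneg h0]

/-- floor and sparse part -/
theorem gx_enc {s : ℕ} {ax sp : ℤ} {d e : ℕ → ℤ} (hs : s ≤ b) (hd : ∀ k < len N, |d k| < 2 ^ b)
    (h : ax = ∑ k ∈ Finset.range (len N), d k * (2 ^ (b + 1)) ^ k)
    (h' : sp = ∑ k ∈ Finset.range (len N), e k * (2 ^ (b + 1)) ^ k) (hf : ∀ k < len N, |d k / 2 ^ s + e k| < 2 ^ b) :
    Enc b (len N) (gx b s N ax sp) (fun k => d k / 2 ^ s + e k) := by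
  have h1 := (unS_enc hd h).fl hs
  have hr : ∀ k < len N, -(2 ^ b : ℤ) ≤ d k / 2 ^ s + e k ∧ d k / 2 ^ s + e k < 2 ^ b := fun k hk => by
    have := abs_lt.1 (hf k hk)
    exact ⟨this.1.le, this.2⟩
  have e1 : ((fl b s (on b (len N)) (unS b N ax) : ℕ) : ℤ) + sp =
      ∑ k ∈ Finset.range (len N), (d k / 2 ^ s + e k + 2 ^ b) * (2 ^ (b + 1)) ^ k := by
    rw [h1.1, h', ← Finset.sum_add_distrib]
    exact Finset.sum_congr rfl fun k _ => by ring
  have h0 : (0 : ℤ) ≤ ∑ k ∈ Finset.range (len N), (d k / 2 ^ s + e k + 2 ^ b) * (2 ^ (b + 1)) ^ k := by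
    refine Finset.sum_nonneg fun k hk => mul_nonneg ?_ (by positivity)
    have := (hr k (Finset.mem_range.1 hk)).1
    linarith
  refine ⟨?_, hr⟩
  show ((((fl b s (on b (len N)) (unS b N ax) : ℕ) : ℤ) + sp).toNat : ℤ) = _
  rw [e1, Int.toNat_of_nonneg h0]

end

end Helper85.NS
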