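import Pool.Agent.Helper85.NS.CR

/-!
# Project RC, SHARP, cell engine: fast rounded coefficient lists

The rounded coefficients of the exact columns `colK` of a coordinate from a small table of constants (kernel cached).
-/

set_option autoImplicit false

namespace Helper85.NS

open Helper54.RC.Fast Helper96.SH Helper95.SH
open Pool.Agent.Helper40.NR (Z4 ev4 add4 sc4 rot4 cj4 mul4 ev4_add ev4_sc ev4_rot ev4_cj ev4_mul)

/-! ### Computable parts -/

/-- the units `1, i, -i` -/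
def gz : ℕ → Z4
  | 0 => (1, 0, 0, 0)
  | 1 => (0, 0, 1, 0)
  | _ => (0, 0, -1, 0)

/-- `c (a + i b)` -/
def mE (c : Z4) (a b : ℤ) : Z4 :=
  (Int.sub (Int.mul c.1 a) (Int.mul c.2.2.1 b), Int.sub (Int.mul c.2.1 a) (Int.mul c.2.2.2 b),
    Int.add (Int.mul c.1 b) (Int.mul c.2.2.1 a), Int.add (Int.mul c.2.1 b) (Int.mul c.2.2.2 a))

/-- the rounded pair -/
def rdP (s R : ℕ) (p : ℤ) (q : ℕ) (c : Z4) : ℤ × ℤ := (rd s R p q c.1 c.2.1, rd s R p q c.2.2.1 c.2.2.2)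

/-- the six phases -/
def sel6 {α : Type} (r : ℕ) (a0 a1 a2 a3 a4 a5 : α) : α :=
  match r with
  | 0 => a0
  | 1 => a1
  | 2 => a2
  | 3 => a3
  | 4 => a4
  | _ => a5

/-- the six values of a function -/
def six {α : Type} (F : ℕ → α) (r : ℕ) : α := sel6 r (F 0) (F 1) (F 2) (F 3) (F 4) (F 5)

/-- the four values of a function -/
def four {α : Type} (F : Ty → α) (τ : Ty) : α :=
  match τ with
  | Ty.W => F Ty.W
  | Ty.S => F Ty.S
  | Ty.P => F Ty.P
  | Ty.R => F Ty.R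

/-- the residue -/
def res (f : Bool) (m : ℤ) : ℕ := Int.toNat (Int.emod (bif f then m else Int.neg m) 6)

/-- the fields of a hermitian coordinate -/
def hfW (τ : Ty) (c : ℕ) : List (Ty × ℤ × ℕ) :=
  bif Nat.beq c 0 then [(τ, Int.ofNat 0, 0)]
  else bif Nat.beq (Nat.mod c 2) 1 then [(τ, Int.ofNat (Nat.succ c), 0), (τ, Int.neg (Int.ofNat (Nat.succ c)), 0)]
  else [(τ, Int.ofNat c, 1), (τ, Int.neg (Int.ofNat c), 2)]

/-- the fields of a coordinate -/
def fldW (K L i : ℕ) : List (Ty × ℤ × ℕ) :=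
  bif Nat.beq i 0 then [(Ty.W, Int.ofNat 0, 0)]
  else bif Nat.ble (Nat.succ i) (bp K) then
    (bif Nat.beq (Nat.mod (Nat.sub i 1) 2) 0 then [(Ty.S, Int.sub (Int.ofNat (Nat.sub i 1)) (Int.ofNat K), 0)]
      else [(Ty.S, Int.sub (Int.ofNat (Nat.sub i 2)) (Int.ofNat K), 1)])
  else (bif Nat.ble (Nat.succ i) (br K L) then hfW Ty.P (Nat.sub i (bp K)) else hfW Ty.R (Nat.sub i (br K L)))

/-- the three entries of the harmonic `δ_l` -/
def tL (W0 W1 W2 : ℤ → ℤ × ℤ) (l : ℤ) : List (ℤ × ℤ × ℤ) :=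
  [(l + 1, W0 (l + 1)), (l + 3, W1 (l + 3)), (l - 1, W2 (l - 1))]

/-- the coefficients with phases, `1 / 8` -/
def WH0 (f : Bool) (s R : ℕ) (τ : Ty) (m : ℤ) : ℤ × ℤ :=
  four (fun t => six (fun r => rdP s R 1 8 (mul4 (kG f t) (zt r))) (res f m)) τ
def WH1 (f : Bool) (s R D : ℕ) (e1 e2 : ℤ) (τ : Ty) (m : ℤ) : ℤ × ℤ :=
  four (fun t => six (fun r => rdP s R 1 (Nat.mul 8 D) (mE (mul4 (kG f t) (zt r)) e1 e2)) (res f m)) τ

/-- the coefficients without phases, `1 / 4` -/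
def WG0 (f : Bool) (s R : ℕ) (τ : Ty) (_ : ℤ) : ℤ × ℤ := four (fun t => rdP s R 1 4 (kG f t)) τ
def WG1 (f : Bool) (s R D : ℕ) (e1 e2 : ℤ) (τ : Ty) (_ : ℤ) : ℤ × ℤ :=
  four (fun t => rdP s R 1 (Nat.mul 4 D) (mE (kG f t) e1 e2)) τ

/-- the coefficients without phases, `1 / (4 m)` -/
def WD0 (f : Bool) (s R : ℕ) (τ : Ty) (m : ℤ) : ℤ × ℤ :=
  four (fun t => rdP s R (Int.sign m) (Nat.mul 4 m.natAbs) (kG f t)) τ
def WD1 (f : Bool) (s R D : ℕ) (e1 e2 : ℤ) (τ : Ty) (m : ℤ) : ℤ × ℤ :=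
  four (fun t => rdP s R (Int.sign m) (Nat.mul (Nat.mul 4 D) m.natAbs) (mE (kG f t) e1 e2)) τ

/-! ### Correctness -/

theorem bif_ite {α : Type} (c : Bool) (a b : α) : (bif c then a else b) = if c = true then a else b := by
  cases c <;> rfl

theorem beq_iff (a b : ℕ) : Nat.beq a b = true ↔ a = b := by rw [Nat.beq_eq]

theorem hfW_eq (τ : Ty) (c : ℕ) : fld.hf τ c = (hfW τ c).map fun x => (x.1, x.2.1, gz x.2.2) := by
  unfold fld.hf hfW
  rcases Nat.eq_zero_or_pos c with h0 | h0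
  · subst h0; rfl
  · have e0 : Nat.beq c 0 = false := by
      cases c
      · omega
      · rfl
    rw [if_neg (by omega), e0]
    by_cases h1 : c % 2 = 1
    · have e1 : Nat.beq (Nat.mod c 2) 1 = true := by
        show Nat.beq (c % 2) 1 = true
        rw [h1]
        rfl
      rw [if_pos h1, e1]; rfl
    · have e1 : Nat.beq (Nat.mod c 2) 1 = false := by
        have h2 : c % 2 = 0 := by omega
        show Nat.beq (c % 2) 1 = false
        rw [h2]
        rfl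
      rw [if_neg h1, e1]; rfl

theorem ble_true {a b : ℕ} (h : a < b) : Nat.ble (Nat.succ a) b = true := by rw [Nat.ble_eq]; exact h
theorem ble_false {a b : ℕ} (h : ¬ a < b) : Nat.ble (Nat.succ a) b = false := by
  rw [← Bool.not_eq_true, Nat.ble_eq]; exact h

theorem fldW_eq (K L i : ℕ) : fld K L i = (fldW K L i).map fun x => (x.1, x.2.1, gz x.2.2) := by
  unfold fld fldW
  rcases Nat.eq_zero_or_pos i with h0 | h0
  · subst h0; rfl
  · have e0 : Nat.beq i 0 = false := by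
      cases i
      · omega
      · rfl
    rw [if_neg (by omega), e0]
    by_cases h1 : i < bp K
    · rw [if_pos h1, ble_true h1]
      by_cases h2 : (i - 1) % 2 = 0
      · have e1 : Nat.beq (Nat.mod (Nat.sub i 1) 2) 0 = true := by
          show Nat.beq ((i - 1) % 2) 0 = true
          rw [h2]
          rfl
        rw [if_pos h2, e1]; rfl
      · have e1 : Nat.beq (Nat.mod (Nat.sub i 1) 2) 0 = false := by
          have h3 : (i - 1) % 2 = 1 := by omega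
          show Nat.beq ((i - 1) % 2) 0 = false
          rw [h3]
          rfl
        rw [if_neg h2, e1]; rfl
    · rw [if_neg h1, ble_false h1]
      by_cases h2 : i < br K L
      · rw [if_pos h2, ble_true h2]; exact hfW_eq _ _
      · rw [if_neg h2, ble_false h2]; exact hfW_eq _ _

theorem hfW_mem {L : ℕ} (hL : Even L) {τ : Ty} {c : ℕ} (hc : c ≤ L) (x : Ty × ℤ × ℕ) (hx : x ∈ hfW τ c) :
    -(L : ℤ) ≤ x.2.1 ∧ x.2.1 ≤ L := by
  unfold hfW at hx
  rcases Nat.eq_zero_or_pos c with h0 | h0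
  · subst h0
    have h := List.mem_singleton.1 hx
    rw [h]
    show -(L : ℤ) ≤ 0 ∧ (0 : ℤ) ≤ L
    omega
  · have e0 : Nat.beq c 0 = false := by
      cases c
      · omega
      · rfl
    rw [e0] at hx
    by_cases h1 : c % 2 = 1
    · have e1 : Nat.beq (Nat.mod c 2) 1 = true := by
        show Nat.beq (c % 2) 1 = true
        rw [h1]
        rfl
      rw [e1] at hx
      have h2 : c + 1 ≤ L := by
        rw [Nat.even_iff] at hL; omega
      rcases List.mem_cons.1 hx with h | h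
      · rw [h]
        show -(L : ℤ) ≤ ((c + 1 : ℕ) : ℤ) ∧ ((c + 1 : ℕ) : ℤ) ≤ L
        omega
      · rw [List.mem_singleton.1 h]
        show -(L : ℤ) ≤ -((c + 1 : ℕ) : ℤ) ∧ -((c + 1 : ℕ) : ℤ) ≤ L
        omega
    · have e1 : Nat.beq (Nat.mod c 2) 1 = false := by
        have h2 : c % 2 = 0 := by omega
        show Nat.beq (c % 2) 1 = false
        rw [h2]
        rfl
      rw [e1] at hx
      rcases List.mem_cons.1 hx with h | h
      · rw [h]
        show -(L : ℤ) ≤ (c : ℤ) ∧ (c : ℤ) ≤ L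
        omega
      · rw [List.mem_singleton.1 h]
        show -(L : ℤ) ≤ -(c : ℤ) ∧ -(c : ℤ) ≤ L
        omega

/-- the fields have small frequencies -/
theorem fldW_mem {K L K' i : ℕ} (hK : K ≤ K') (hL : L ≤ K') (hL2 : Even L) (hi : i < nt K L) (x : Ty × ℤ × ℕ)
    (hx : x ∈ fldW K L i) : -(K' : ℤ) ≤ x.2.1 ∧ x.2.1 ≤ K' := by
  unfold fldW at hx
  unfold nt at hi
  rcases Nat.eq_zero_or_pos i with h0 | h0
  · subst h0
    rw [List.mem_singleton.1 hx]
    show -(K' : ℤ) ≤ 0 ∧ (0 : ℤ) ≤ K'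
    omega
  · have e0 : Nat.beq i 0 = false := by
      cases i
      · omega
      · rfl
    rw [e0] at hx
    by_cases h1 : i < bp K
    · rw [ble_true h1] at hx
      unfold bp at h1
      by_cases h2 : (i - 1) % 2 = 0
      · have e1 : Nat.beq (Nat.mod (Nat.sub i 1) 2) 0 = true := by
          show Nat.beq ((i - 1) % 2) 0 = true
          rw [h2]
          rfl
        rw [e1] at hx
        rw [List.mem_singleton.1 hx]
        show -(K' : ℤ) ≤ ((i - 1 : ℕ) : ℤ) - K ∧ ((i - 1 : ℕ) : ℤ) - K ≤ K'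
        omega
      · have e1 : Nat.beq (Nat.mod (Nat.sub i 1) 2) 0 = false := by
          have h3 : (i - 1) % 2 = 1 := by omega
          show Nat.beq ((i - 1) % 2) 0 = false
          rw [h3]
          rfl
        rw [e1] at hx
        rw [List.mem_singleton.1 hx]
        show -(K' : ℤ) ≤ ((i - 2 : ℕ) : ℤ) - K ∧ ((i - 2 : ℕ) : ℤ) - K ≤ K'
        omega
    · rw [ble_false h1] at hx
      by_cases h2 : i < br K L
      · rw [ble_true h2] at hx
        unfold br at h2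
        have h4 := hfW_mem hL2 (by show i - bp K ≤ L; omega) x hx
        omega
      · rw [ble_false h2] at hx
        unfold br at h2
        have h4 := hfW_mem hL2 (by show i - br K L ≤ L; unfold br; omega) x hx
        omega

theorem four_eq {α : Type} (F : Ty → α) (τ : Ty) : four F τ = F τ := by cases τ <;> rfl

theorem six_eq {α : Type} (F : ℕ → α) {r : ℕ} (h : r < 6) : six F r = F r := by
  interval_cases r <;> rfl

theorem res_lt (f : Bool) (m : ℤ) : res f m < 6 := by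
  show (Int.emod _ 6).toNat < 6
  have h1 := Int.emod_nonneg (bif f then m else Int.neg m) (show (6 : ℤ) ≠ 0 by norm_num)
  have h2 := Int.emod_lt_of_pos (bif f then m else Int.neg m) (show (0 : ℤ) < 6 by norm_num)
  have h3 : Int.emod (bif f then m else Int.neg m) 6 = (bif f then m else Int.neg m) % 6 := rfl
  rw [h3]
  omega

theorem kH_res (f : Bool) (τ : Ty) (m : ℤ) : mul4 (kG f τ) (zt (res f m)) = kH f τ m := by
  unfold kH z2
  rfl

/-- `w ≈ 2 ^ s z` -/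
def Ap (s : ℕ) (w : ℤ × ℤ) (z : ℂ) : Prop := ‖((w.1 : ℂ) + Complex.I * (w.2 : ℂ)) - 2 ^ s * z‖ ≤ 9 / 4 ∧ ‖z‖ ≤ 4

/-- rounding of a coefficient -/
theorem Ap_rdP {s R : ℕ} (hR : |(R : ℝ) - 2 ^ (s + 8) * Real.sqrt 3| ≤ 1) {p : ℤ} {q : ℕ} {c : Z4} {z : ℂ}
    (h : p = 0 ∨ (0 < q ∧ p.natAbs * sz c ≤ 4 * q)) (hz : z = (((p : ℝ) / q : ℝ) : ℂ) * ev4 c) : Ap s (rdP s R p q c) z := by
  have h1 : okC p q c = true := by
    unfold okC
    rw [Bool.or_eq_true, Bool.and_eq_true]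
    rcases h with h | h
    · left
      rw [h]
      rfl
    · right
      rw [Nat.ble_eq, Nat.ble_eq]
      exact h
  rw [hz]
  exact rdC_le hR h1

theorem ev_mE (c : Z4) (a b : ℤ) : ev4 (mE c a b) = ev4 c * ((a : ℂ) + b * Complex.I) := by
  have e : mE c a b = (c.1 * a - c.2.2.1 * b, c.2.1 * a - c.2.2.2 * b, c.1 * b + c.2.2.1 * a, c.2.1 * b + c.2.2.2 * a) := rfl
  rw [e]
  unfold ev4
  push_cast
  linear_combination (-((c.2.2.1 : ℂ) * b) - (c.2.2.2 : ℂ) * b * (Real.sqrt 3 : ℂ)) * Complex.I_mul_I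

theorem sz_mE (c : Z4) (a b : ℤ) : sz (mE c a b) ≤ sz c * (a.natAbs + b.natAbs) := by
  have e : sz (mE c a b) = ((c.1 * a - c.2.2.1 * b).natAbs + 2 * (c.2.1 * a - c.2.2.2 * b).natAbs) +
      ((c.1 * b + c.2.2.1 * a).natAbs + 2 * (c.2.1 * b + c.2.2.2 * a).natAbs) := rfl
  have e' : sz c = (c.1.natAbs + 2 * c.2.1.natAbs) + (c.2.2.1.natAbs + 2 * c.2.2.2.natAbs) := rfl
  rw [e, e']
  have k1 : ∀ x y u v : ℤ, (x * u - y * v).natAbs ≤ x.natAbs * u.natAbs + y.natAbs * v.natAbs := by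
    intro x y u v
    rw [← Int.natAbs_mul, ← Int.natAbs_mul]
    omega
  have k2 : ∀ x y u v : ℤ, (x * u + y * v).natAbs ≤ x.natAbs * u.natAbs + y.natAbs * v.natAbs := by
    intro x y u v
    rw [← Int.natAbs_mul, ← Int.natAbs_mul]
    omega
  have h1 := k1 c.1 c.2.2.1 a b
  have h2 := k1 c.2.1 c.2.2.2 a b
  have h3 := k2 c.1 c.2.2.1 b a
  have h4 := k2 c.2.1 c.2.2.2 b a
  nlinarith

theorem sz_kH (f : Bool) (τ : Ty) {r : ℕ} (h : r < 6) : sz (mul4 (kG f τ) (zt r)) ≤ 32 := by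
  cases f <;> cases τ <;> interval_cases r <;> decide

theorem sz_kG (f : Bool) (τ : Ty) : sz (kG f τ) ≤ 16 := by
  cases f <;> cases τ <;> decide

section

variable {s R D : ℕ} {e1 e2 : ℤ} (hR : |(R : ℝ) - 2 ^ (s + 8) * Real.sqrt 3| ≤ 1)

include hR

theorem WH0_ap (f : Bool) (τ : Ty) (m : ℤ) : Ap s (WH0 f s R τ m) (1 / 8 * ev4 (kH f τ m)) := by
  unfold WH0
  rw [four_eq, six_eq _ (res_lt f m), kH_res]
  refine Ap_rdP hR (Or.inr ⟨by norm_num, ?_⟩) (by push_cast; rfl)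
  rw [← kH_res]
  have := sz_kH f τ (res_lt f m)
  show 1 * _ ≤ _
  omega

theorem WH1_ap (f : Bool) (hD : 0 < D) (he : e1.natAbs + e2.natAbs ≤ D) (τ : Ty) (m : ℤ) :
    Ap s (WH1 f s R D e1 e2 τ m) (1 / (8 * D) * (ev4 (kH f τ m) * ((e1 : ℂ) + e2 * Complex.I))) := by
  unfold WH1
  rw [four_eq, six_eq _ (res_lt f m), kH_res]
  refine Ap_rdP hR (Or.inr ⟨?_, ?_⟩) ?_
  · show 0 < 8 * D
    omega
  · show 1 * sz (mE (kH f τ m) e1 e2) ≤ 4 * (8 * D)
    have h1 := sz_mE (kH f τ m) e1 e2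
    rw [← kH_res] at h1 ⊢
    have h2 := sz_kH f τ (res_lt f m)
    nlinarith [Nat.mul_le_mul h2 he]
  · rw [ev_mE]
    show _ = ((((1 : ℤ) : ℝ) / ((8 * D : ℕ) : ℝ) : ℝ) : ℂ) * _
    push_cast
    rfl

theorem WG0_ap (f : Bool) (τ : Ty) (m : ℤ) : Ap s (WG0 f s R τ m) (1 / 4 * ev4 (kG f τ)) := by
  unfold WG0
  rw [four_eq]
  refine Ap_rdP hR (Or.inr ⟨by norm_num, ?_⟩) (by push_cast; rfl)
  have := sz_kG f τ
  show 1 * _ ≤ _
  omega

theorem WG1_ap (f : Bool) (hD : 0 < D) (he : e1.natAbs + e2.natAbs ≤ D) (τ : Ty) (m : ℤ) :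
    Ap s (WG1 f s R D e1 e2 τ m) (1 / (4 * D) * (ev4 (kG f τ) * ((e1 : ℂ) + e2 * Complex.I))) := by
  unfold WG1
  rw [four_eq]
  refine Ap_rdP hR (Or.inr ⟨?_, ?_⟩) ?_
  · show 0 < 4 * D
    omega
  · show 1 * sz (mE (kG f τ) e1 e2) ≤ 4 * (4 * D)
    have h1 := sz_mE (kG f τ) e1 e2
    have h2 := sz_kG f τ
    nlinarith [Nat.mul_le_mul h2 he]
  · rw [ev_mE]
    show _ = ((((1 : ℤ) : ℝ) / ((4 * D : ℕ) : ℝ) : ℝ) : ℂ) * _
    push_cast
    rfl

omit hR in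
theorem sign_div (q : ℕ) (m : ℤ) :
    ((((Int.sign m : ℤ) : ℝ) / ((q * m.natAbs : ℕ) : ℝ) : ℝ) : ℂ) = 1 / (q : ℂ) / (m : ℂ) := by
  have e0 : ((q * m.natAbs : ℕ) : ℝ) = q * |(m : ℝ)| := by
    push_cast
    rw [Nat.cast_natAbs, Int.cast_abs]
  rw [e0]
  rcases lt_trichotomy m 0 with h | h | h
  · have h1 : (m : ℝ) < 0 := by exact_mod_cast h
    rw [abs_of_neg h1, Int.sign_eq_neg_one_of_neg h]
    push_cast
    rw [mul_neg, neg_div_neg_eq, div_div]
  · subst h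
    simp
  · have h1 : (0 : ℝ) < (m : ℝ) := by exact_mod_cast h
    rw [abs_of_pos h1, Int.sign_eq_one_of_pos h]
    push_cast
    rw [div_div]

theorem WD0_ap (f : Bool) (τ : Ty) (m : ℤ) : Ap s (WD0 f s R τ m) (1 / 4 / (m : ℂ) * ev4 (kG f τ)) := by
  unfold WD0
  rw [four_eq]
  refine Ap_rdP hR ?_ ?_
  · rcases eq_or_ne m 0 with h | h
    · left; rw [h]; rfl
    · right
      have h1 : 0 < m.natAbs := Int.natAbs_pos.2 h
      refine ⟨?_, ?_⟩
      · show 0 < 4 * m.natAbs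
        omega
      · show (Int.sign m).natAbs * sz (kG f τ) ≤ 4 * (4 * m.natAbs)
        have h2 := sz_kG f τ
        have h3 : (Int.sign m).natAbs ≤ 1 := by
          rcases lt_trichotomy m 0 with h | h | h
          · rw [Int.sign_eq_neg_one_of_neg h]; norm_num
          · rw [h]; simp
          · rw [Int.sign_eq_one_of_pos h]; norm_num
        nlinarith [Nat.mul_le_mul h3 h2]
  · have := sign_div 4 m
    show _ = ((((Int.sign m : ℤ) : ℝ) / ((4 * m.natAbs : ℕ) : ℝ) : ℝ) : ℂ) * _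
    rw [this]
    push_cast
    rfl

theorem WD1_ap (f : Bool) (hD : 0 < D) (he : e1.natAbs + e2.natAbs ≤ D) (τ : Ty) (m : ℤ) :
    Ap s (WD1 f s R D e1 e2 τ m) (1 / (4 * D) / (m : ℂ) * (ev4 (kG f τ) * ((e1 : ℂ) + e2 * Complex.I))) := by
  unfold WD1
  rw [four_eq]
  refine Ap_rdP hR ?_ ?_
  · rcases eq_or_ne m 0 with h | h
    · left; rw [h]; rfl
    · right
      have h1 : 0 < m.natAbs := Int.natAbs_pos.2 h
      refine ⟨?_, ?_⟩
      · show 0 < 4 * D * m.natAbs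
        positivity
      · show (Int.sign m).natAbs * sz (mE (kG f τ) e1 e2) ≤ 4 * (4 * D * m.natAbs)
        have h2 := sz_kG f τ
        have h4 := sz_mE (kG f τ) e1 e2
        have h3 : (Int.sign m).natAbs ≤ 1 := by
          rcases lt_trichotomy m 0 with h | h | h
          · rw [Int.sign_eq_neg_one_of_neg h]; norm_num
          · rw [h]; simp
          · rw [Int.sign_eq_one_of_pos h]; norm_num
        have h5 := Nat.mul_le_mul h2 he
        have h6 : sz (mE (kG f τ) e1 e2) ≤ 16 * D := h4.trans h5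
        calc (Int.sign m).natAbs * sz (mE (kG f τ) e1 e2) ≤ 1 * (16 * D) := Nat.mul_le_mul h3 h6
          _ ≤ (16 * D) * m.natAbs := by nlinarith
          _ = _ := by ring
  · rw [ev_mE]
    have := sign_div (4 * D) m
    show _ = ((((Int.sign m : ℤ) : ℝ) / ((4 * D * m.natAbs : ℕ) : ℝ) : ℝ) : ℂ) * _
    rw [this]
    push_cast
    rfl

end

/-! ### Lists -/

theorem tL_cl {s : ℕ} {κ : Ty → ℤ → Z4} {r : ℤ → ℝ} {D e1 e2 : ℤ} {W0 W1 W2 : Ty → ℤ → ℤ × ℤ}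
    (h0 : ∀ τ m, Ap s (W0 τ m) (((r m : ℝ) : ℂ) * (D * ev4 (κ τ m))))
    (h1 : ∀ τ m, Ap s (W1 τ m) (((r m : ℝ) : ℂ) * (ev4 (κ τ m) * ((e1 : ℂ) + e2 * Complex.I))))
    (h2 : ∀ τ m, Ap s (W2 τ m) (((r m : ℝ) : ℂ) * (ev4 (κ τ m) * ((e1 : ℂ) - e2 * Complex.I)))) (τ : Ty) (l : ℤ) :
    List.Forall₂ (Cl s r) (tL (W0 τ) (W1 τ) (W2 τ) l) (termsK κ D e1 e2 τ l (1, 0, 0, 0)) := by
  have q1 : ev4 (e1, 0, e2, 0) = (e1 : ℂ) + e2 * Complex.I := by
    unfold ev4; push_cast; ring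
  have q2 : ev4 (e1, 0, -e2, 0) = (e1 : ℂ) - e2 * Complex.I := by
    unfold ev4; push_cast; ring
  have mk : ∀ (m : ℤ) (w : ℤ × ℤ) (c : Z4), Ap s w (((r m : ℝ) : ℂ) * ev4 c) → Cl s r (m, w) (m, c) :=
    fun m w c h => ⟨rfl, h.1, h.2⟩
  refine List.Forall₂.cons (mk _ _ _ ?_) (List.Forall₂.cons (mk _ _ _ ?_) (List.Forall₂.cons (mk _ _ _ ?_) List.Forall₂.nil))
  · rw [ev4_sc, ev4_mul, ev4_one, one_mul]
    exact h0 τ (l + 1)
  · rw [ev4_mul, ev4_mul, q1, ev4_one, one_mul]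
    exact h1 τ (l + 3)
  · rw [ev4_mul, ev4_mul, q2, ev4_one, one_mul]
    exact h2 τ (l - 1)

/-! ### The exact values of a coordinate, by its fields -/

theorem exC_append (κ : ℤ → ℤ → ℂ) (r : ℤ → ℝ) (l k : List (ℤ × Z4)) (n : ℤ) :
    exC κ r (l ++ k) n = exC κ r l n + exC κ r k n := by
  unfold exC
  rw [List.map_append, List.sum_append]

theorem exC_terms (κ : ℤ → ℤ → ℂ) (r : ℤ → ℝ) (κ' : Ty → ℤ → Z4) (D e1 e2 : ℤ) (τ : Ty) (l : ℤ) (g : Z4) (n : ℤ) :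
    exC κ r (termsK κ' D e1 e2 τ l g) n = ev4 g * exC κ r (termsK κ' D e1 e2 τ l (1, 0, 0, 0)) n := by
  unfold exC termsK
  simp only [List.map_cons, List.map_nil, List.sum_cons, List.sum_nil, ev4_sc, ev4_mul, ev4_one]
  ring

theorem exC_fields (κ : ℤ → ℤ → ℂ) (r : ℤ → ℝ) (κ' : Ty → ℤ → Z4) (D e1 e2 : ℤ) (n : ℤ) (l : List (Ty × ℤ × Z4)) :
    exC κ r (l.flatMap fun x => termsK κ' D e1 e2 x.1 x.2.1 x.2.2) n =
      (l.map fun x => ev4 x.2.2 * exC κ r (termsK κ' D e1 e2 x.1 x.2.1 (1, 0, 0, 0)) n).sum := by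
  induction l with
  | nil => rfl
  | cons x l ih =>
    rw [List.flatMap_cons, exC_append, ih, List.map_cons, List.sum_cons, exC_terms]

theorem evL_terms1 (κ' : Ty → ℤ → Z4) (D e1 e2 : ℤ) (τ : Ty) (l : ℤ) (g : Z4) (m : ℤ) :
    evL (termsK κ' D e1 e2 τ l g) m = ev4 g * evL (termsK κ' D e1 e2 τ l (1, 0, 0, 0)) m := by
  unfold termsK
  simp only [evL_cons, evL_nil, ev4_sc, ev4_mul, ev4_one]
  split_ifs <;> ring

theorem evL_fields (κ' : Ty → ℤ → Z4) (D e1 e2 : ℤ) (m : ℤ) (l : List (Ty × ℤ × Z4)) :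
    evL (l.flatMap fun x => termsK κ' D e1 e2 x.1 x.2.1 x.2.2) m =
      (l.map fun x => ev4 x.2.2 * evL (termsK κ' D e1 e2 x.1 x.2.1 (1, 0, 0, 0)) m).sum := by
  induction l with
  | nil => rfl
  | cons x l ih =>
    rw [List.flatMap_cons, evL_append, ih, List.map_cons, List.sum_cons, evL_terms1]

end Helper85.NS
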